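import Pool.Agent.Lib.MP_018119_an_MY.Defs

/-!
# MY: filling an exceptional point
-/

set_option autoImplicit false

open Topology Filter Set Metric MeasureTheory

namespace Pool.Agent.MY018

open Pool.Agent.MX018

private theorem fill_punct (L : ℂ) (ρ : ℝ) : IsPreconnected (ball L ρ \ {L}) := by
  have h : (fun q : ℝ × ℝ => L + q.1 * Complex.exp (q.2 * Complex.I)) ''
      (Ioo 0 ρ ×ˢ (univ : Set ℝ)) = ball L ρ \ {L} := by
    ext w
    constructor
    · rintro ⟨⟨s, θ⟩, ⟨⟨hs0, hs⟩, -⟩, rfl⟩
      have hs0' : (0 : ℝ) < s := hs0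
      have hn : ‖(s : ℂ) * Complex.exp (θ * Complex.I)‖ = s := by
        rw [norm_mul, Complex.norm_exp_ofReal_mul_I, mul_one, Complex.norm_real,
          Real.norm_of_nonneg hs0'.le]
      refine ⟨?_, ?_⟩
      · change dist (L + (s : ℂ) * Complex.exp (θ * Complex.I)) L < ρ
        rw [dist_eq_norm, add_sub_cancel_left, hn]
        exact hs
      · intro h1
        have h2 : L + (s : ℂ) * Complex.exp (θ * Complex.I) = L := h1
        have h3 : (s : ℂ) * Complex.exp (θ * Complex.I) = 0 := by
          rwa [add_eq_left] at h2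
        rw [h3, norm_zero] at hn
        exact hs0'.ne hn
    · rintro ⟨h1, h2⟩
      have h2' : w ≠ L := h2
      refine ⟨(‖w - L‖, Complex.arg (w - L)), ⟨⟨norm_pos_iff.2 (sub_ne_zero.2 h2'), ?_⟩,
        mem_univ _⟩, ?_⟩
      · rw [← dist_eq_norm]
        exact h1
      · change L + ((‖w - L‖ : ℝ) : ℂ) * Complex.exp (Complex.arg (w - L) * Complex.I) = w
        rw [Complex.norm_mul_exp_arg_mul_I]
        ring
  rw [← h]
  refine (isPreconnected_Ioo.prod isPreconnected_univ).image _ ?_
  fun_prop

/-- PROOF. Let `F₁ = Function.update F p L`. `fin`, `sub`, `cpt`: clear. `hol`: `p ∈ K`, so `F₁ = F` on the open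
set `Kᶜ`. `inf`: eventually `F₁ = F`. `cont`: `E` is finite, so `Eᶜ` is open; at a point `z ≠ p` of `Eᶜ` the functions
agree near `z`, and `F` is continuous at `z` (`(insert p E)ᶜ` is open); at `p` it is the limit
(`continuousAt_update_same`). `sep`: let `δ > 0` be the number for `η / 2` in `St.sep` of `F`. Let `x, y ∉ E` with
`η ≤ dist x y`. If `x, y ≠ p` this is clear. If `x = p` then `y ≠ p`; for `x'` in a punctured
neighbourhood of `p` we have `x' ∉ insert p E` and `η / 2 ≤ dist x' y`, so
`δ ≤ dist (F x') (F y)`, and the limit `x' → p` gives `δ ≤ dist L (F y)`. Similarly for `y = p`.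
`opn`: let `U ⊆ Eᶜ` be open. `F₁ '' U = F '' (U \ {p}) ∪ F₁ '' (U ∩ {p})`, and `F '' (U \ {p})` is open by
`St.opn`. So we need, if `p ∈ U`, that `F₁ '' U` is a neighbourhood of `L`. Let `r > 0` with
`closedBall p r ⊆ U`, `B = ball p r`. `F₁` is continuous and injective on `closedBall p r` (`sep`). Let `ρ > 0` be
smaller than the distance of `L = F₁ p` to the compact set `F₁ '' sphere p r`, which does not
contain `L`. `W = ball L ρ \ {L}` is connected (for instance
`IsConnected.isPreconnected` of a punctured ball in the plane: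
`isPreconnected` of `ball L ρ \ {L}`; if Mathlib has it only for convex/complement sets, use the
image of the connected set `Ioo 0 ρ ×ˢ univ` under `(s, θ) ↦ L + s * exp (θ I)`). `Z = F '' (B \ {p}) ∩ W` is open; it is closed
in `W`: if `F x_n → w ∈ W` with `x_n ∈ B \ {p}`, a subsequence of `x_n` converges to a point
`x ∈ closedBall p r` and `F₁ x = w`; since `w ≠ L`, `x ≠ p`, and `x ∉ sphere p r` by the choice of
`ρ`; so `w ∈ Z`. `Z` is nonempty, since `F x → L` for `x → p` and `F x ≠ L` (injectivity). So `Z = W`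
and `ball L ρ ⊆ F₁ '' U`. -/
theorem st_fill {F : ℂ → ℂ} {E K : Set ℂ} {p L : ℂ} (hS : St F (insert p E) K) (hp : p ∉ E)
    (hL : Tendsto F (𝓝[≠] p) (𝓝 L)) : St (Function.update F p L) E K := by
  set F₁ : ℂ → ℂ := Function.update F p L with hF₁
  have hp1 : F₁ p = L := Function.update_self _ _ _
  have hne : ∀ z, z ≠ p → F₁ z = F z := fun z hz => Function.update_of_ne hz _ _
  have hEf : E.Finite := hS.fin.subset (subset_insert p E)
  have hEc : IsClosed E := hEf.isClosed
  have hpE : IsClosed (insert p E) := hS.fin.isClosed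
  have hpK : p ∈ K := hS.sub (mem_insert p E)
  have hnot : ∀ {z : ℂ}, z ∉ E → z ≠ p → z ∉ insert p E := fun h1 h2 h3 => h3.elim h2 h1
  have hevE : ∀ᶠ x in 𝓝[≠] p, x ∉ insert p E := by
    have h1 : ∀ᶠ x in 𝓝[≠] p, x ∉ E :=
      (hEc.isOpen_compl.eventually_mem hp).filter_mono nhdsWithin_le_nhds
    filter_upwards [h1, self_mem_nhdsWithin] with x hx hx'
    exact hnot hx hx'
  -- continuity
  have hcont : ContinuousOn F₁ Eᶜ := by
    intro z hz
    by_cases hzp : z = p
    · subst hzp
      exact (continuousAt_update_same.2 hL).continuousWithinAt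
    · have h1 : ContinuousAt F z := (hS.cont z (hnot hz hzp)).continuousAt
        (hpE.isOpen_compl.mem_nhds (hnot hz hzp))
      have h2 : ∀ᶠ x in 𝓝 z, F x = F₁ x := by
        filter_upwards [isOpen_compl_singleton.mem_nhds hzp] with x hx
        exact (hne x hx).symm
      exact (h1.congr h2).continuousWithinAt
  -- separation
  have hsep : ∀ η > 0, ∃ δ > 0, ∀ x ∉ E, ∀ y ∉ E, η ≤ dist x y → δ ≤ dist (F₁ x) (F₁ y) := by
    intro η hη
    obtain ⟨δ, hδ, hs⟩ := hS.sep (η / 2) (by positivity)
    have hA : ∀ y ∉ insert p E, η ≤ dist p y → δ ≤ dist L (F y) := by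
      intro y hy hpy
      have h1 : Tendsto (fun x => dist (F x) (F y)) (𝓝[≠] p) (𝓝 (dist L (F y))) :=
        hL.dist tendsto_const_nhds
      refine ge_of_tendsto h1 ?_
      have h2 : ∀ᶠ x in 𝓝[≠] p, x ∈ ball p (η / 2) :=
        (isOpen_ball.eventually_mem (mem_ball_self (by positivity))).filter_mono
          nhdsWithin_le_nhds
      filter_upwards [hevE, h2] with x hx hx2
      refine hs x hx y hy ?_
      have h3 : dist x p < η / 2 := hx2
      have h4 := dist_triangle p x y
      rw [dist_comm p x] at h4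
      linarith
    refine ⟨δ, hδ, fun x hx y hy hxy => ?_⟩
    by_cases hxp : x = p
    · subst hxp
      have hyp : y ≠ x := by
        rintro rfl
        rw [dist_self] at hxy
        linarith
      rw [hp1, hne y hyp]
      exact hA y (hnot hy hyp) hxy
    · by_cases hyp : y = p
      · subst hyp
        rw [hp1, hne x hxp, dist_comm]
        exact hA x (hnot hx hxp) (by rwa [dist_comm])
      · rw [hne x hxp, hne y hyp]
        exact hs x (hnot hx hxp) y (hnot hy hyp) (by linarith)
  have hinj : ∀ x ∉ E, ∀ y ∉ E, F₁ x = F₁ y → x = y := by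
    intro x hx y hy hxy
    by_contra hne'
    obtain ⟨δ, hδ, hs⟩ := hsep (dist x y) (dist_pos.2 hne')
    have h1 := hs x hx y hy le_rfl
    rw [hxy, dist_self] at h1
    linarith
  refine ⟨hEf, (subset_insert p E).trans hS.sub, hS.cpt, hcont, ?_, hsep, ?_, ?_⟩
  · intro U hU hUo
    rw [isOpen_iff_mem_nhds]
    rintro _ ⟨z, hz, rfl⟩
    by_cases hzp : z = p
    · subst hzp
      rw [hp1]
      obtain ⟨r, hr, hrU⟩ := Metric.nhds_basis_closedBall.mem_iff.1 (hUo.mem_nhds hz)
      have hbE : closedBall z r ⊆ Eᶜ := hrU.trans hU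
      have hc1 : IsCompact (F₁ '' sphere z r) :=
        (isCompact_sphere z r).image_of_continuousOn
          (hcont.mono (sphere_subset_closedBall.trans hbE))
      have hc2 : IsCompact (F₁ '' closedBall z r) :=
        (isCompact_closedBall z r).image_of_continuousOn (hcont.mono hbE)
      have hLn : L ∉ F₁ '' sphere z r := by
        rintro ⟨x, hx, hxL⟩
        have h1 : x = z := hinj x (hbE (sphere_subset_closedBall hx)) z (hU hz)
          (hxL.trans hp1.symm)
        rw [h1, mem_sphere, dist_self] at hx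
        exact hr.ne hx
      obtain ⟨ρ, hρ, hρs⟩ := Metric.mem_nhds_iff.1 (hc1.isClosed.isOpen_compl.mem_nhds hLn)
      have hZo : IsOpen (F '' (ball z r \ {z})) := by
        refine hS.opn _ ?_ (isOpen_ball.sdiff isClosed_singleton)
        intro x hx
        exact hnot (hbE (ball_subset_closedBall hx.1)) hx.2
      have hZ'o : IsOpen (F₁ '' closedBall z r)ᶜ := hc2.isClosed.isOpen_compl
      have hZsub : F '' (ball z r \ {z}) ⊆ F₁ '' closedBall z r := by
        rintro _ ⟨x, hx, rfl⟩
        exact ⟨x, ball_subset_closedBall hx.1, hne x hx.2⟩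
      have hW : ball L ρ \ {L} ⊆ F '' (ball z r \ {z}) := by
        refine IsPreconnected.subset_left_of_subset_union hZo hZ'o ?_ ?_ ?_ (fill_punct L ρ)
        · rw [Set.disjoint_left]
          exact fun x hx hx' => hx' (hZsub hx)
        · rintro w ⟨hw1, hw2⟩
          by_cases hw : w ∈ F₁ '' closedBall z r
          · left
            obtain ⟨x, hx, rfl⟩ := hw
            have hxz : x ≠ z := by
              rintro rfl
              exact hw2 hp1
            refine ⟨x, ⟨?_, hxz⟩, (hne x hxz).symm⟩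
            rcases (mem_closedBall.1 hx).lt_or_eq with h1 | h1
            · exact h1
            · exact absurd ⟨x, h1, rfl⟩ (hρs hw1)
          · exact Or.inr hw
        · have h1 : ∀ᶠ x in 𝓝[≠] z, F x ∈ ball L ρ :=
            hL.eventually (isOpen_ball.eventually_mem (mem_ball_self hρ))
          have h2 : ∀ᶠ x in 𝓝[≠] z, x ∈ ball z r :=
            (isOpen_ball.eventually_mem (mem_ball_self hr)).filter_mono nhdsWithin_le_nhds
          have h3 : ∀ᶠ x in 𝓝[≠] z, x ≠ z := self_mem_nhdsWithin
          obtain ⟨x, hx1, hx2, hx3⟩ := (h1.and (h2.and h3)).exists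
          refine ⟨F x, ⟨hx1, fun h4 => ?_⟩, x, ⟨hx2, hx3⟩, rfl⟩
          have h5 : F x = L := h4
          refine hx3 (hinj x (hbE (ball_subset_closedBall hx2)) z (hU hz) ?_)
          rw [hne x hx3, hp1, h5]
      refine Metric.mem_nhds_iff.2 ⟨ρ, hρ, fun w hw => ?_⟩
      by_cases hwL : w = L
      · exact ⟨z, hz, hp1.trans hwL.symm⟩
      · obtain ⟨x, hx, hxw⟩ := hZsub (hW ⟨hw, hwL⟩)
        exact ⟨x, hrU hx, hxw⟩
    · have ho : IsOpen (F '' (U \ {p})) :=
        hS.opn _ (fun x hx => hnot (hU hx.1) hx.2) (hUo.sdiff isClosed_singleton)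
      refine Filter.mem_of_superset (ho.mem_nhds ⟨z, ⟨hz, hzp⟩, (hne z hzp).symm⟩) ?_
      rintro _ ⟨x, hx, rfl⟩
      exact ⟨x, hx.1, hne x hx.2⟩
  · refine hS.hol.congr fun z hz => hne z ?_
    rintro rfl
    exact hz hpK
  · refine hS.inf.congr' ?_
    have h1 : ∀ᶠ z in cocompact ℂ, z ∈ ({p} : Set ℂ)ᶜ :=
      (isCompact_singleton (x := p)).compl_mem_cocompact
    filter_upwards [h1] with z hz
    rw [hne z hz]

end Pool.Agent.MY018
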