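import Pool.Agent.Lib.MP_018119_an_MY.Defs
import Pool.Agent.Lib.MP_018119_an_MX.TowLim

/-!
# MY: the limit of a tower without exceptional points is a homeomorphism
-/

set_option autoImplicit false

open Topology Filter Set Metric MeasureTheory

namespace Pool.Agent.MY018

open Pool.Agent.MX018

private theorem towr_closed {F : ℂ → ℂ} (hc : Continuous F)
    (hs : ∀ η > 0, ∃ δ > 0, ∀ x y : ℂ, η ≤ dist x y → δ ≤ dist (F x) (F y)) :
    IsClosed (range F) := by
  rw [← closure_subset_iff_isClosed]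
  intro w hw
  obtain ⟨u, hu, hlim⟩ := mem_closure_iff_seq_limit.1 hw
  choose x hx using hu
  have hx' : ∀ n, F (x n) = u n := hx
  have hcau : CauchySeq x := by
    rw [Metric.cauchySeq_iff]
    intro η hη
    obtain ⟨δ, hδ, h1⟩ := hs η hη
    obtain ⟨N, hN⟩ := Metric.cauchySeq_iff.1 hlim.cauchySeq δ hδ
    refine ⟨N, fun m hm n hn => ?_⟩
    by_contra hcon
    push Not at hcon
    have h2 := h1 (x m) (x n) hcon
    rw [hx' m, hx' n] at h2
    have h3 := hN m hm n hn
    linarith
  obtain ⟨x0, hx0⟩ := cauchySeq_tendsto_of_complete hcau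
  have h1 : Tendsto (fun n => F (x n)) atTop (𝓝 (F x0)) := (hc.tendsto x0).comp hx0
  have h2 : Tendsto (fun n => F (x n)) atTop (𝓝 w) := by
    simpa only [hx'] using hlim
  exact ⟨x0, tendsto_nhds_unique h1 h2⟩

/-- A state without exceptional points is surjective.
PROOF. `range F` is open (`opn` with `U = univ`), nonempty, and closed: if `F x_n → w` then
`F x_n` is a Cauchy sequence, so is `x_n` (`sep`), `x_n → x` and `F x = w`. The plane is
connected (`IsClopen.eq_univ`). -/
theorem st_surj {F : ℂ → ℂ} {K : Set ℂ} (h : St F ∅ K) : Function.Surjective F := by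
  have hc : Continuous F := by
    rw [← continuousOn_univ, ← compl_empty]
    exact h.cont
  have ho : IsOpen (range F) := by
    rw [← image_univ]
    exact h.opn univ (by rw [compl_empty]) isOpen_univ
  have hcl : IsClosed (range F) := towr_closed hc fun η hη => by
    obtain ⟨δ, hδ, h1⟩ := h.sep η hη
    exact ⟨δ, hδ, fun x y => h1 x (notMem_empty x) y (notMem_empty y)⟩
  rw [← range_eq_univ]
  exact IsClopen.eq_univ ⟨hcl, ho⟩ (range_nonempty F)

private theorem towr_ends (s t : ℕ → ℝ) (n : ℕ) : ends s t ∅ n = ∅ :=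
  eq_empty_of_forall_notMem fun x hx => notMem_empty x hx.1

private theorem towr_gts_mono (s t : ℕ → ℝ) {m n : ℕ} (h : m ≤ n) : gts s t m ⊆ gts s t n := by
  rintro x ⟨k, hk, h2⟩
  exact ⟨k, hk.trans_le h, h2⟩

private theorem towr_exists {γ : ℝ → ℂ} (hγ : Crv γ) {s t : ℕ → ℝ} (hg : Gts s t) {z : ℂ}
    (hz : z ∉ γ '' (Icc 0 1 \ gtsI s t)) : ∃ n, z ∉ γ '' (Icc 0 1 \ gts s t n) := by
  by_cases h1 : z ∈ γ '' Icc 0 1
  · obtain ⟨x, hx, rfl⟩ := h1
    have h2 : x ∈ gtsI s t := by
      by_contra h3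
      exact hz ⟨x, ⟨hx, h3⟩, rfl⟩
    obtain ⟨k, hk⟩ := h2
    refine ⟨k + 1, ?_⟩
    rintro ⟨y, ⟨hy, hy2⟩, hxy⟩
    have h3 := hg.lt k
    have h4 : x = y := crv_inj hγ ⟨h3.1.trans hk.1, hk.2.trans h3.2.2⟩ hy hxy.symm
    rw [← h4] at hy2
    exact hy2 ⟨k, Nat.lt_succ_self k, hk⟩
  · exact ⟨0, fun h2 => h1 (image_mono sdiff_subset h2)⟩

/-- the limit function -/
private theorem towr_lim {γ : ℝ → ℂ} (hγ : Crv γ) {Q : Set ℝ} {F : ℕ → ℂ → ℂ} {s t ε : ℕ → ℝ}
    {ε₀ : ℝ} (h : Tower γ Q ∅ F s t ε ε₀) :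
    ∃ G : ℂ → ℂ, Continuous G ∧ (∀ n z, dist (F n z) (G z) ≤ 2 * ε n) ∧
      (∀ η > 0, ∃ δ > 0, ∀ x y : ℂ, η ≤ dist x y → δ ≤ dist (G x) (G y)) ∧
      DifferentiableOn ℂ G (γ '' (Icc 0 1 \ gtsI s t))ᶜ ∧
      Tendsto (fun z => G z - z) (cocompact ℂ) (𝓝 0) := by
  obtain ⟨hsum, htail⟩ := eps_sum h.pos h.half
  have hE : ∀ n, γ '' ends s t ∅ n = ∅ := fun n => by rw [towr_ends, image_empty]
  have hno : ∀ n z, z ∉ γ '' ends s t ∅ n := fun n z => by
    rw [hE]
    exact notMem_empty z
  have hlim : ∀ z : ℂ, ∃ w : ℂ, ∀ n, dist (F n z) w ≤ 2 * ε n := by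
    intro z
    have hd : ∀ n, dist (F n z) (F n.succ z) ≤ ε n := by
      intro n
      rw [dist_comm, dist_eq_norm]
      exact h.close n z (hno (n + 1) z)
    obtain ⟨w, hw⟩ := cauchySeq_tendsto_of_complete (cauchySeq_of_dist_le_of_summable ε hd hsum)
    exact ⟨w, fun n => (dist_le_tsum_of_dist_le_of_tendsto ε hd hsum hw n).trans (htail n)⟩
  choose G hG using hlim
  have h0 : Tendsto ε atTop (𝓝 0) := hsum.tendsto_atTop_zero
  have hU : TendstoUniformlyOn F G atTop univ := by
    rw [Metric.tendstoUniformlyOn_iff]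
    intro e he
    have h1 : ∀ᶠ n in atTop, ε n < e / 2 := h0.eventually (gt_mem_nhds (by linarith))
    filter_upwards [h1] with n hn z _
    rw [dist_comm]
    have := hG z n
    linarith
  refine ⟨G, ?_, fun n z => hG z n, ?_, ?_, ?_⟩
  · rw [← continuousOn_univ]
    refine hU.continuousOn (Filter.Eventually.frequently (Eventually.of_forall fun n => ?_))
    have h1 := (h.st n).cont
    rwa [hE, compl_empty] at h1
  · intro η hη
    obtain ⟨n, hn⟩ := exists_nat_one_div_lt hη
    refine ⟨2 * ε n, by have := h.pos n; positivity, fun x y hxy => ?_⟩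
    have h1 := h.sep n x (hno n x) y (hno n y) (hn.le.trans hxy)
    have h2 := hG x n
    have h3 := hG y n
    have h4 := dist_triangle4 (F n x) (G x) (G y) (F n y)
    rw [dist_comm (G y) (F n y)] at h4
    linarith
  · intro z hz
    obtain ⟨n, hn⟩ := towr_exists hγ h.g hz
    have hO : IsOpen (γ '' (Icc 0 1 \ gts s t n))ᶜ := (h.st n).cpt.isClosed.isOpen_compl
    have hd : DifferentiableOn ℂ G (γ '' (Icc 0 1 \ gts s t n))ᶜ := by
      refine (hU.mono (subset_univ _)).tendstoLocallyUniformlyOn.differentiableOn ?_ hO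
      filter_upwards [eventually_ge_atTop n] with m hm
      exact (h.st m).hol.mono (compl_subset_compl.2
        (image_mono (sdiff_subset_sdiff_right (towr_gts_mono s t hm))))
    exact (hd.differentiableAt (hO.mem_nhds hn)).differentiableWithinAt
  · rw [Metric.tendsto_nhds]
    intro e he
    obtain ⟨n, hn⟩ : ∃ n, ε n < e / 4 := (h0.eventually (gt_mem_nhds (by linarith))).exists
    have h1 := (Metric.tendsto_nhds.1 (h.st n).inf) (e / 2) (by linarith)
    filter_upwards [h1] with z hz1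
    have h3 := hG z n
    rw [dist_zero_right] at hz1 ⊢
    have h5 : G z - z = (G z - F n z) + (F n z - z) := by ring
    rw [h5]
    refine (norm_add_le _ _).trans_lt ?_
    rw [← dist_eq_norm, dist_comm]
    linarith

/-- PROOF. `ends s t ∅ n = ∅`, `endsI s t ∅ = ∅`. As in the proof of `tower_limit`
(Lib/MP_018119_an_MX/TowLim.lean, which may be copied): `F n z` converges, uniformly, to
a function `G` with `‖G z - F n z‖ ≤ 2 * ε n` for all `z` and `n` (`close`, `eps_sum`); `G` has all the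
properties stated in `tower_limit` (one may also apply `tower_limit` for the proofs, after
making sure that the two limits agree; or prove them again: `G` is continuous as a uniform limit,
`sep` gives the uniform separation of `G`, `G` is holomorphic off `γ '' (Icc 0 1 \ gtsI s t)`, as
each point of this open set has a neighbourhood on which all `F n`, `n ≥ n₀`, are holomorphic,
`G z - z → 0` and `‖G z - F 0 z‖ ≤ ε₀`). `G` is injective (`sep`). It is surjective: its range is
closed (`sep` and completeness, as in `st_surj`) and dense: for `w ∈ ℂ` there is `x_n` with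
`F n x_n = w` (`st_surj`), and `‖G x_n - w‖ ≤ 2 * ε n → 0`. The inverse is (uniformly) continuous by
`sep`. So `G` is a homeomorphism (`Homeomorph` from `Equiv.ofBijective`). -/
theorem tower_limit_R {γ : ℝ → ℂ} (hγ : Crv γ) {Q : Set ℝ} {F : ℕ → ℂ → ℂ} {s t ε : ℕ → ℝ}
    {ε₀ : ℝ} (h : Tower γ Q ∅ F s t ε ε₀) :
    ∃ G : ℂ ≃ₜ ℂ, DifferentiableOn ℂ G (γ '' (Icc 0 1 \ gtsI s t))ᶜ ∧
      Tendsto (fun z => G z - z) (cocompact ℂ) (𝓝 0) ∧ ∀ z, ‖G z - F 0 z‖ ≤ ε₀ := by
  obtain ⟨hsum, -⟩ := eps_sum h.pos h.half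
  have h0 : Tendsto ε atTop (𝓝 0) := hsum.tendsto_atTop_zero
  obtain ⟨G, hGc, hG, hsep, hhol, hinf⟩ := towr_lim hγ h
  have hinj : Function.Injective G := by
    intro x y hxy
    by_contra hne
    obtain ⟨δ, hδ, h1⟩ := hsep (dist x y) (dist_pos.2 hne)
    have h2 := h1 x y le_rfl
    rw [hxy, dist_self] at h2
    linarith
  have hsurj : Function.Surjective G := by
    intro w
    have hst : ∀ n, ∃ x, F n x = w := by
      intro n
      have h1 := h.st n
      rw [towr_ends, image_empty] at h1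
      exact st_surj h1 w
    choose x hx using hst
    have hlim : Tendsto (fun n => G (x n)) atTop (𝓝 w) := by
      rw [tendsto_iff_dist_tendsto_zero]
      refine squeeze_zero (fun n => dist_nonneg) (fun n => ?_)
        (by simpa using h0.const_mul 2 : Tendsto (fun n => 2 * ε n) atTop (𝓝 0))
      have h1 := hG n (x n)
      rw [hx n, dist_comm] at h1
      exact h1
    have h1 : w ∈ closure (range G) :=
      mem_closure_of_tendsto hlim (Eventually.of_forall fun n => mem_range_self _)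
    rw [(towr_closed hGc hsep).closure_eq] at h1
    exact h1
  let e : ℂ ≃ ℂ := Equiv.ofBijective G ⟨hinj, hsurj⟩
  have hes : ∀ b, G (e.symm b) = b := fun b => e.apply_symm_apply b
  have hinv : Continuous e.symm := by
    rw [Metric.continuous_iff]
    intro b η hη
    obtain ⟨δ, hδ, h1⟩ := hsep η hη
    refine ⟨δ, hδ, fun a ha => ?_⟩
    by_contra hcon
    push Not at hcon
    have h2 := h1 _ _ hcon
    rw [hes, hes] at h2
    linarith
  refine ⟨{ e with
    continuous_toFun := hGc
    continuous_invFun := hinv }, hhol, hinf, fun z => ?_⟩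
  have h1 := hG 0 z
  have h2 := h.zero
  change ‖G z - F 0 z‖ ≤ ε₀
  rw [← dist_eq_norm, dist_comm]
  linarith

end Pool.Agent.MY018
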