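import Pool.Agent.Lib.MP_018119_an_MY.Defs

/-!
# MY: change of variables for holomorphic injections
-/

set_option autoImplicit false

open Topology Filter Set Metric MeasureTheory

namespace Pool.Agent.MY018

private theorem AreaD_det (c : ℂ) : (c • (1 : ℂ →L[ℝ] ℂ)).det = ‖c‖ ^ 2 := by
  have h1 : ((c • (1 : ℂ →L[ℝ] ℂ) : ℂ →L[ℝ] ℂ) : ℂ →ₗ[ℝ] ℂ) = LinearMap.mul ℝ ℂ c := by
    refine LinearMap.ext fun z => ?_
    rfl
  have h2 : (c • (1 : ℂ →L[ℝ] ℂ)).det = Algebra.norm ℝ c := by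
    rw [Algebra.norm_apply]
    change LinearMap.det ((c • (1 : ℂ →L[ℝ] ℂ) : ℂ →L[ℝ] ℂ) : ℂ →ₗ[ℝ] ℂ) = _
    rw [h1]
    rfl
  rw [h2, Algebra.norm_complex_apply, Complex.sq_norm]

/-- PROOF. `lintegral_image_eq_lintegral_abs_det_fderiv_mul` (Mathlib) with the real derivative of
`F` at `z`, the multiplication by `deriv F z`, whose determinant is `‖deriv F z‖ ^ 2`
(`Complex.det_...`: compute it in the basis `1, I`, or use `LinearMap.det` of the
multiplication; for instance `Algebra.norm`/`Complex.basisOneI`). -/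
theorem lintegral_holo {W : Set ℂ} (hW : MeasurableSet W) {F : ℂ → ℂ}
    (hd : ∀ z ∈ W, DifferentiableAt ℂ F z) (hi : InjOn F W) (g : ℂ → ENNReal) :
    ∫⁻ w in F '' W, g w = ∫⁻ z in W, g (F z) * ‖deriv F z‖ₑ ^ 2 := by
  have h1 := lintegral_image_eq_lintegral_abs_det_fderiv_mul (volume : Measure ℂ) hW
    (f' := fun z => deriv F z • (1 : ℂ →L[ℝ] ℂ))
    (fun z hz => (hd z hz).hasDerivAt.complexToReal_fderiv.hasFDerivWithinAt) hi g
  rw [h1]
  refine setLIntegral_congr_fun hW fun z _ => ?_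
  rw [AreaD_det, abs_of_nonneg (sq_nonneg _), mul_comm, ENNReal.ofReal_pow (norm_nonneg _),
    ofReal_norm]

end Pool.Agent.MY018
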