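import Pool.Agent.Lib.MP_018119_an_MX.Defs

/-!
# MP_018119_an, project MY: definitions

Points of a curve at which no hole can appear.
-/

set_option autoImplicit false

open Topology Filter Set Metric MeasureTheory

namespace Pool.Agent.MY018

/-- Every bounded open embedding of a punctured neighbourhood of `p`, holomorphic off `C`, has a
limit at `p`. -/
def RPt (C : Set ℂ) (p : ℂ) : Prop :=
  ∀ (F : ℂ → ℂ) (δ : ℝ), 0 < δ → ContinuousOn F (ball p δ \ {p}) → InjOn F (ball p δ \ {p}) →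
    (∀ U ⊆ ball p δ \ {p}, IsOpen U → IsOpen (F '' U)) →
    DifferentiableOn ℂ F ((ball p δ \ {p}) \ C) → Bornology.IsBounded (F '' (ball p δ \ {p})) →
    ∃ L, Tendsto F (𝓝[≠] p) (𝓝 L)

/-- A loop in `A` which surrounds `p`, and which is differentiable and outside of `C` except for
countably many parameters. -/
structure CLoop (C : Set ℂ) (p : ℂ) (A : Set ℂ) (σ : ℝ → ℂ) : Prop where
  cont : Continuous σ
  closed : σ 0 = σ 1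
  mem : ∀ t ∈ Icc (0 : ℝ) 1, σ t ∈ A
  diff : {t : ℝ | t ∈ Icc (0 : ℝ) 1 ∧ (¬ DifferentiableAt ℝ σ t ∨ σ t ∈ C)}.Countable
  ne : ∀ t ∈ Icc (0 : ℝ) 1, σ t ≠ p
  sur : Bornology.IsBounded (connectedComponentIn (σ '' Icc 0 1)ᶜ p)

/-- The modulus of the family of the loops `CLoop C p A` is at least `m`. -/
def ModGe (C : Set ℂ) (p : ℂ) (A : Set ℂ) (m : ℝ) : Prop :=
  ∀ ρ : ℂ → ENNReal, Measurable ρ →
    (∀ σ : ℝ → ℂ, CLoop C p A σ → 1 ≤ ∫⁻ t in Icc (0 : ℝ) 1, ρ (σ t) * ‖deriv σ t‖ₑ) →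
    ENNReal.ofReal m ≤ ∫⁻ z in A, ρ z ^ 2

/-- The point `p` is surrounded by families of loops with divergent total modulus. -/
def LoopPt (C : Set ℂ) (p : ℂ) : Prop :=
  ∃ (A : ℕ → Set ℂ) (m : ℕ → ℝ), (∀ k, MeasurableSet (A k)) ∧
    Pairwise (Function.onFun Disjoint A) ∧ (∀ r > 0, ∀ᶠ k in atTop, A k ⊆ ball p r) ∧
    (∀ k, 0 ≤ m k) ∧ ¬ Summable m ∧ ∀ k, ModGe C p (A k) (m k)

/-- The closed box in the upper half plane. -/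
def ubox (x r : ℝ) : Set ℂ := {w | |w.re - x| ≤ r ∧ 0 ≤ w.im ∧ w.im ≤ r}

/-- The closed box in the lower half plane. -/
def lbox (x r : ℝ) : Set ℂ := {w | |w.re - x| ≤ r ∧ -r ≤ w.im ∧ w.im ≤ 0}

/-- Half open box, upper side. -/
def ub (a b s : ℝ) : Set ℂ := {w | a < w.re ∧ w.re < b ∧ 0 ≤ w.im ∧ w.im < s}

/-- Half open box, lower side. -/
def lb (a b s : ℝ) : Set ℂ := {w | a < w.re ∧ w.re < b ∧ -s < w.im ∧ w.im ≤ 0}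

/-- Local welding data of the two sides of a curve at the point `G₁ x₀`. -/
structure LD (C : Set ℂ) (G₁ G₂ : ℂ → ℂ) (h : ℝ → ℝ) (x₀ r R : ℝ) : Prop where
  rpos : 0 < r
  Rpos : 0 < R
  c1 : ContinuousOn G₁ (ubox x₀ r)
  i1 : InjOn G₁ (ubox x₀ r)
  d1 : DifferentiableOn ℂ G₁ {w | 0 < w.im}
  c2 : ContinuousOn G₂ (lbox (h x₀) R)
  i2 : InjOn G₂ (lbox (h x₀) R)
  d2 : DifferentiableOn ℂ G₂ {w | w.im < 0}
  mono : StrictMono h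
  hc : Continuous h
  hR1 : h (x₀ + r) ≤ h x₀ + R
  hR2 : h x₀ - R ≤ h (x₀ - r)
  wel : ∀ x ∈ Icc (x₀ - r) (x₀ + r), G₁ (x : ℂ) = G₂ ((h x : ℝ) : ℂ)
  C1 : ∀ w ∈ ubox x₀ r, 0 < w.im → G₁ w ∉ C
  C2 : ∀ w ∈ lbox (h x₀) R, w.im < 0 → G₂ w ∉ C
  sep : ∀ u ∈ ubox x₀ r, ∀ v ∈ lbox (h x₀) R, G₁ u = G₂ v → u.im = 0 ∧ v.im = 0 ∧ v.re = h u.re
  opn : ∀ a b s s' : ℝ, x₀ - r < a → a < b → b < x₀ + r → 0 < s → s < r → 0 < s' → s' < R →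
    IsOpen (G₁ '' ub a b s ∪ G₂ '' lb (h a) (h b) s')

/-- The upper part of the annular region. -/
def U1 (x₀ t : ℝ) : Set ℂ :=
  {w | x₀ - 2 * t < w.re ∧ w.re < x₀ + 2 * t ∧ 0 ≤ w.im ∧ w.im < 2 * t ∧
    (w.re < x₀ - t ∨ x₀ + t < w.re ∨ t < w.im)}

/-- The lower part of the annular region. -/
def U2 (h : ℝ → ℝ) (x₀ t κ : ℝ) : Set ℂ :=
  {w | h (x₀ - 2 * t) < w.re ∧ w.re < h (x₀ + 2 * t) ∧ -(2 * κ * t) < w.im ∧ w.im ≤ 0 ∧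
    (w.re < h (x₀ - t) ∨ h (x₀ + t) < w.re ∨ w.im < -(κ * t))}

/-- The annular region around `G₁ x₀`. -/
def AA (G₁ G₂ : ℂ → ℂ) (h : ℝ → ℝ) (x₀ t κ : ℝ) : Set ℂ := G₁ '' U1 x₀ t ∪ G₂ '' U2 h x₀ t κ

/-- The sides of the box `ub a b s`. -/
def us (a b s : ℝ) : Set ℂ :=
  {w | a ≤ w.re ∧ w.re ≤ b ∧ 0 ≤ w.im ∧ w.im ≤ s ∧ (w.re = a ∨ w.re = b ∨ w.im = s)}

/-- The sides of the box `lb a b s`. -/
def ls (a b s : ℝ) : Set ℂ :=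
  {w | a ≤ w.re ∧ w.re ≤ b ∧ -s ≤ w.im ∧ w.im ≤ 0 ∧ (w.re = a ∨ w.re = b ∨ w.im = -s)}

end Pool.Agent.MY018
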