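import Pool.Agent.Lib.MP_018119_an_MY.Defs

/-!
# MY: definitions for part H (harmonic measures)
-/

set_option autoImplicit false

open Topology Filter Set Metric MeasureTheory

namespace Pool.Agent.MY018

/-- Riemann maps of the two sides of a Jordan curve which contains `C`, and the welding
homeomorphism. -/
structure GD (C : Set ℂ) (f₁ f₂ : ℂ → ℂ) (h : ℝ → ℝ) : Prop where
  c1 : ContinuousOn f₁ (closedBall 0 1)
  i1 : InjOn f₁ (closedBall 0 1)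
  d1 : DifferentiableOn ℂ f₁ (ball 0 1)
  c2 : ContinuousOn f₂ (ball 0 1)ᶜ
  i2 : InjOn f₂ (ball 0 1)ᶜ
  d2 : DifferentiableOn ℂ f₂ (closedBall 0 1)ᶜ
  pr : Tendsto f₂ (cocompact ℂ) (cocompact ℂ)
  cov : f₁ '' closedBall 0 1 ∪ f₂ '' (ball 0 1)ᶜ = univ
  dis : Disjoint (f₁ '' ball 0 1) (f₂ '' (closedBall 0 1)ᶜ)
  mono : StrictMono h
  hc : Continuous h
  per : ∀ x, h (x + 2 * Real.pi) = h x + 2 * Real.pi
  wel : ∀ x : ℝ, f₁ (Complex.exp (x * Complex.I)) = f₂ (Complex.exp (h x * Complex.I))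
  sub : C ⊆ f₁ '' sphere 0 1

/-- The map in the half plane coordinate. -/
noncomputable def hp (f : ℂ → ℂ) (w : ℂ) : ℂ := f (Complex.exp (w * Complex.I))

/-- A path from `x` to `y` with image `S`, differentiable and outside of `C` up to countably many
parameters, whose line integrals are bounded by `Φ`. -/
def Pc (C : Set ℂ) (x y : ℂ) (S : Set ℂ) (Φ : (ℂ → ENNReal) → ENNReal) : Prop :=
  ∃ (τ : ℝ → ℂ) (L : ℝ), 0 < L ∧ ContinuousOn τ (Icc 0 L) ∧ τ 0 = x ∧ τ L = y ∧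
    τ '' Icc 0 L = S ∧
    {t : ℝ | t ∈ Icc (0 : ℝ) L ∧ (¬ DifferentiableAt ℝ τ t ∨ τ t ∈ C)}.Countable ∧
    ∀ ρ : ℂ → ENNReal, Measurable ρ →
      ∫⁻ t in Icc (0 : ℝ) L, ρ (τ t) * ‖deriv τ t‖ₑ ≤ Φ ρ

end Pool.Agent.MY018
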