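import Pool.Agent.Lib.MP_018119_an_MY.DefsH

/-!
# MY: density points of the set where the welding has a large derivative
-/

set_option autoImplicit false

open Topology Filter Set Metric MeasureTheory

namespace Pool.Agent.MY018

/-- PROOF. `deriv h x ≥ 0` (monotone), so the set in `hns` is the union over `n` of
`Z ∩ B n`, `B n = {x | DifferentiableAt ℝ h x ∧ 1 / (n + 1) ≤ deriv h x}`, and one of these has positive (outer)
measure. `B = B n` is measurable (`measurableSet_of_differentiableAt`, `measurable_deriv`). Almost every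
point of `B` is a density point of `B`
(`IsUnifLocDoublingMeasure.ae_tendsto_measure_inter_div` or
`Besicovitch.ae_tendsto_measure_inter_div`), so there is such a point `x₀ ∈ Z ∩ B`:
`volume (B ∩ closedBall x₀ ρ) / volume (closedBall x₀ ρ) → 1` as `ρ → 0+`. With `ρ = 2 t` and small `t` the
measure of `closedBall x₀ (2 t) \ B` is at most `t / 2`, hence
`volume (B ∩ Ioo (x₀ + t) (x₀ + 2 t)) ≥ t - t / 2`, similarly on the left. `κ = deriv h x₀ > 0`, and
`h (x₀ + 2 t) - h x₀ ≤ 2 κ (2 t)` for small `t > 0` by differentiability at `x₀`, similarly on the left. -/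
theorem dens_pt {h : ℝ → ℝ} (hm : StrictMono h) {Z : Set ℝ}
    (hns : volume {x : ℝ | x ∈ Z ∧ DifferentiableAt ℝ h x ∧ deriv h x ≠ 0} ≠ 0) :
    ∃ x₀ ∈ Z, ∃ c κ : ℝ, 0 < c ∧ 0 < κ ∧ ∃ B : Set ℝ, MeasurableSet B ∧
      (∀ x ∈ B, HasDerivAt h (deriv h x) x ∧ c ≤ deriv h x) ∧
      ∀ᶠ t in 𝓝[>] (0 : ℝ), ENNReal.ofReal (t / 2) ≤ volume (B ∩ Ioo (x₀ - 2 * t) (x₀ - t)) ∧
        ENNReal.ofReal (t / 2) ≤ volume (B ∩ Ioo (x₀ + t) (x₀ + 2 * t)) ∧
        h (x₀ + 2 * t) ≤ h x₀ + 4 * κ * t ∧ h x₀ - 4 * κ * t ≤ h (x₀ - 2 * t) := by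
  set B : ℕ → Set ℝ := fun n => {x | DifferentiableAt ℝ h x ∧ 1 / ((n : ℝ) + 1) ≤ deriv h x}
    with hB
  have hBm : ∀ n, MeasurableSet (B n) := fun n =>
    (measurableSet_of_differentiableAt ℝ h).inter
      (measurableSet_le measurable_const (measurable_deriv h))
  have hex : ∃ n, volume (Z ∩ B n) ≠ 0 := by
    by_contra hc
    push Not at hc
    apply hns
    refine measure_mono_null ?_ (measure_iUnion_null hc)
    rintro x ⟨hxZ, hxd, hx0⟩
    have h1 : 0 ≤ deriv h x := hm.monotone.deriv_nonneg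
    have h2 : 0 < deriv h x := lt_of_le_of_ne h1 (Ne.symm hx0)
    obtain ⟨n, hn⟩ := exists_nat_one_div_lt h2
    exact mem_iUnion.mpr ⟨n, hxZ, hxd, hn.le⟩
  obtain ⟨n, hn⟩ := hex
  have hae := Besicovitch.ae_tendsto_measure_inter_div (volume : Measure ℝ) (B n)
  rw [ae_restrict_iff' (hBm n)] at hae
  have hpt : ∃ x₀ ∈ Z ∩ B n, Tendsto (fun r => volume (B n ∩ closedBall x₀ r) /
      volume (closedBall x₀ r)) (𝓝[>] 0) (𝓝 1) := by
    by_contra hc
    push Not at hc
    apply hn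
    refine measure_mono_null ?_ hae
    intro x hx h1
    exact hc x hx (h1 hx.2)
  obtain ⟨x₀, ⟨hxZ, hxB⟩, hden⟩ := hpt
  have hc0 : (0 : ℝ) < 1 / ((n : ℝ) + 1) := by positivity
  have hκ : 0 < deriv h x₀ := hc0.trans_le hxB.2
  refine ⟨x₀, hxZ, 1 / ((n : ℝ) + 1), deriv h x₀, hc0, hκ, B n, hBm n,
    fun x hx => ⟨hx.1.hasDerivAt, hx.2⟩, ?_⟩
  -- the derivative
  have hder : ∀ᶠ t in 𝓝[>] (0 : ℝ), h (x₀ + 2 * t) ≤ h x₀ + 4 * deriv h x₀ * t ∧
      h x₀ - 4 * deriv h x₀ * t ≤ h (x₀ - 2 * t) := by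
    have h1 := hasDerivAt_iff_isLittleO_nhds_zero.mp hxB.1.hasDerivAt
    have h2 := h1.def hκ
    obtain ⟨ε, hε, hεh⟩ := Metric.eventually_nhds_iff.mp h2
    have h3 : Ioo (0 : ℝ) (ε / 2) ∈ 𝓝[>] (0 : ℝ) := Ioo_mem_nhdsGT (by linarith)
    filter_upwards [h3] with t ht
    have ht0 := ht.1
    have ht1 := ht.2
    have h4 := @hεh (2 * t) (by
      rw [Real.dist_eq, sub_zero, abs_of_pos (by linarith)]; linarith)
    have h5 := @hεh (-(2 * t)) (by
      rw [Real.dist_eq, sub_zero, abs_neg, abs_of_pos (by linarith)]; linarith)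
    rw [Real.norm_eq_abs, Real.norm_eq_abs, smul_eq_mul,
      abs_of_pos (by linarith : (0 : ℝ) < 2 * t)] at h4
    rw [Real.norm_eq_abs, Real.norm_eq_abs, smul_eq_mul, abs_neg (2 * t),
      abs_of_pos (by linarith : (0 : ℝ) < 2 * t)] at h5
    have h6 := (abs_le.mp h4).2
    have h7 := (abs_le.mp h5).1
    have h8 : x₀ + -(2 * t) = x₀ - 2 * t := by ring
    rw [h8] at h7
    constructor <;> linarith
  -- the density
  have htwo : Tendsto (fun t : ℝ => 2 * t) (𝓝[>] 0) (𝓝[>] 0) := by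
    refine tendsto_nhdsWithin_iff.mpr ⟨?_, ?_⟩
    · have : Tendsto (fun t : ℝ => 2 * t) (𝓝 0) (𝓝 (2 * 0)) :=
        (continuous_const.mul continuous_id).tendsto 0
      rw [mul_zero] at this
      exact this.mono_left nhdsWithin_le_nhds
    · filter_upwards [self_mem_nhdsWithin] with t ht
      have : (0 : ℝ) < t := ht
      show (0 : ℝ) < 2 * t
      linarith
  have hd2 := hden.comp htwo
  have h78 : ENNReal.ofReal (7 / 8) < 1 := by
    rw [← ENNReal.ofReal_one]
    exact (ENNReal.ofReal_lt_ofReal_iff one_pos).mpr (by norm_num)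
  have hd3 := (tendsto_order.mp hd2).1 _ h78
  filter_upwards [hder, hd3, self_mem_nhdsWithin] with t ht1 ht2 ht3
  have ht0 : (0 : ℝ) < t := ht3
  have hcb : volume (closedBall x₀ (2 * t)) = ENNReal.ofReal (4 * t) := by
    rw [Real.volume_closedBall]
    congr 1
    ring
  have ht4 : ENNReal.ofReal (7 / 2 * t) ≤ volume (B n ∩ closedBall x₀ (2 * t)) := by
    have h1 : ENNReal.ofReal (7 / 8) < volume (B n ∩ closedBall x₀ (2 * t)) /
        volume (closedBall x₀ (2 * t)) := ht2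
    rw [hcb] at h1
    have h2 : ENNReal.ofReal (4 * t) ≠ 0 := by
      rw [Ne, ENNReal.ofReal_eq_zero]
      linarith
    have h3 := (ENNReal.le_div_iff_mul_le (Or.inl h2) (Or.inl ENNReal.ofReal_ne_top)).mp h1.le
    rw [← ENNReal.ofReal_mul (by norm_num)] at h3
    refine le_trans (le_of_eq ?_) h3
    congr 1
    ring
  have hdiff : volume (closedBall x₀ (2 * t) \ B n) ≤ ENNReal.ofReal (t / 2) := by
    have h1 := measure_inter_add_diff (μ := volume) (closedBall x₀ (2 * t)) (hBm n)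
    rw [hcb] at h1
    have h2 : ENNReal.ofReal (4 * t) = ENNReal.ofReal (7 / 2 * t) + ENNReal.ofReal (t / 2) := by
      rw [← ENNReal.ofReal_add (by positivity) (by positivity)]
      congr 1
      ring
    rw [h2] at h1
    have h3 : ENNReal.ofReal (7 / 2 * t) + volume (closedBall x₀ (2 * t) \ B n) ≤
        ENNReal.ofReal (7 / 2 * t) + ENNReal.ofReal (t / 2) := by
      rw [← h1]
      rw [inter_comm]
      exact add_le_add ht4 le_rfl
    exact (ENNReal.add_le_add_iff_left ENNReal.ofReal_ne_top).mp h3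
  have hIoo : ∀ p q : ℝ, q - p = t → Ioo p q ⊆ closedBall x₀ (2 * t) →
      ENNReal.ofReal (t / 2) ≤ volume (B n ∩ Ioo p q) := by
    intro p q hpq hsub
    have h1 := measure_inter_add_diff (μ := volume) (Ioo p q) (hBm n)
    rw [Real.volume_Ioo, hpq] at h1
    have h2 : ENNReal.ofReal t = ENNReal.ofReal (t / 2) + ENNReal.ofReal (t / 2) := by
      rw [← ENNReal.ofReal_add (by positivity) (by positivity)]
      congr 1
      ring
    have h3 : volume (Ioo p q \ B n) ≤ ENNReal.ofReal (t / 2) :=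
      (measure_mono (diff_subset_diff_left hsub)).trans hdiff
    have h4 : ENNReal.ofReal (t / 2) + ENNReal.ofReal (t / 2) ≤
        volume (B n ∩ Ioo p q) + ENNReal.ofReal (t / 2) := by
      rw [← h2, ← h1, inter_comm]
      exact add_le_add le_rfl h3
    exact (ENNReal.add_le_add_iff_right ENNReal.ofReal_ne_top).mp h4
  refine ⟨hIoo _ _ (by ring) ?_, hIoo _ _ (by ring) ?_, ht1.1, ht1.2⟩
  · intro x hx
    rw [Real.closedBall_eq_Icc]
    exact ⟨by linarith [hx.1], by linarith [hx.2]⟩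
  · intro x hx
    rw [Real.closedBall_eq_Icc]
    exact ⟨by linarith [hx.1], by linarith [hx.2]⟩

end Pool.Agent.MY018
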