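import Pool.Agent.Lib.MP_018119_an_MY.Defs

/-!
# MY: the diameter of the image of a loop
-/

set_option autoImplicit false

open Topology Filter Set Metric MeasureTheory

namespace Pool.Agent.MY018

private theorem pathD_key {V C : Set ℂ} (hV : IsOpen V) (hC : IsClosed C) {F : ℂ → ℂ}
    (hc : ContinuousOn F V) (hd : DifferentiableOn ℂ F (V \ C)) {σ : ℝ → ℂ} (hσ : Continuous σ)
    (hm : ∀ t ∈ Icc (0 : ℝ) 1, σ t ∈ V)
    (hcnt : {t : ℝ | t ∈ Icc (0 : ℝ) 1 ∧ (¬ DifferentiableAt ℝ σ t ∨ σ t ∈ C)}.Countable)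
    {a b : ℝ} (ha : 0 ≤ a) (hab : a ≤ b) (hb : b ≤ 1) :
    ENNReal.ofReal (dist (F (σ a)) (F (σ b))) ≤
      ∫⁻ t in Icc (0 : ℝ) 1, (V \ C).indicator (fun z => ‖deriv F z‖ₑ) (σ t) * ‖deriv σ t‖ₑ := by
  obtain ⟨f', hf'⟩ : ∃ f' : ℝ → ℂ, f' = fun t => deriv F (σ t) * deriv σ t := ⟨_, rfl⟩
  have hmeas : Measurable f' := by
    rw [hf']
    exact ((measurable_deriv F).comp hσ.measurable).mul (measurable_deriv σ)
  have hRHS : ∫⁻ t in Icc (0 : ℝ) 1, (V \ C).indicator (fun z => ‖deriv F z‖ₑ) (σ t) *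
      ‖deriv σ t‖ₑ = ∫⁻ t in Icc (0 : ℝ) 1, ‖f' t‖ₑ := by
    apply lintegral_congr_ae
    have h1 : ∀ᵐ t ∂(volume.restrict (Icc (0 : ℝ) 1)), t ∈ Icc (0 : ℝ) 1 :=
      ae_restrict_mem measurableSet_Icc
    have h2 : ∀ᵐ t ∂(volume.restrict (Icc (0 : ℝ) 1)),
        t ∉ {t : ℝ | t ∈ Icc (0 : ℝ) 1 ∧ (¬ DifferentiableAt ℝ σ t ∨ σ t ∈ C)} :=
      hcnt.ae_notMem _
    filter_upwards [h1, h2] with t ht1 ht2
    have h3 : σ t ∈ V \ C := by
      refine ⟨hm t ht1, fun h => ht2 ⟨ht1, Or.inr h⟩⟩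
    rw [indicator_of_mem h3, hf']
    show ‖deriv F (σ t)‖ₑ * ‖deriv σ t‖ₑ = ‖deriv F (σ t) * deriv σ t‖ₑ
    rw [enorm_mul]
  rw [hRHS]
  by_cases hfin : ∫⁻ t in Icc (0 : ℝ) 1, ‖f' t‖ₑ = ⊤
  · rw [hfin]
    exact le_top
  have hint : IntegrableOn f' (Icc 0 1) volume :=
    ⟨hmeas.aestronglyMeasurable, lt_of_le_of_ne le_top hfin⟩
  have hsub : Icc a b ⊆ Icc (0 : ℝ) 1 := Icc_subset_Icc ha hb
  have hii : IntervalIntegrable f' volume a b := by
    rw [intervalIntegrable_iff_integrableOn_Icc_of_le hab]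
    exact hint.mono_set hsub
  have hkey : ∫ t in a..b, f' t = F (σ b) - F (σ a) := by
    refine integral_eq_of_hasDerivAt_off_countable_of_le (fun t => F (σ t)) f' hab hcnt ?_ ?_ hii
    · exact hc.comp hσ.continuousOn fun t ht => hm t (hsub ht)
    · intro t ht
      have ht1 : t ∈ Icc (0 : ℝ) 1 := hsub (Ioo_subset_Icc_self ht.1)
      have ht2 : DifferentiableAt ℝ σ t ∧ σ t ∉ C := by
        constructor
        · by_contra h
          exact ht.2 ⟨ht1, Or.inl h⟩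
        · exact fun h => ht.2 ⟨ht1, Or.inr h⟩
      have h3 : DifferentiableAt ℂ F (σ t) :=
        hd.differentiableAt ((hV.sdiff hC).mem_nhds ⟨hm t ht1, ht2.2⟩)
      rw [hf']
      exact h3.hasDerivAt.comp t ht2.1.hasDerivAt
  have h1 : ENNReal.ofReal (dist (F (σ a)) (F (σ b))) = ‖∫ t in a..b, f' t‖ₑ := by
    rw [hkey, dist_comm, dist_eq_norm, ofReal_norm]
  rw [h1, intervalIntegral.integral_of_le hab]
  refine (enorm_integral_le_lintegral_enorm _).trans ?_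
  exact lintegral_mono_set (Ioc_subset_Icc_self.trans hsub)

/-- PROOF. Let `x = σ a`, `y = σ b`, `a ≤ b` (symmetric otherwise). `g = F ∘ σ` is continuous on
`[0, 1]`. Off a countable set `Z` of parameters in `Ioo 0 1`, `σ` is differentiable at `t` and
`σ t ∈ V \ C` (open), so `g` has the derivative `deriv F (σ t) * deriv σ t` at `t`
(`HasDerivAt.comp` / `HasDerivAt.scomp`; `F` is complex differentiable at `σ t`). If the integral on
the right hand side is infinite there is nothing to prove. Otherwise the function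
`t ↦ deriv F (σ t) * deriv σ t` is integrable on `[0, 1]` (measurable: `measurable_deriv`,
`σ` is continuous; its norm agrees with the integrand off the countable set), and
`integral_eq_of_hasDerivAt_off_countable` gives `g b - g a = ∫ t in a..b, deriv F (σ t) * deriv σ t`,
whose norm is at most the integral of the norm over `[0, 1]`
(`ofReal_integral_norm_eq_lintegral_enorm` or similar). -/
theorem path_dist {V C : Set ℂ} (hV : IsOpen V) (hC : IsClosed C) {F : ℂ → ℂ}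
    (hc : ContinuousOn F V) (hd : DifferentiableOn ℂ F (V \ C)) {σ : ℝ → ℂ} (hσ : Continuous σ)
    (hm : ∀ t ∈ Icc (0 : ℝ) 1, σ t ∈ V)
    (hcnt : {t : ℝ | t ∈ Icc (0 : ℝ) 1 ∧ (¬ DifferentiableAt ℝ σ t ∨ σ t ∈ C)}.Countable)
    {x y : ℂ} (hx : x ∈ σ '' Icc 0 1) (hy : y ∈ σ '' Icc 0 1) :
    ENNReal.ofReal (dist (F x) (F y)) ≤
      ∫⁻ t in Icc (0 : ℝ) 1, (V \ C).indicator (fun z => ‖deriv F z‖ₑ) (σ t) * ‖deriv σ t‖ₑ := by
  obtain ⟨a, ha, rfl⟩ := hx
  obtain ⟨b, hb, rfl⟩ := hy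
  rcases le_total a b with h | h
  · exact pathD_key hV hC hc hd hσ hm hcnt ha.1 h hb.2
  · rw [dist_comm]
    exact pathD_key hV hC hc hd hσ hm hcnt hb.1 h ha.2

end Pool.Agent.MY018
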