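import Pool.Agent.Lib.MP_018119_an_MY.LoopLim
import Pool.Agent.Lib.MP_018119_an_MY.PathD
import Pool.Agent.Lib.MP_018119_an_MY.AreaD

/-!
# MY: points surrounded by loops of infinite modulus
-/

set_option autoImplicit false

open Topology Filter Set Metric MeasureTheory

namespace Pool.Agent.MY018

/-- In every neighbourhood of `p` the loops around `p` with countable intersection with `C` have
infinite modulus. -/
def InfPt (C : Set ℂ) (p : ℂ) : Prop :=
  ∀ r > 0, ∀ ρ : ℂ → ENNReal, Measurable ρ →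
    (∀ σ : ℝ → ℂ, CLoop C p (ball p r) σ → 1 ≤ ∫⁻ t in Icc (0 : ℝ) 1, ρ (σ t) * ‖deriv σ t‖ₑ) →
    ∫⁻ z in ball p r, ρ z ^ 2 = ⊤

/-- The length-area argument (after LoopR.lean). -/
theorem rpt_of_infPt {C : Set ℂ} (hC : IsClosed C) {p : ℂ} (h : InfPt C p) : RPt C p := by
  classical
  intro F δ hδ hFc hFi hFo hFd hFb
  apply loop_lim hδ hFc hFi hFo hFb
  intro r hr η hη
  by_contra hcon
  have hV : IsOpen (ball p δ \ {p}) := isOpen_ball.sdiff isClosed_singleton
  have hW : IsOpen ((ball p δ \ {p}) \ C) := hV.sdiff hC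
  have hη0 : ENNReal.ofReal η ≠ 0 := by
    rw [Ne, ENNReal.ofReal_eq_zero, not_le]
    exact hη
  have hηt : ENNReal.ofReal η ≠ ⊤ := ENNReal.ofReal_ne_top
  have hinv : (ENNReal.ofReal η)⁻¹ ≠ ⊤ := ENNReal.inv_ne_top.2 hη0
  set ind : ℂ → ENNReal := ((ball p δ \ {p}) \ C).indicator (fun z => ‖deriv F z‖ₑ) with hind
  have hindm : Measurable ind := (measurable_deriv F).enorm.indicator hW.measurableSet
  have hρ : Measurable fun z => (ENNReal.ofReal η)⁻¹ * ind z := hindm.const_mul _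
  have hkey : ∫⁻ z in ball p (min r δ), ((ENNReal.ofReal η)⁻¹ * ind z) ^ 2 = ⊤ := by
    apply h _ (lt_min hr hδ) _ hρ
    intro σ hσ
    have hball : ∀ t ∈ Icc (0 : ℝ) 1, σ t ∈ ball p (min r δ) := hσ.mem
    have hex : ∃ x ∈ σ '' Icc 0 1, ∃ y ∈ σ '' Icc 0 1, η < dist (F x) (F y) := by
      by_contra hc
      push Not at hc
      refine hcon ⟨σ '' Icc 0 1, isCompact_Icc.image hσ.cont,
        ⟨σ 0, 0, left_mem_Icc.2 zero_le_one, rfl⟩, ?_, ?_, hσ.sur, hc⟩
      · rintro _ ⟨t, ht, rfl⟩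
        exact ball_subset_ball (min_le_left _ _) (hball t ht)
      · rintro ⟨t, ht, he⟩
        exact hσ.ne t ht he
    obtain ⟨x, hx, y, hy, hxy⟩ := hex
    have h1 := path_dist hV hC hFc hFd hσ.cont (fun t ht =>
      ⟨ball_subset_ball (min_le_right _ _) (hball t ht), hσ.ne t ht⟩) hσ.diff hx hy
    have h2 := (ENNReal.ofReal_le_ofReal hxy.le).trans h1
    have h3 : ∫⁻ t in Icc (0 : ℝ) 1, (ENNReal.ofReal η)⁻¹ * ind (σ t) * ‖deriv σ t‖ₑ =
        (ENNReal.ofReal η)⁻¹ * ∫⁻ t in Icc (0 : ℝ) 1, ind (σ t) * ‖deriv σ t‖ₑ := by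
      rw [← lintegral_const_mul' _ _ hinv]
      refine lintegral_congr fun t => ?_
      rw [mul_assoc]
    rw [h3]
    calc (1 : ENNReal) = (ENNReal.ofReal η)⁻¹ * ENNReal.ofReal η :=
          (ENNReal.inv_mul_cancel hη0 hηt).symm
      _ ≤ (ENNReal.ofReal η)⁻¹ * ∫⁻ t in Icc (0 : ℝ) 1, ind (σ t) * ‖deriv σ t‖ₑ :=
          mul_le_mul_right h2 _
  have htot : ∫⁻ z, ((ENNReal.ofReal η)⁻¹ * ind z) ^ 2 < ⊤ := by
    have h1 : ∀ z, ((ENNReal.ofReal η)⁻¹ * ind z) ^ 2 = (ENNReal.ofReal η)⁻¹ ^ 2 *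
        ((ball p δ \ {p}) \ C).indicator (fun z => 1 * ‖deriv F z‖ₑ ^ 2) z := by
      intro z
      rw [mul_pow]
      congr 1
      by_cases hz : z ∈ (ball p δ \ {p}) \ C
      · rw [hind, indicator_of_mem hz, indicator_of_mem hz, one_mul]
      · rw [hind, indicator_of_notMem hz, indicator_of_notMem hz]
        simp
    have hp : (ENNReal.ofReal η)⁻¹ ^ 2 ≠ ⊤ := ENNReal.pow_ne_top hinv
    rw [lintegral_congr h1, lintegral_const_mul' _ _ hp, lintegral_indicator hW.measurableSet]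
    have h2 := lintegral_holo hW.measurableSet
      (fun z hz => (hFd z hz).differentiableAt (hW.mem_nhds hz)) (hFi.mono sdiff_subset)
      (fun _ => 1)
    rw [← h2]
    refine ENNReal.mul_lt_top hp.lt_top ?_
    rw [setLIntegral_one]
    exact (hFb.subset (image_mono sdiff_subset)).measure_lt_top
  exact htot.ne (top_le_iff.1 (hkey.symm.le.trans (setLIntegral_le_lintegral _ _)))

/-- Disjoint families with divergent total modulus have infinite modulus together. -/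
theorem infPt_of_loopPt {C : Set ℂ} {p : ℂ} (h : LoopPt C p) : InfPt C p := by
  obtain ⟨A, m, hAm, hAd, hAs, hm0, hms, hmod⟩ := h
  intro r hr ρ hρ hadm
  by_contra hfin
  apply hms
  obtain ⟨k0, hk0⟩ := eventually_atTop.1 (hAs r hr)
  have hkey : ∀ k, k0 ≤ k → ENNReal.ofReal (m k) ≤ ∫⁻ z in A k, ρ z ^ 2 := by
    intro k hk
    apply hmod k _ hρ
    intro σ hσ
    exact hadm σ ⟨hσ.cont, hσ.closed, fun t ht => hk0 k hk (hσ.mem t ht), hσ.diff, hσ.ne, hσ.sur⟩
  have hsum : ∑' k, ENNReal.ofReal (m (k + k0)) ≠ ⊤ := by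
    refine ne_top_of_le_ne_top hfin ?_
    calc ∑' k, ENNReal.ofReal (m (k + k0))
        ≤ ∑' k, ∫⁻ z in A (k + k0), ρ z ^ 2 :=
          ENNReal.tsum_le_tsum fun k => hkey (k + k0) (by omega)
      _ = ∫⁻ z in ⋃ k, A (k + k0), ρ z ^ 2 := by
          rw [lintegral_iUnion (fun k => hAm (k + k0))]
          intro i j hij
          exact hAd (fun h => hij (by omega))
      _ ≤ ∫⁻ z in ball p r, ρ z ^ 2 :=
          lintegral_mono_set (iUnion_subset fun k => hk0 _ (by omega))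
  have hs := ENNReal.summable_toReal hsum
  have hs2 : Summable fun k => m (k + k0) := by
    refine hs.congr fun k => ?_
    rw [ENNReal.toReal_ofReal (hm0 _)]
  exact (summable_nat_add_iff k0).1 hs2

end Pool.Agent.MY018
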