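import Pool.Agent.Lib.MP_018119_an_MX.GateSt
import Pool.Agent.Lib.MP_018119_an_MX.GateL

/-!
# MY: opening one gate, with the factorization of the new map (after MX/StepL.lean)
-/

set_option autoImplicit false

open Topology Filter Set Metric

namespace Pool.Agent.MX018

private theorem StepLoc_cocompact {F : ℂ → ℂ}
    (h : Tendsto (fun z => F z - z) (cocompact ℂ) (𝓝 0)) :
    Tendsto F (cocompact ℂ) (cocompact ℂ) := by
  rw [← Metric.cobounded_eq_cocompact] at h ⊢
  rw [← tendsto_norm_atTop_iff_cobounded]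
  have h1 : ∀ᶠ z in Bornology.cobounded ℂ, ‖z‖ - 1 ≤ ‖F z‖ := by
    have h2 : ∀ᶠ z in Bornology.cobounded ℂ, ‖F z - z‖ < 1 := by
      have h3 := h.norm
      rw [norm_zero] at h3
      exact h3.eventually (gt_mem_nhds zero_lt_one)
    filter_upwards [h2] with z hz
    have h3 : ‖z‖ ≤ ‖F z‖ + ‖F z - z‖ := by
      have h4 := norm_sub_le (F z) (F z - z)
      rwa [sub_sub_cancel] at h4
    linarith
  refine tendsto_atTop_mono' _ h1 ?_
  exact tendsto_atTop_add_const_right _ (-1 : ℝ) tendsto_norm_cobounded_atTop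

/-- Opening one gate; the new map is `Φ ∘ F`, with `Φ` analytic off the image of the gate. -/
theorem step_loc {F : ℂ → ℂ} {E K G : Set ℂ} {p q : ℂ} (hS : St F E K) (hG : GG E K G p q) :
    ∃ Φ : ℂ → ℂ, St (Φ ∘ F) (E ∪ {p, q}) (K \ G) ∧
      (∀ z ∉ E ∪ {p, q}, z ∉ G → AnalyticAt ℂ Φ (F z)) ∧
      ∀ (c : ℂ) (ρ : ℝ), F '' (G ∪ {p, q}) ⊆ closedBall c ρ →
        ∀ z ∉ E ∪ {p, q}, ‖(Φ ∘ F) z - F z‖ ≤ 10 * ρ := by
  obtain ⟨ψ, hψ, hg⟩ := gate_of_st hS hG
  obtain ⟨Φ, hΦ⟩ := gate_map hg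
  have hinj := hS.injOn
  have hdis : ∀ z ∈ G ∪ {p, q}, z ∉ E := fun z hz hzE =>
    Set.disjoint_left.1 hG.dis hz hzE
  have hpE : p ∉ E := hdis p (Or.inr (Or.inl rfl))
  have hqE : q ∉ E := hdis q (Or.inr (Or.inr rfl))
  have hne : ∀ z ∉ E ∪ {p, q}, F z ≠ F p ∧ F z ≠ F q := by
    intro z hz
    have hzE : z ∉ E := fun h => hz (Or.inl h)
    refine ⟨fun h => hz (Or.inr (Or.inl (hinj hzE hpE h))), fun h => hz (Or.inr (Or.inr ?_))⟩
    exact hinj hzE hqE h
  have hsubE : ∀ z ∉ E ∪ {p, q}, z ∉ E := fun z hz h => hz (Or.inl h)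
  have hmap : ∀ z ∉ E ∪ {p, q}, F z ∈ ({F p, F q}ᶜ : Set ℂ) := by
    intro z hz h
    rcases h with h | h
    · exact (hne z hz).1 h
    · exact (hne z hz).2 h
  have hEcl : IsClosed E := hS.fin.isClosed
  refine ⟨Φ, ⟨?_, ?_, ?_, ?_, ?_, ?_, ?_, ?_⟩, ?_, ?_⟩
  · exact hS.fin.union (Set.toFinite _)
  · rintro z (hz | rfl | hz)
    · exact ⟨hS.sub hz, fun h => hdis z (Or.inl h) hz⟩
    · exact ⟨hG.pK, hG.pG⟩
    · rw [Set.mem_singleton_iff] at hz
      rw [hz]
      exact ⟨hG.qK, hG.qG⟩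
  · exact hS.cpt.of_isClosed_subset hG.cl sdiff_subset
  · exact hΦ.cont.comp (hS.cont.mono fun z hz => hsubE z hz) fun z hz => hmap z hz
  · intro U hU hUo
    rw [Set.image_comp]
    refine hΦ.opn _ ?_ (hS.opn U (fun z hz => hsubE z (hU hz)) hUo)
    rintro _ ⟨z, hz, rfl⟩
    exact hmap z (hU hz)
  · intro η hη
    obtain ⟨δ, hδ, h1⟩ := hS.sep η hη
    obtain ⟨δ', hδ', h2⟩ := hΦ.sep δ hδ
    refine ⟨δ', hδ', fun x hx y hy hxy => ?_⟩
    exact h2 _ (hmap x hx) _ (hmap y hy) (h1 x (hsubE x hx) y (hsubE y hy) hxy)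
  · intro z hz
    refine DifferentiableAt.differentiableWithinAt ?_
    by_cases hzK : z ∈ K
    · have hzG : z ∈ G := by
        by_contra h
        exact hz ⟨hzK, h⟩
      have hzE : z ∉ E := hdis z (Or.inl hzG)
      have hz2 : z ∉ E ∪ {p, q} := by
        rintro (h | rfl | h)
        · exact hzE h
        · exact hG.pG hzG
        · rw [Set.mem_singleton_iff] at h
          rw [h] at hzG
          exact hG.qG hzG
      obtain ⟨g, hg1, hg2⟩ := (hΦ.hol (F z) (hne z hz2).1 (hne z hz2).2).2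
        ⟨z, Or.inl hzG, rfl⟩
      rw [hψ z hz] at hg1
      have hc : ContinuousAt F z := hS.cont.continuousAt (hEcl.isOpen_compl.mem_nhds hzE)
      have h1 : ∀ᶠ x in 𝓝 z, Φ (F x) = g (ψ (F x)) := hc.eventually hg2
      have h2 : ∀ᶠ x in 𝓝 z, x ∈ (K \ G)ᶜ := hG.cl.isOpen_compl.mem_nhds hz
      have h3 : (Φ ∘ F) =ᶠ[𝓝 z] g := by
        filter_upwards [h1, h2] with x hx1 hx2
        rw [Function.comp_apply, hx1, hψ x hx2]
      exact hg1.differentiableAt.congr_of_eventuallyEq h3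
    · have hzE : z ∉ E := fun h => hzK (hS.sub h)
      have hz2 : z ∉ E ∪ {p, q} := by
        rintro (h | rfl | h)
        · exact hzE h
        · exact hzK hG.pK
        · rw [Set.mem_singleton_iff] at h
          rw [h] at hzK
          exact hzK hG.qK
      have hJ : F z ∉ F '' (G ∪ {p, q}) := by
        rintro ⟨y, hy, hyz⟩
        have h1 : y = z := hinj (hdis y hy) hzE hyz
        rw [← h1] at hzK
        apply hzK
        rcases hy with h | h | h
        · exact hG.sub h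
        · rw [h]
          exact hG.pK
        · rw [Set.mem_singleton_iff] at h
          rw [h]
          exact hG.qK
      have h1 := (hΦ.hol (F z) (hne z hz2).1 (hne z hz2).2).1 hJ
      have h2 : DifferentiableAt ℂ F z :=
        hS.hol.differentiableAt (hS.cpt.isClosed.isOpen_compl.mem_nhds hzK)
      exact h1.differentiableAt.comp z h2
  · have h1 := hΦ.inf.comp (StepLoc_cocompact hS.inf)
    have h2 := h1.add hS.inf
    rw [add_zero] at h2
    refine h2.congr fun z => ?_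
    rw [Function.comp_apply, Function.comp_apply]
    ring
  · intro z hz hzG
    have hJ : F z ∉ F '' (G ∪ {p, q}) := by
      rintro ⟨y, hy, hyz⟩
      have h1 : y = z := hinj (hdis y hy) (hsubE z hz) hyz
      rw [h1] at hy
      rcases hy with h | h
      · exact hzG h
      · exact hz (Or.inr h)
    exact (hΦ.hol (F z) (hne z hz).1 (hne z hz).2).1 hJ
  · intro c ρ hcρ z hz
    exact hΦ.bd c ρ hcρ (F z) (hne z hz).1 (hne z hz).2

end Pool.Agent.MX018
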