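import Pool.Agent.Lib.MP_018119_an_MY.MainR
import Pool.Agent.Lib.MP_018119_an_MY.StepLoc
import Pool.Agent.Lib.MP_018119_an_MX.ArcA

/-!
# MY: local version: good points near a point where the map is not holomorphic
-/

set_option autoImplicit false

open Topology Filter Set Metric MeasureTheory

namespace Pool.Agent.MY018

open Pool.Agent.MX018

private theorem Loc_cont {F : ℂ → ℂ} {E K : Set ℂ} (hS : St F E K) {p : ℂ} (hp : p ∉ E) :
    ContinuousAt F p :=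
  hS.cont.continuousAt (hS.fin.isClosed.isOpen_compl.mem_nhds hp)

private theorem Loc_ev {T : Set ℂ} (hT : T.Finite) (z : ℂ) : ∀ᶠ x in 𝓝[≠] z, x ∉ T := by
  have h1 : (T \ {z}).Finite := hT.subset sdiff_subset
  have h2 : ∀ᶠ x in 𝓝 z, x ∈ (T \ {z})ᶜ :=
    h1.isClosed.isOpen_compl.mem_nhds (fun h => h.2 rfl)
  have h3 : ∀ᶠ x in 𝓝[≠] z, x ∈ (T \ {z})ᶜ := nhdsWithin_le_nhds h2
  filter_upwards [h3, self_mem_nhdsWithin] with x hx hxz hxT
  exact hx ⟨hxT, hxz⟩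

private theorem Loc_lim {C : Set ℂ} {F F' : ℂ → ℂ} {E E' K K' : Set ℂ} {p : ℂ}
    (hR : RPt C p) (hS : St F E K) (hS' : St F' E' K') (hp : p ∉ E) (hKC : K' ⊆ C) (B : ℝ)
    (hbd : ∀ z ∉ E', ‖F' z - F z‖ ≤ B) : ∃ L, Tendsto F' (𝓝[≠] p) (𝓝 L) := by
  have h1 : (E' \ {p}).Finite := hS'.fin.subset sdiff_subset
  have h2 : (E' \ {p})ᶜ ∈ 𝓝 p := h1.isClosed.isOpen_compl.mem_nhds (fun h => h.2 rfl)
  obtain ⟨δ₁, hδ₁, hb₁⟩ := Metric.mem_nhds_iff.1 h2
  obtain ⟨δ₂, hδ₂, hb₂⟩ := Metric.continuousAt_iff.1 (Loc_cont hS hp) 1 one_pos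
  have hE' : ∀ z ∈ ball p (min δ₁ δ₂) \ {p}, z ∉ E' := by
    rintro z ⟨hz, hzp⟩ hzE
    exact hb₁ (ball_subset_ball (min_le_left _ _) hz) ⟨hzE, hzp⟩
  refine hR F' (min δ₁ δ₂) (lt_min hδ₁ hδ₂) (hS'.cont.mono fun z hz => hE' z hz)
    (hS'.injOn.mono fun z hz => hE' z hz) (fun U hU => hS'.opn U fun z hz => hE' z (hU hz))
    (hS'.hol.mono fun z hz hzK => hz.2 (hKC hzK)) ?_
  refine (isBounded_closedBall (x := F p) (r := B + 1)).subset ?_
  rintro _ ⟨z, hz, rfl⟩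
  rw [mem_closedBall]
  have h3 := hbd z (hE' z hz)
  have h4 : dist (F z) (F p) < 1 := by
    refine hb₂ ?_
    exact lt_of_lt_of_le (mem_ball.1 hz.1) (min_le_right _ _)
  calc dist (F' z) (F p) ≤ dist (F' z) (F z) + dist (F z) (F p) := dist_triangle _ _ _
    _ ≤ B + 1 := by
      rw [dist_eq_norm]
      linarith

/-- A state without exceptional points is a homeomorphism. -/
theorem st_homeo {F : ℂ → ℂ} {K : Set ℂ} (h : St F ∅ K) : ∃ G : ℂ ≃ₜ ℂ, ∀ z, G z = F z := by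
  have hc : Continuous F := by
    rw [← continuousOn_univ, ← compl_empty]
    exact h.cont
  have hi : Function.Injective F := by
    intro x y hxy
    exact h.injOn (notMem_empty x) (notMem_empty y) hxy
  have ho : IsOpenMap F := fun U hU => h.opn U (by simp) hU
  refine ⟨Equiv.toHomeomorphOfContinuousOpen (Equiv.ofBijective F ⟨hi, st_surj h⟩) hc ho,
    fun z => rfl⟩

/-- The outer gate: everything except the arc between `s` and `t`. -/
theorem gg_out {γ : ℝ → ℂ} (hγ : Crv γ) {s t : ℝ} (hs : 0 < s) (hst : s < t) (ht : t < 1) :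
    GG ∅ (γ '' Icc 0 1) (γ '' (Icc 0 1 \ Icc s t)) (γ s) (γ t) ∧
      γ '' Icc 0 1 \ γ '' (Icc 0 1 \ Icc s t) = γ '' Icc s t ∧
      γ '' (Icc 0 1 \ Icc s t) ∪ {γ s, γ t} = γ '' Icc 0 s ∪ γ '' Icc t 1 := by
  have hs1 : s ∈ Ioo (0 : ℝ) 1 := ⟨hs, hst.trans ht⟩
  have ht1 : t ∈ Ioo (0 : ℝ) 1 := ⟨hs.trans hst, ht⟩
  have hsub : Icc s t ⊆ Ioo (0 : ℝ) 1 := fun x hx => ⟨hs.trans_le hx.1, hx.2.trans_lt ht⟩
  have hdiff : γ '' Icc 0 1 \ γ '' (Icc 0 1 \ Icc s t) = γ '' Icc s t := by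
    ext z
    constructor
    · rintro ⟨⟨x, hx, rfl⟩, h⟩
      refine ⟨x, ?_, rfl⟩
      by_contra h2
      exact h ⟨x, ⟨hx, h2⟩, rfl⟩
    · rintro ⟨x, hx, rfl⟩
      refine ⟨⟨x, Ioo_subset_Icc_self (hsub hx), rfl⟩, ?_⟩
      rintro ⟨y, ⟨hy, hy2⟩, hxy⟩
      have := crv_inj hγ (hsub hx) hy hxy.symm
      rw [← this] at hy2
      exact hy2 hx
  have hun : γ '' (Icc 0 1 \ Icc s t) ∪ {γ s, γ t} = γ '' Icc 0 s ∪ γ '' Icc t 1 := by
    rw [← image_pair, ← image_union, ← image_union]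
    congr 1
    ext x
    simp only [mem_union, Set.mem_sdiff, mem_Icc, mem_insert_iff, mem_singleton_iff, not_and, not_le]
    constructor
    · rintro (⟨⟨h1, h2⟩, h3⟩ | rfl | rfl)
      · by_cases h4 : s ≤ x
        · exact Or.inr ⟨(h3 h4).le, h2⟩
        · exact Or.inl ⟨h1, (not_le.1 h4).le⟩
      · exact Or.inl ⟨hs.le, le_rfl⟩
      · exact Or.inr ⟨le_rfl, ht.le⟩
    · rintro (⟨h1, h2⟩ | ⟨h1, h2⟩)
      · rcases h2.lt_or_eq with h3 | h3
        · exact Or.inl ⟨⟨h1, h2.trans (hst.trans ht).le⟩, fun h4 => absurd h4 (not_le.2 h3)⟩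
        · exact Or.inr (Or.inl h3)
      · rcases h1.lt_or_eq with h3 | h3
        · exact Or.inl ⟨⟨(hs.trans hst).le.trans h1, h2⟩, fun _ => h3⟩
        · exact Or.inr (Or.inr h3.symm)
  have hi1 : InjOn γ (Icc 0 s) := hγ.inj.mono fun x (hx : x ∈ Icc 0 s) =>
    (⟨hx.1, hx.2.trans_lt hs1.2⟩ : x ∈ Ico (0 : ℝ) 1)
  have hi2 : InjOn γ (Icc t 1) := by
    intro x hx y hy hxy
    rcases hx.2.lt_or_eq with h1 | h1
    · exact crv_inj hγ ⟨ht1.1.trans_le hx.1, h1⟩ ⟨ht1.1.le.trans hy.1, hy.2⟩ hxy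
    · rcases hy.2.lt_or_eq with h2 | h2
      · exact (crv_inj hγ ⟨ht1.1.trans_le hy.1, h2⟩ ⟨ht1.1.le.trans hx.1, hx.2⟩ hxy.symm).symm
      · rw [h1, h2]
  have hc1 : ContinuousOn γ (Icc 0 s) := hγ.cont.mono (Icc_subset_Icc_right hs1.2.le)
  have hc2 : ContinuousOn γ (Icc t 1) := hγ.cont.mono (Icc_subset_Icc_left ht1.1.le)
  have hcp1 : IsCompact (γ '' Icc 0 s) := isCompact_Icc.image_of_continuousOn hc1
  have hcp2 : IsCompact (γ '' Icc t 1) := isCompact_Icc.image_of_continuousOn hc2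
  refine ⟨⟨?_, ⟨s, Ioo_subset_Icc_self hs1, rfl⟩, ⟨t, Ioo_subset_Icc_self ht1, rfl⟩, ?_, ?_,
    image_mono sdiff_subset, Set.disjoint_empty _, ?_, ?_, ?_⟩, hdiff, hun⟩
  · intro h
    exact hst.ne (crv_inj hγ hs1 (Ioo_subset_Icc_self ht1) h)
  · rintro ⟨y, ⟨hy, hy2⟩, hxy⟩
    have := crv_inj hγ hs1 hy hxy.symm
    rw [← this] at hy2
    exact hy2 ⟨le_rfl, hst.le⟩
  · rintro ⟨y, ⟨hy, hy2⟩, hxy⟩
    have := crv_inj hγ ht1 hy hxy.symm
    rw [← this] at hy2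
    exact hy2 ⟨hst.le, le_rfl⟩
  · rw [hun]
    exact hcp1.union hcp2
  · rw [hdiff]
    exact (isCompact_Icc.image_of_continuousOn
      (hγ.cont.mono (hsub.trans Ioo_subset_Icc_self))).isClosed
  · rw [hun, interior_union_isClosed_of_interior_empty hcp1.isClosed (interior_arc hc2 hi2)]
    exact interior_arc hc1 hi1

/-- Opening the outer gate. -/
theorem gate_out {γ : ℝ → ℂ} (hγ : Crv γ) {F : ℂ → ℂ} (hS : St F ∅ (γ '' Icc 0 1)) {s t : ℝ}
    (hs : 0 < s) (hst : s < t) (ht : t < 1) (h1 : RPt (γ '' Icc 0 1) (γ s))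
    (h2 : RPt (γ '' Icc 0 1) (γ t)) :
    ∃ F' Φ : ℂ → ℂ, St F' ∅ (γ '' Icc s t) ∧ (∀ z ∉ ({γ s, γ t} : Set ℂ), F' z = Φ (F z)) ∧
      ∀ z ∈ γ '' Ioo s t, AnalyticAt ℂ Φ (F z) := by
  obtain ⟨hG, hdiff, hun⟩ := gg_out hγ hs hst ht
  obtain ⟨Φ, hF', han, hbd⟩ := step_loc hS hG
  rw [hdiff] at hF'
  have hb : ∃ B : ℝ, ∀ z ∉ (∅ : Set ℂ) ∪ {γ s, γ t}, ‖(Φ ∘ F) z - F z‖ ≤ B := by
    have h3 : IsCompact (F '' (γ '' (Icc 0 1 \ Icc s t) ∪ {γ s, γ t})) :=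
      hG.cpt.image_of_continuousOn (hS.cont.mono fun z _ => notMem_empty z)
    obtain ⟨ρ, hρ⟩ := h3.isBounded.subset_closedBall 0
    exact ⟨10 * ρ, hbd 0 ρ hρ⟩
  obtain ⟨B, hB⟩ := hb
  have hsub : γ '' Icc s t ⊆ γ '' Icc 0 1 := image_mono (Icc_subset_Icc hs.le ht.le)
  obtain ⟨L₁, hL₁⟩ := Loc_lim h1 hS hF' (notMem_empty _) hsub B hB
  obtain ⟨L₂, hL₂⟩ := Loc_lim h2 hS hF' (notMem_empty _) hsub B hB
  have hE2 : (∅ : Set ℂ) ∪ {γ s, γ t} = insert (γ t) (insert (γ s) (∅ : Set ℂ)) := by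
    ext z
    simp only [Set.mem_union, Set.mem_insert_iff, Set.mem_singleton_iff, mem_empty_iff_false,
      false_or, or_false]
    tauto
  rw [hE2] at hF'
  have hq1 : γ t ∉ insert (γ s) (∅ : Set ℂ) := by
    rintro (h | h)
    · exact hG.ne h.symm
    · exact h
  have hF2 := st_fill hF' hq1 hL₂
  have hL1' : Tendsto (Function.update (Φ ∘ F) (γ t) L₂) (𝓝[≠] (γ s)) (𝓝 L₁) := by
    refine hL₁.congr' ?_
    have h3 : ∀ᶠ x in 𝓝[≠] (γ s), x ∉ ({γ t} : Set ℂ) := Loc_ev (Set.finite_singleton _) _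
    filter_upwards [h3] with x hx
    rw [Function.update_of_ne hx]
  have hF3 := st_fill hF2 (notMem_empty _) hL1'
  refine ⟨_, Φ, hF3, ?_, ?_⟩
  · intro z hz
    have hz1 : z ≠ γ s := fun h => hz (Or.inl h)
    have hz2 : z ≠ γ t := fun h => hz (Or.inr h)
    rw [Function.update_of_ne hz1, Function.update_of_ne hz2]
    rfl
  · rintro z ⟨x, hx, rfl⟩
    have hx1 : x ∈ Ioo (0 : ℝ) 1 := ⟨hs.trans hx.1, hx.2.trans ht⟩
    refine han _ ?_ ?_
    · rintro (h | h | h)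
      · exact h
      · exact hx.1.ne (crv_inj hγ hx1 ⟨hs.le, (hst.trans ht).le⟩ h).symm
      · exact hx.2.ne (crv_inj hγ hx1 ⟨(hs.trans hst).le, ht.le⟩ h)
    · rintro ⟨y, ⟨hy, hy2⟩, hxy⟩
      have := crv_inj hγ hx1 hy hxy.symm
      rw [← this] at hy2
      exact hy2 ⟨hx.1.le, hx.2.le⟩

/-- A singular point in the interior of the parameter interval. -/
theorem sing_pt {γ : ℝ → ℂ} {f : ℂ → ℂ} (hfc : Continuous f)
    (hf : DifferentiableOn ℂ f (γ '' Icc 0 1)ᶜ) (hC : IsClosed (γ '' Icc 0 1)) {U : Set ℂ}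
    (hU : IsOpen U) (hUf : ¬ DifferentiableOn ℂ f U) :
    ∃ x ∈ Ioo (0 : ℝ) 1, γ x ∈ U ∧ ¬ AnalyticAt ℂ f (γ x) := by
  by_contra hcon
  push Not at hcon
  apply hUf
  have h1 : ∀ z ∈ U, z ≠ γ 0 → z ≠ γ 1 → DifferentiableAt ℂ f z := by
    intro z hz h0 h1
    by_cases hzC : z ∈ γ '' Icc 0 1
    · obtain ⟨x, hx, rfl⟩ := hzC
      have hx0 : x ≠ 0 := fun h => h0 (by rw [h])
      have hx1 : x ≠ 1 := fun h => h1 (by rw [h])
      exact (hcon x ⟨lt_of_le_of_ne hx.1 hx0.symm, lt_of_le_of_ne hx.2 hx1⟩ hz).differentiableAt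
    · exact hf.differentiableAt (hC.isOpen_compl.mem_nhds hzC)
  intro z hz
  refine DifferentiableAt.differentiableWithinAt ?_
  have h2 : ∀ᶠ x in 𝓝[≠] z, DifferentiableAt ℂ f x := by
    have h3 : ∀ᶠ x in 𝓝[≠] z, x ∉ ({γ 0, γ 1} : Set ℂ) := Loc_ev (Set.toFinite _) z
    have h4 : ∀ᶠ x in 𝓝[≠] z, x ∈ U := nhdsWithin_le_nhds (hU.mem_nhds hz)
    filter_upwards [h3, h4] with x hx hxU
    exact h1 x hxU (fun h => hx (Or.inl h)) (fun h => hx (Or.inr h))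
  exact (Complex.analyticAt_of_differentiable_on_punctured_nhds_of_continuousAt h2
    hfc.continuousAt).differentiableAt

/-- If `Φ ∘ F` is the identity near `z` and `F` is continuous at `z` and open, `Φ` analytic at
`F z`, then `F` is analytic at `z`. -/
theorem analytic_of_left_inv {F Φ : ℂ → ℂ} {z : ℂ} (hF : Continuous F) (hFo : IsOpenMap F)
    (hΦ : AnalyticAt ℂ Φ (F z)) (h : ∀ᶠ x in 𝓝 z, Φ (F x) = x) : AnalyticAt ℂ F z := by
  obtain ⟨V, hV, hVo, hzV⟩ := _root_.eventually_nhds_iff.1 h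
  obtain ⟨W', hW', hWo', hzW'⟩ := _root_.eventually_nhds_iff.1 hΦ.eventually_analyticAt
  have hinj : InjOn Φ (F '' V) := by
    rintro _ ⟨x, hx, rfl⟩ _ ⟨y, hy, rfl⟩ hxy
    rw [hV x hx, hV y hy] at hxy
    rw [hxy]
  have hd : ∀ x ∈ V, F x ∈ W' → deriv Φ (F x) ≠ 0 := fun x hx hxW =>
    Pool.Agent.Lib.MP_1f4a82_an.deriv_ne_zero_of_injOn (hW' _ hxW)
      ((hFo V hVo).mem_nhds ⟨x, hx, rfl⟩) hinj
  rw [Complex.analyticAt_iff_eventually_differentiableAt]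
  have h1 : ∀ᶠ x in 𝓝 z, x ∈ V := hVo.mem_nhds hzV
  have h2 : ∀ᶠ x in 𝓝 z, F x ∈ W' := hF.continuousAt.eventually (hWo'.mem_nhds hzW')
  filter_upwards [h1, h2] with x hx hx2
  have h3 : ∀ᶠ y in 𝓝 x, Φ (F y) = y := by
    filter_upwards [hVo.mem_nhds hx] with y hy
    exact hV y hy
  exact (HasDerivAt.of_local_left_inverse hF.continuousAt
    (hW' _ hx2).differentiableAt.hasDerivAt (hd x hx hx2) h3).differentiableAt

/-- Main theorem, local version: it is enough that the good points are dense near a point where the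
map is not holomorphic. -/
theorem main_loc {C : Set ℂ}
    (hC : (∃ γ : ℝ → ℂ, ContinuousOn γ (Icc 0 1) ∧ InjOn γ (Icc 0 1) ∧ C = γ '' Icc 0 1) ∨
        (∃ γ : Circle → ℂ, Continuous γ ∧ Function.Injective γ ∧ C = range γ))
    (f : ℂ ≃ₜ ℂ) (hf : DifferentiableOn ℂ f Cᶜ) {U : Set ℂ} (hU : IsOpen U)
    (hUf : ¬ DifferentiableOn ℂ f U)
    (hD : ∀ V : Set ℂ, IsOpen V → V ⊆ U → (V ∩ C).Nonempty → ∃ p ∈ V ∩ C, RPt C p) :
    ∃ K : Set ℂ, K ⊆ C ∩ U ∧ IsCompact K ∧ Perfect K ∧ IsTotallyDisconnected K ∧ K.Nonempty ∧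
      ∃ g : ℂ ≃ₜ ℂ, DifferentiableOn ℂ g Kᶜ ∧ ¬ ∃ a b : ℂ, ∀ z, g z = a * z + b := by
  classical
  obtain ⟨γ, hγ, rfl⟩ := crv_of hC
  have hCc : IsCompact (γ '' Icc 0 1) := isCompact_Icc.image_of_continuousOn hγ.cont
  obtain ⟨a, b, ha, hab⟩ := homeo_norm f hCc hf
  have h₀ := st_of_homeo f hCc hf ha hab
  obtain ⟨x₀, hx₀, hxU, hxf⟩ := sing_pt f.continuous hf hCc.isClosed hU hUf
  -- a parameter interval around `x₀` which is mapped into `U`
  have hcx : ContinuousAt γ x₀ := hγ.cont.continuousAt (Icc_mem_nhds hx₀.1 hx₀.2)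
  obtain ⟨δ, hδ, hδU⟩ := Metric.mem_nhds_iff.1 (hcx (hU.mem_nhds hxU))
  set c : ℝ := min (δ / 2) (min (x₀ / 2) ((1 - x₀) / 2)) with hc
  have hcpos : 0 < c := by
    have := hx₀.1
    have := hx₀.2
    exact lt_min (by positivity) (lt_min (by linarith) (by linarith))
  have hc1 : c ≤ δ / 2 := min_le_left _ _
  have hc2 : c ≤ x₀ / 2 := (min_le_right _ _).trans (min_le_left _ _)
  have hc3 : c ≤ (1 - x₀) / 2 := (min_le_right _ _).trans (min_le_right _ _)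
  have hx1 := hx₀.1
  have hx2 := hx₀.2
  have hIU : ∀ x, |x - x₀| ≤ c → γ x ∈ U := by
    intro x hx
    apply hδU
    rw [Metric.mem_ball, Real.dist_eq]
    linarith
  -- good points in parameter intervals
  have hgood : ∀ u v : ℝ, x₀ - c ≤ u → u < v → v ≤ x₀ + c →
      ∃ x ∈ Ioo u v, RPt (γ '' Icc 0 1) (γ x) := by
    intro u v hu huv hv
    have hsub : Ioo u v ⊆ Ioo (0 : ℝ) 1 := fun x hx => ⟨by linarith [hx.1], by linarith [hx.2]⟩
    have hcomp : IsCompact (γ '' (Icc 0 1 \ Ioo u v)) :=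
      (isCompact_Icc.diff isOpen_Ioo).image_of_continuousOn (hγ.cont.mono sdiff_subset)
    have hmid : (u + v) / 2 ∈ Ioo u v := ⟨by linarith, by linarith⟩
    obtain ⟨p, ⟨⟨hpU, hpV⟩, x, hx, rfl⟩, hp⟩ := hD (U ∩ (γ '' (Icc 0 1 \ Ioo u v))ᶜ)
      (hU.inter hcomp.isClosed.isOpen_compl) inter_subset_left
      ⟨γ ((u + v) / 2), ⟨hIU _ (by rw [abs_le]; constructor <;> linarith), by
        rintro ⟨y, ⟨hy1, hy2⟩, hy3⟩
        have := crv_inj hγ (hsub hmid) hy1 hy3.symm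
        rw [← this] at hy2
        exact hy2 hmid⟩, (u + v) / 2, Ioo_subset_Icc_self (hsub hmid), rfl⟩
    refine ⟨x, ?_, hp⟩
    by_contra h
    exact hpV ⟨x, ⟨hx, h⟩, rfl⟩
  obtain ⟨s, hs, hs2⟩ := hgood (x₀ - c) x₀ le_rfl (by linarith) (by linarith)
  obtain ⟨t, ht, ht2⟩ := hgood x₀ (x₀ + c) (by linarith) (by linarith) le_rfl
  have hs0 : 0 < s := by linarith [hs.1]
  have ht1 : t < 1 := by linarith [ht.2]
  have hst : s < t := hs.2.trans ht.1
  obtain ⟨F', Φ, hF', hΦ, han⟩ := gate_out hγ h₀ hs0 hst ht1 hs2 ht2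
  obtain ⟨G, hG⟩ := st_homeo hF'
  -- `G` is not affine
  have hGna : ¬ ∃ a' b' : ℂ, ∀ z, G z = a' * z + b' := by
    rintro ⟨a', b', hab'⟩
    have hG0 : ∀ z, F' z = a' * z + b' := fun z => by rw [← hG, hab']
    have h17 : Tendsto (fun z => (a' - 1) * z + b') (cocompact ℂ) (𝓝 0) := by
      refine hF'.inf.congr fun z => ?_
      rw [hG0]
      ring
    have h19 : a' = 1 := by
      by_contra hne
      have h20 : Tendsto (fun z : ℂ => ‖(a' - 1) * z + b'‖) (cocompact ℂ) atTop := by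
        have h21 : 0 < ‖a' - 1‖ := norm_pos_iff.2 (sub_ne_zero.2 hne)
        have h22 : Tendsto (fun z : ℂ => ‖a' - 1‖ * ‖z‖ - ‖b'‖) (cocompact ℂ) atTop :=
          tendsto_atTop_add_const_right _ _
            ((tendsto_norm_cocompact_atTop).const_mul_atTop h21)
        refine tendsto_atTop_mono (fun z => ?_) h22
        have h23 := norm_sub_le ((a' - 1) * z + b') b'
        rw [add_sub_cancel_right, norm_mul] at h23
        linarith
      exact not_tendsto_nhds_of_tendsto_atTop h20 _ h17.norm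
    have h24 : b' = 0 := by
      rw [h19] at h17
      simp only [sub_self, zero_mul, zero_add] at h17
      exact tendsto_nhds_unique tendsto_const_nhds h17
    have hid : ∀ z, F' z = z := fun z => by rw [hG0, h19, h24]; ring
    -- so `Φ ∘ F₀` is the identity near `γ x₀`
    obtain ⟨G₀, hG₀⟩ := st_homeo h₀
    have hG₀' : (fun z => (f z - b) / a) = G₀ := funext fun z => (hG₀ z).symm
    have hx₀' : γ x₀ ∉ ({γ s, γ t} : Set ℂ) := by
      rintro (h | h)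
      · exact hs.2.ne (crv_inj hγ hx₀ ⟨hs0.le, by linarith⟩ h).symm
      · exact ht.1.ne (crv_inj hγ hx₀ ⟨by linarith, ht1.le⟩ h)
    have hev : ∀ᶠ x in 𝓝 (γ x₀), Φ (G₀ x) = x := by
      have h1 : ({γ s, γ t} : Set ℂ)ᶜ ∈ 𝓝 (γ x₀) :=
        (Set.toFinite ({γ s, γ t} : Set ℂ)).isClosed.isOpen_compl.mem_nhds hx₀'
      filter_upwards [h1] with x hx
      have h2 := hΦ x hx
      rw [hid] at h2
      rw [hG₀]
      exact h2.symm
    have h30 : AnalyticAt ℂ G₀ (γ x₀) := by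
      refine analytic_of_left_inv G₀.continuous G₀.isOpenMap (Φ := Φ) ?_ hev
      have h31 := han (γ x₀) ⟨x₀, ⟨hs.2, ht.1⟩, rfl⟩
      rw [hG₀]
      exact h31
    apply hxf
    have h32 : (f : ℂ → ℂ) = fun z => a * G₀ z + b := by
      funext z
      rw [hG₀]
      field_simp
      ring
    rw [h32]
    exact (analyticAt_const.mul h30).add analyticAt_const
  -- apply the global theorem to the arc between `s` and `t`
  have hIcc : Icc s t ⊆ Ioo (0 : ℝ) 1 := fun x hx => ⟨hs0.trans_le hx.1, hx.2.trans_lt ht1⟩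
  have hGd : DifferentiableOn ℂ G (γ '' Icc s t)ᶜ := by
    have : (G : ℂ → ℂ) = F' := funext hG
    rw [this]
    exact hF'.hol
  have harc : (∃ γ' : ℝ → ℂ, ContinuousOn γ' (Icc 0 1) ∧ InjOn γ' (Icc 0 1) ∧
      γ '' Icc s t = γ' '' Icc 0 1) := by
    have hmap : (fun x : ℝ => s + (t - s) * x) '' Icc 0 1 = Icc s t := by
      ext y
      constructor
      · rintro ⟨x, hx, rfl⟩
        exact ⟨by nlinarith [hx.1, hx.2], by nlinarith [hx.1, hx.2]⟩
      · rintro hy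
        have h1 : 0 < t - s := by linarith
        refine ⟨(y - s) / (t - s), ⟨div_nonneg (by linarith [hy.1]) h1.le, ?_⟩, ?_⟩
        · rw [div_le_one h1]
          linarith [hy.2]
        · show s + (t - s) * ((y - s) / (t - s)) = y
          field_simp
          ring
    have hmaps : MapsTo (fun x : ℝ => s + (t - s) * x) (Icc 0 1) (Icc s t) := by
      intro x hx
      rw [← hmap]
      exact ⟨x, hx, rfl⟩
    refine ⟨fun x => γ (s + (t - s) * x), ?_, ?_, ?_⟩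
    · refine (hγ.cont.mono (hIcc.trans Ioo_subset_Icc_self)).comp ?_ hmaps
      exact (continuous_const.add (continuous_const.mul continuous_id)).continuousOn
    · intro x hx y hy hxy
      have h1 := crv_inj hγ (hIcc (hmaps hx)) (Ioo_subset_Icc_self (hIcc (hmaps hy))) hxy
      have h2 : t - s ≠ 0 := by
        have : 0 < t - s := by linarith
        exact this.ne'
      have h3 : (t - s) * x = (t - s) * y := by linarith
      exact mul_left_cancel₀ h2 h3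
    · rw [← hmap, image_image]
  obtain ⟨K, hK, hK1, hK2, hK3, hK4, g, hg1, hg2, -⟩ := main_R (Or.inl harc) G hGd hGna one_pos (by
    intro V hV hVne
    -- a parameter interval inside `Ioo s t` mapped into `V`
    obtain ⟨z, hzV, x, hx, rfl⟩ := hVne
    have hcx' : ContinuousAt γ x := hγ.cont.continuousAt (Icc_mem_nhds (hIcc hx).1 (hIcc hx).2)
    obtain ⟨η, hη, hηV⟩ := Metric.mem_nhds_iff.1 (hcx' (hV.mem_nhds hzV))
    obtain ⟨u, v, huv, hu, hv, hsub⟩ : ∃ u v : ℝ, u < v ∧ s ≤ u ∧ v ≤ t ∧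
        ∀ y ∈ Ioo u v, |y - x| < η := by
      rcases lt_or_ge x t with h | h
      · refine ⟨x, min t (x + η), lt_min h (by linarith), hx.1, min_le_left _ _, fun y hy => ?_⟩
        have h1 := hy.2.trans_le (min_le_right _ _)
        rw [abs_lt]
        exact ⟨by linarith [hy.1], by linarith⟩
      · have hxt : x = t := le_antisymm hx.2 h
        refine ⟨max s (x - η), x, max_lt (by linarith) (by linarith), le_max_left _ _, hx.2,
          fun y hy => ?_⟩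
        have h1 := (le_max_right _ _).trans_lt hy.1
        rw [abs_lt]
        exact ⟨by linarith, by linarith [hy.2]⟩
    obtain ⟨y, hy, hyR⟩ := hgood u v (by linarith [hs.1]) huv (by linarith [ht.2])
    refine ⟨γ y, ⟨hηV ?_, y, ⟨by linarith [hy.1], by linarith [hy.2]⟩, rfl⟩, ?_⟩
    · rw [Metric.mem_ball, Real.dist_eq]
      exact hsub y hy
    · intro F δ' hδ' h1 h2 h3 h4 h5
      refine hyR F δ' hδ' h1 h2 h3 (h4.mono fun z hz => ⟨hz.1, fun h => hz.2 ?_⟩) h5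
      exact image_mono (hIcc.trans Ioo_subset_Icc_self) h)
  refine ⟨K, fun z hz => ?_, hK1, hK2, hK3, hK4, g, hg1, hg2⟩
  obtain ⟨x, hx, rfl⟩ := hK hz
  refine ⟨⟨x, Ioo_subset_Icc_self (hIcc hx), rfl⟩, hIU x ?_⟩
  rw [abs_le]
  exact ⟨by linarith [hx.1, hs.1], by linarith [hx.2, ht.2]⟩

end Pool.Agent.MY018
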