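import Pool.Agent.Lib.MP_018119_an_MY.DefsH

/-!
# MY: the loops surround the point
-/

set_option autoImplicit false

open Topology Filter Set Metric MeasureTheory

namespace Pool.Agent.MY018

/-- PROOF. Let `O = G₁ '' ub a b s ∪ G₂ '' lb (h a) (h b) s'`: open (`LD.opn`), it contains `p = G₁ x₀`
(`a < x₀ < b`), and its closure is contained in the compact (hence bounded and closed) set
`O' = G₁ '' {a ≤ re ≤ b, 0 ≤ im ≤ s} ∪ G₂ '' {h a ≤ re ≤ h b, -s' ≤ im ≤ 0}` (the boxes are compact subsets of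
`ubox x₀ r` and `lbox (h x₀) R`; for the second one use `hR1`, `hR2` and monotonicity). `O' = O ∪ S`. `O` and `S` are
disjoint: `G₁` is injective on `ubox x₀ r`, `G₂` on `lbox (h x₀) R`, and if `G₁ u = G₂ v` with `u ∈ ub a b s`,
`v ∈ ls (h a) (h b) s'` then by `sep` `u.im = v.im = 0`, `v.re = h u.re`, `h a < v.re < h b`, so `v` is not on the sides
(`s' > 0`), a contradiction; similarly for `u ∈ us a b s`, `v ∈ lb (h a) (h b) s'` (`v.re = h u.re` with `u.re = a` or `b`). In particular `p ∉ S`. Let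
`D` be the component of `p` in `Sᶜ`: it is preconnected, contains `p ∈ O`, and it does not meet the frontier
of `O` (`frontier O = closure O \ O ⊆ O' \ O ⊆ S`), so `D ⊆ O` (`IsPreconnected.subset_of_closure_inter_subset` or
`IsPreconnected.inter_frontier_nonempty`), which is bounded. -/
theorem sur_loop {C : Set ℂ} {G₁ G₂ : ℂ → ℂ} {h : ℝ → ℝ} {x₀ r R : ℝ}
    (hL : LD C G₁ G₂ h x₀ r R) {a b s s' : ℝ} (ha : x₀ - r < a) (ha' : a < x₀) (hb' : x₀ < b)
    (hb : b < x₀ + r) (hs : 0 < s) (hsr : s < r) (hs' : 0 < s') (hsR : s' < R) {S : Set ℂ}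
    (hS : S = G₁ '' us a b s ∪ G₂ '' ls (h a) (h b) s') :
    G₁ x₀ ∉ S ∧ Bornology.IsBounded (connectedComponentIn Sᶜ (G₁ x₀)) := by
  have hab : a < b := ha'.trans hb'
  set K1 : Set ℂ := Icc a b ×ℂ Icc 0 s with hK1
  set K2 : Set ℂ := Icc (h a) (h b) ×ℂ Icc (-s') 0 with hK2
  have cK1 : IsCompact K1 := isCompact_Icc.reProdIm isCompact_Icc
  have cK2 : IsCompact K2 := isCompact_Icc.reProdIm isCompact_Icc
  have hm1 : h (x₀ - r) ≤ h a := hL.mono.monotone ha.le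
  have hm2 : h b ≤ h (x₀ + r) := hL.mono.monotone hb.le
  have hR1 := hL.hR1
  have hR2 := hL.hR2
  have sK1 : K1 ⊆ ubox x₀ r := by
    rintro w ⟨⟨h1, h2⟩, h3, h4⟩
    refine ⟨?_, h3, h4.trans hsr.le⟩
    rw [abs_le]
    constructor <;> linarith
  have sK2 : K2 ⊆ lbox (h x₀) R := by
    rintro w ⟨⟨h1, h2⟩, h3, h4⟩
    refine ⟨?_, ?_, h4⟩
    · rw [abs_le]
      constructor <;> linarith
    · have h5 : -s' ≤ w.im := h3
      linarith
  have ubK : ub a b s ⊆ K1 := fun w hw => ⟨⟨hw.1.le, hw.2.1.le⟩, hw.2.2.1, hw.2.2.2.le⟩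
  have lbK : lb (h a) (h b) s' ⊆ K2 := fun w hw => ⟨⟨hw.1.le, hw.2.1.le⟩, hw.2.2.1.le, hw.2.2.2⟩
  have usK : us a b s ⊆ K1 := fun w hw => ⟨⟨hw.1, hw.2.1⟩, hw.2.2.1, hw.2.2.2.1⟩
  have lsK : ls (h a) (h b) s' ⊆ K2 := fun w hw => ⟨⟨hw.1, hw.2.1⟩, hw.2.2.1, hw.2.2.2.1⟩
  set O : Set ℂ := G₁ '' ub a b s ∪ G₂ '' lb (h a) (h b) s' with hO
  have oO : IsOpen O := hL.opn a b s s' ha hab hb hs hsr hs' hsR
  have cO' : IsCompact (G₁ '' K1 ∪ G₂ '' K2) :=
    (cK1.image_of_continuousOn (hL.c1.mono sK1)).union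
      (cK2.image_of_continuousOn (hL.c2.mono sK2))
  have hOO' : O ⊆ G₁ '' K1 ∪ G₂ '' K2 := union_subset_union (image_mono ubK) (image_mono lbK)
  have hcl : closure O ⊆ G₁ '' K1 ∪ G₂ '' K2 := closure_minimal hOO' cO'.isClosed
  have hO'S : G₁ '' K1 ∪ G₂ '' K2 ⊆ O ∪ S := by
    rintro x (⟨w, ⟨⟨h1, h2⟩, h3, h4⟩, rfl⟩ | ⟨w, ⟨⟨h1, h2⟩, h3, h4⟩, rfl⟩)
    · by_cases hc : w.re = a ∨ w.re = b ∨ w.im = s
      · right
        rw [hS]
        exact Or.inl ⟨w, ⟨h1, h2, h3, h4, hc⟩, rfl⟩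
      · push Not at hc
        left
        exact Or.inl ⟨w, ⟨lt_of_le_of_ne h1 (Ne.symm hc.1), lt_of_le_of_ne h2 hc.2.1, h3,
          lt_of_le_of_ne h4 hc.2.2⟩, rfl⟩
    · by_cases hc : w.re = h a ∨ w.re = h b ∨ w.im = -s'
      · right
        rw [hS]
        exact Or.inr ⟨w, ⟨h1, h2, h3, h4, hc⟩, rfl⟩
      · push Not at hc
        left
        exact Or.inr ⟨w, ⟨lt_of_le_of_ne h1 (Ne.symm hc.1), lt_of_le_of_ne h2 hc.2.1,
          lt_of_le_of_ne h3 (Ne.symm hc.2.2), h4⟩, rfl⟩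
  have hOS : ∀ x ∈ O, x ∉ S := by
    intro x hx hxS
    rw [hS] at hxS
    rcases hx with ⟨u, hu, rfl⟩ | ⟨v, hv, rfl⟩
    · rcases hxS with ⟨u', hu', he⟩ | ⟨v, hv, he⟩
      · have h1 := hL.i1 (sK1 (usK hu')) (sK1 (ubK hu)) he
        subst h1
        rcases hu'.2.2.2.2 with h2 | h2 | h2
        · exact absurd h2 hu.1.ne'
        · exact absurd h2 hu.2.1.ne
        · exact absurd h2 hu.2.2.2.ne
      · obtain ⟨h1, h2, h3⟩ := hL.sep u (sK1 (ubK hu)) v (sK2 (lsK hv)) he.symm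
        have h4 : h a < h u.re := hL.mono hu.1
        have h5 : h u.re < h b := hL.mono hu.2.1
        rcases hv.2.2.2.2 with h6 | h6 | h6
        · linarith
        · linarith
        · linarith
    · rcases hxS with ⟨u, hu, he⟩ | ⟨v', hv', he⟩
      · obtain ⟨h1, h2, h3⟩ := hL.sep u (sK1 (usK hu)) v (sK2 (lbK hv)) he
        have h4 := hv.1
        have h5 := hv.2.1
        rcases hu.2.2.2.2 with h6 | h6 | h6
        · rw [h6] at h3
          linarith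
        · rw [h6] at h3
          linarith
        · linarith
      · have h1 := hL.i2 (sK2 (lsK hv')) (sK2 (lbK hv)) he
        subst h1
        rcases hv'.2.2.2.2 with h2 | h2 | h2
        · exact absurd h2 hv.1.ne'
        · exact absurd h2 hv.2.1.ne
        · exact absurd h2 hv.2.2.1.ne'
  have hpO : G₁ x₀ ∈ O := Or.inl ⟨(x₀ : ℂ), ⟨by simpa using ha', by simpa using hb', by simp,
    by simpa using hs⟩, rfl⟩
  have hpS : G₁ x₀ ∉ S := hOS _ hpO
  refine ⟨hpS, ?_⟩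
  have hsub : connectedComponentIn Sᶜ (G₁ x₀) ⊆ O := by
    refine isPreconnected_connectedComponentIn.subset_of_closure_inter_subset oO
      ⟨G₁ x₀, mem_connectedComponentIn hpS, hpO⟩ ?_
    rintro x ⟨hx1, hx2⟩
    rcases hO'S (hcl hx1) with h1 | h1
    · exact h1
    · exact absurd h1 (connectedComponentIn_subset _ _ hx2)
  exact cO'.isBounded.subset (hsub.trans hOO')

end Pool.Agent.MY018
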