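import Pool.Agent.Lib.MP_018119_an_MY.Pcs
import Pool.Agent.Lib.MP_018119_an_MY.SurL

/-!
# MY: the loops
-/

set_option autoImplicit false

open Topology Filter Set Metric MeasureTheory

namespace Pool.Agent.MY018

private theorem PathL_seg {C : Set ℂ} {G : ℂ → ℂ} {γ : ℝ → ℂ} {u e : ℂ} (he : ‖e‖ = 1)
    (hγ : ∀ t : ℝ, γ t = u + t * e) {L : ℝ} (hL : 0 < L) (hc : ContinuousOn G (γ '' Icc 0 L))
    (hd : ∀ t ∈ Ioo 0 L, DifferentiableAt ℂ G (γ t)) (hC : ∀ t ∈ Ioo 0 L, G (γ t) ∉ C) :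
    Pc C (G (γ 0)) (G (γ L)) (G '' (γ '' Icc 0 L))
      (fun ρ => ∫⁻ t in Ioo 0 L, ρ (G (γ t)) * ‖deriv G (γ t)‖ₑ) := by
  obtain rfl : γ = fun t : ℝ => u + t * e := funext hγ
  have h1 := pc_seg (C := C) he hL hc hd hC
  have h2 : u + ((0 : ℝ) : ℂ) * e = u := by
    rw [Complex.ofReal_zero, zero_mul, add_zero]
  change Pc C (G (u + ((0 : ℝ) : ℂ) * e)) _ _ _
  rw [h2]
  exact h1

private theorem PathL_ver {C : Set ℂ} {G : ℂ → ℂ} {a s : ℝ} (hs : 0 < s)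
    (hc : ∀ t ∈ Icc 0 s, ContinuousWithinAt G ((fun t : ℝ => (⟨a, t⟩ : ℂ)) '' Icc 0 s) ⟨a, t⟩)
    (hd : ∀ t ∈ Ioo 0 s, DifferentiableAt ℂ G ⟨a, t⟩) (hC : ∀ t ∈ Ioo 0 s, G ⟨a, t⟩ ∉ C) :
    Pc C (G ⟨a, 0⟩) (G ⟨a, s⟩) (G '' ((fun t : ℝ => (⟨a, t⟩ : ℂ)) '' Icc 0 s))
      (fun ρ => ∫⁻ t in Ioo 0 s, ρ (G ⟨a, t⟩) * ‖deriv G ⟨a, t⟩‖ₑ) := by
  refine PathL_seg (γ := fun t : ℝ => (⟨a, t⟩ : ℂ)) (u := ⟨a, 0⟩) (e := Complex.I)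
    Complex.norm_I (fun t => ?_) hs ?_ hd hC
  · apply Complex.ext <;> simp
  · rintro _ ⟨t, ht, rfl⟩
    exact hc t ht

private theorem PathL_ver' {C : Set ℂ} {G : ℂ → ℂ} {a s : ℝ} (hs : 0 < s)
    (hc : ∀ t ∈ Icc 0 s, ContinuousWithinAt G ((fun t : ℝ => (⟨a, -t⟩ : ℂ)) '' Icc 0 s) ⟨a, -t⟩)
    (hd : ∀ t ∈ Ioo 0 s, DifferentiableAt ℂ G ⟨a, -t⟩) (hC : ∀ t ∈ Ioo 0 s, G ⟨a, -t⟩ ∉ C) :
    Pc C (G ⟨a, 0⟩) (G ⟨a, -s⟩) (G '' ((fun t : ℝ => (⟨a, -t⟩ : ℂ)) '' Icc 0 s))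
      (fun ρ => ∫⁻ t in Ioo 0 s, ρ (G ⟨a, -t⟩) * ‖deriv G ⟨a, -t⟩‖ₑ) := by
  have h1 := PathL_seg (C := C) (γ := fun t : ℝ => (⟨a, -t⟩ : ℂ)) (u := ⟨a, 0⟩) (e := -Complex.I)
    (by rw [norm_neg, Complex.norm_I]) (fun t => ?_) hs ?_ hd hC
  · have h2 : (⟨a, -0⟩ : ℂ) = ⟨a, 0⟩ := by rw [neg_zero]
    change Pc C (G ⟨a, -0⟩) _ _ _ at h1
    rw [h2] at h1
    exact h1
  · apply Complex.ext <;> simp
  · rintro _ ⟨t, ht, rfl⟩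
    exact hc t ht

private theorem PathL_hor {C : Set ℂ} {G : ℂ → ℂ} {a b s : ℝ} (hab : a < b)
    (hc : ∀ x ∈ Icc a b, ContinuousWithinAt G ((fun x : ℝ => (⟨x, s⟩ : ℂ)) '' Icc a b) ⟨x, s⟩)
    (hd : ∀ x ∈ Ioo a b, DifferentiableAt ℂ G ⟨x, s⟩) (hC : ∀ x ∈ Ioo a b, G ⟨x, s⟩ ∉ C) :
    Pc C (G ⟨a, s⟩) (G ⟨b, s⟩) (G '' ((fun x : ℝ => (⟨x, s⟩ : ℂ)) '' Icc a b))
      (fun ρ => ∫⁻ x in Ioo a b, ρ (G ⟨x, s⟩) * ‖deriv G ⟨x, s⟩‖ₑ) := by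
  have him : (fun t : ℝ => (⟨a + t, s⟩ : ℂ)) '' Icc 0 (b - a) =
      (fun x : ℝ => (⟨x, s⟩ : ℂ)) '' Icc a b := by
    ext w
    constructor
    · rintro ⟨t, ht, rfl⟩
      exact ⟨a + t, ⟨by linarith [ht.1], by linarith [ht.2]⟩, rfl⟩
    · rintro ⟨x, hx, rfl⟩
      refine ⟨x - a, ⟨by linarith [hx.1], by linarith [hx.2]⟩, ?_⟩
      beta_reduce
      rw [add_sub_cancel]
  have h1 := PathL_seg (C := C) (G := G) (γ := fun t : ℝ => (⟨a + t, s⟩ : ℂ)) (u := ⟨a, s⟩)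
    (e := 1) norm_one (fun t => ?_) (sub_pos.2 hab) ?_
    (fun t ht => hd (a + t) ⟨by linarith [ht.1], by linarith [ht.2]⟩)
    (fun t ht => hC (a + t) ⟨by linarith [ht.1], by linarith [ht.2]⟩)
  · rw [him] at h1
    have h2 : (⟨a + 0, s⟩ : ℂ) = ⟨a, s⟩ := by rw [add_zero]
    have h3 : (⟨a + (b - a), s⟩ : ℂ) = ⟨b, s⟩ := by rw [add_sub_cancel]
    change Pc C (G ⟨a + 0, s⟩) (G ⟨a + (b - a), s⟩) _ _ at h1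
    rw [h2, h3] at h1
    have h4 : (fun ρ : ℂ → ENNReal => ∫⁻ t in Ioo 0 (b - a),
        ρ (G ⟨a + t, s⟩) * ‖deriv G ⟨a + t, s⟩‖ₑ) =
        fun ρ => ∫⁻ x in Ioo a b, ρ (G ⟨x, s⟩) * ‖deriv G ⟨x, s⟩‖ₑ := by
      funext ρ
      have h5 := (measurePreserving_add_left (volume : Measure ℝ) a).setLIntegral_comp_preimage_emb
        (measurableEmbedding_addLeft a) (fun x => ρ (G ⟨x, s⟩) * ‖deriv G ⟨x, s⟩‖ₑ) (Ioo a b)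
      rw [Set.preimage_const_add_Ioo, sub_self] at h5
      exact h5
    rw [← h4]
    exact h1
  · apply Complex.ext <;> simp
  · rw [him]
    rintro _ ⟨x, hx, rfl⟩
    exact hc x hx

private theorem PathL_us {a b s : ℝ} (hab : a < b) (hs : 0 < s) :
    us a b s = (fun t : ℝ => (⟨a, t⟩ : ℂ)) '' Icc 0 s ∪ (fun x : ℝ => (⟨x, s⟩ : ℂ)) '' Icc a b ∪
      (fun t : ℝ => (⟨b, t⟩ : ℂ)) '' Icc 0 s := by
  ext w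
  constructor
  · rintro ⟨h1, h2, h3, h4, h5 | h5 | h5⟩
    · exact Or.inl (Or.inl ⟨w.im, ⟨h3, h4⟩, Complex.ext h5.symm rfl⟩)
    · exact Or.inr ⟨w.im, ⟨h3, h4⟩, Complex.ext h5.symm rfl⟩
    · exact Or.inl (Or.inr ⟨w.re, ⟨h1, h2⟩, Complex.ext rfl h5.symm⟩)
  · rintro ((⟨t, ht, rfl⟩ | ⟨x, hx, rfl⟩) | ⟨t, ht, rfl⟩)
    · exact ⟨le_rfl, hab.le, ht.1, ht.2, Or.inl rfl⟩
    · exact ⟨hx.1, hx.2, hs.le, le_rfl, Or.inr (Or.inr rfl)⟩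
    · exact ⟨hab.le, le_rfl, ht.1, ht.2, Or.inr (Or.inl rfl)⟩

private theorem PathL_ls {a b s : ℝ} (hab : a < b) (hs : 0 < s) :
    ls a b s = (fun t : ℝ => (⟨b, -t⟩ : ℂ)) '' Icc 0 s ∪ (fun x : ℝ => (⟨x, -s⟩ : ℂ)) '' Icc a b ∪
      (fun t : ℝ => (⟨a, -t⟩ : ℂ)) '' Icc 0 s := by
  ext w
  constructor
  · rintro ⟨h1, h2, h3, h4, h5 | h5 | h5⟩
    · exact Or.inr ⟨-w.im, ⟨by linarith, by linarith⟩, Complex.ext h5.symm (neg_neg _)⟩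
    · exact Or.inl (Or.inl ⟨-w.im, ⟨by linarith, by linarith⟩, Complex.ext h5.symm (neg_neg _)⟩)
    · exact Or.inl (Or.inr ⟨w.re, ⟨h1, h2⟩, Complex.ext rfl h5.symm⟩)
  · rintro ((⟨t, ht, rfl⟩ | ⟨x, hx, rfl⟩) | ⟨t, ht, rfl⟩)
    · exact ⟨hab.le, le_rfl, neg_le_neg ht.2, neg_nonpos.2 ht.1, Or.inr (Or.inl rfl)⟩
    · exact ⟨hx.1, hx.2, le_rfl, neg_nonpos.2 hs.le, Or.inr (Or.inr rfl)⟩
    · exact ⟨le_rfl, hab.le, neg_le_neg ht.2, neg_nonpos.2 ht.1, Or.inl rfl⟩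

/-- The loops around `G₁ x₀`.
PROOF. Six pieces (`pc_seg`, `Pc.symm`, `Pc.trans`, `Pc.loop`): in the upper box the segments from `a` to
`a + s I`, from `a + s I` to `b + s I`, from `b + s I` to `b`, mapped by `G₁` (the open segments are in the open
upper half plane, so `G₁` is differentiable there and its values are not in `C`); `G₁ b = G₂ (h b)` (`wel`); in the
lower box from `h b` to `h b - s' I`, to `h a - s' I`, to `h a`, mapped by `G₂`; `G₂ (h a) = G₁ a`. The image of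
the loop is `S = G₁ '' us a b s ∪ G₂ '' ls (h a) (h b) s'` (`us` and `ls` are the unions of the three segments). `ne` and
`sur` of `CLoop` are `sur_loop`. -/
theorem exists_loop {C : Set ℂ} {G₁ G₂ : ℂ → ℂ} {h : ℝ → ℝ} {x₀ r R : ℝ}
    (hL : LD C G₁ G₂ h x₀ r R) {a b s s' : ℝ} (ha : x₀ - r < a) (ha' : a < x₀) (hb' : x₀ < b)
    (hb : b < x₀ + r) (hs : 0 < s) (hsr : s < r) (hs' : 0 < s') (hsR : s' < R) {A : Set ℂ}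
    (hA : G₁ '' us a b s ∪ G₂ '' ls (h a) (h b) s' ⊆ A) :
    ∃ σ : ℝ → ℂ, CLoop C (G₁ x₀) A σ ∧ ∀ ρ : ℂ → ENNReal, Measurable ρ →
      ∫⁻ t in Icc (0 : ℝ) 1, ρ (σ t) * ‖deriv σ t‖ₑ ≤
        ((∫⁻ y in Ioo 0 s, ρ (G₁ ⟨a, y⟩) * ‖deriv G₁ ⟨a, y⟩‖ₑ) +
          (∫⁻ x in Ioo a b, ρ (G₁ ⟨x, s⟩) * ‖deriv G₁ ⟨x, s⟩‖ₑ) +
          (∫⁻ y in Ioo 0 s, ρ (G₁ ⟨b, y⟩) * ‖deriv G₁ ⟨b, y⟩‖ₑ)) +
        ((∫⁻ y in Ioo 0 s', ρ (G₂ ⟨h b, -y⟩) * ‖deriv G₂ ⟨h b, -y⟩‖ₑ) +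
          (∫⁻ x in Ioo (h a) (h b), ρ (G₂ ⟨x, -s'⟩) * ‖deriv G₂ ⟨x, -s'⟩‖ₑ) +
          (∫⁻ y in Ioo 0 s', ρ (G₂ ⟨h a, -y⟩) * ‖deriv G₂ ⟨h a, -y⟩‖ₑ)) := by
  have hab : a < b := ha'.trans hb'
  have hhab : h a < h b := hL.mono hab
  -- membership in the boxes
  have hu : ∀ x y : ℝ, a ≤ x → x ≤ b → 0 ≤ y → y ≤ s → (⟨x, y⟩ : ℂ) ∈ ubox x₀ r := by
    intro x y h1 h2 h3 h4
    refine ⟨abs_le.2 ⟨?_, ?_⟩, h3, ?_⟩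
    · change -r ≤ x - x₀
      linarith
    · change x - x₀ ≤ r
      linarith
    · change y ≤ r
      linarith
  have hl : ∀ x y : ℝ, h a ≤ x → x ≤ h b → 0 ≤ y → y ≤ s' →
      (⟨x, -y⟩ : ℂ) ∈ lbox (h x₀) R := by
    intro x y h1 h2 h3 h4
    have h5 : h (x₀ - r) ≤ h a := hL.mono.monotone ha.le
    have h6 : h b ≤ h (x₀ + r) := hL.mono.monotone hb.le
    have h7 := hL.hR1
    have h8 := hL.hR2
    refine ⟨abs_le.2 ⟨?_, ?_⟩, ?_, ?_⟩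
    · change -R ≤ x - h x₀
      linarith
    · change x - h x₀ ≤ R
      linarith
    · change -R ≤ -y
      linarith
    · change -y ≤ 0
      linarith
  have hd1 : ∀ w : ℂ, 0 < w.im → DifferentiableAt ℂ G₁ w := fun w hw =>
    (hL.d1 w hw).differentiableAt ((isOpen_lt continuous_const Complex.continuous_im).mem_nhds hw)
  have hd2 : ∀ w : ℂ, w.im < 0 → DifferentiableAt ℂ G₂ w := fun w hw =>
    (hL.d2 w hw).differentiableAt ((isOpen_lt Complex.continuous_im continuous_const).mem_nhds hw)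
  -- the six pieces
  have v1 : ∀ x : ℝ, a ≤ x → x ≤ b → Pc C (G₁ ⟨x, 0⟩) (G₁ ⟨x, s⟩)
      (G₁ '' ((fun t : ℝ => (⟨x, t⟩ : ℂ)) '' Icc 0 s))
      (fun ρ => ∫⁻ t in Ioo 0 s, ρ (G₁ ⟨x, t⟩) * ‖deriv G₁ ⟨x, t⟩‖ₑ) := by
    intro x h1 h2
    refine PathL_ver hs (fun t ht => (hL.c1 _ (hu x t h1 h2 ht.1 ht.2)).mono ?_)
      (fun t ht => hd1 _ ht.1) (fun t ht => hL.C1 _ (hu x t h1 h2 ht.1.le ht.2.le) ht.1)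
    rintro _ ⟨t, ht, rfl⟩
    exact hu x t h1 h2 ht.1 ht.2
  have v2 : ∀ x : ℝ, h a ≤ x → x ≤ h b → Pc C (G₂ ⟨x, 0⟩) (G₂ ⟨x, -s'⟩)
      (G₂ '' ((fun t : ℝ => (⟨x, -t⟩ : ℂ)) '' Icc 0 s'))
      (fun ρ => ∫⁻ t in Ioo 0 s', ρ (G₂ ⟨x, -t⟩) * ‖deriv G₂ ⟨x, -t⟩‖ₑ) := by
    intro x h1 h2
    refine PathL_ver' hs' (fun t ht => (hL.c2 _ (hl x t h1 h2 ht.1 ht.2)).mono ?_)
      (fun t ht => hd2 _ (neg_lt_zero.2 ht.1))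
      (fun t ht => hL.C2 _ (hl x t h1 h2 ht.1.le ht.2.le) (neg_lt_zero.2 ht.1))
    rintro _ ⟨t, ht, rfl⟩
    exact hl x t h1 h2 ht.1 ht.2
  have g1 : Pc C (G₁ ⟨a, s⟩) (G₁ ⟨b, s⟩)
      (G₁ '' ((fun x : ℝ => (⟨x, s⟩ : ℂ)) '' Icc a b))
      (fun ρ => ∫⁻ x in Ioo a b, ρ (G₁ ⟨x, s⟩) * ‖deriv G₁ ⟨x, s⟩‖ₑ) := by
    refine PathL_hor hab (fun x hx => (hL.c1 _ (hu x s hx.1 hx.2 hs.le le_rfl)).mono ?_)
      (fun x hx => hd1 _ hs) (fun x hx => hL.C1 _ (hu x s hx.1.le hx.2.le hs.le le_rfl) hs)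
    rintro _ ⟨x, hx, rfl⟩
    exact hu x s hx.1 hx.2 hs.le le_rfl
  have g2 : Pc C (G₂ ⟨h a, -s'⟩) (G₂ ⟨h b, -s'⟩)
      (G₂ '' ((fun x : ℝ => (⟨x, -s'⟩ : ℂ)) '' Icc (h a) (h b)))
      (fun ρ => ∫⁻ x in Ioo (h a) (h b), ρ (G₂ ⟨x, -s'⟩) * ‖deriv G₂ ⟨x, -s'⟩‖ₑ) := by
    refine PathL_hor hhab (fun x hx => (hL.c2 _ (hl x s' hx.1 hx.2 hs'.le le_rfl)).mono ?_)
      (fun x hx => hd2 _ (neg_lt_zero.2 hs'))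
      (fun x hx => hL.C2 _ (hl x s' hx.1.le hx.2.le hs'.le le_rfl) (neg_lt_zero.2 hs'))
    rintro _ ⟨x, hx, rfl⟩
    exact hl x s' hx.1 hx.2 hs'.le le_rfl
  have P1 := ((v1 a le_rfl hab.le).trans g1).trans (v1 b hab.le le_rfl).symm
  have P2 := ((v2 (h b) hhab.le le_rfl).trans g2.symm).trans (v2 (h a) le_rfl hhab.le).symm
  have wb : G₁ ⟨b, 0⟩ = G₂ ⟨h b, 0⟩ := hL.wel b ⟨by linarith, hb.le⟩
  have wa : G₁ ⟨a, 0⟩ = G₂ ⟨h a, 0⟩ := hL.wel a ⟨ha.le, by linarith⟩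
  rw [wa, wb] at P1
  obtain ⟨σ, h1, h2, h3, h4, h5⟩ := (P1.trans P2).loop
  have h6 : σ '' Icc 0 1 = G₁ '' us a b s ∪ G₂ '' ls (h a) (h b) s' := by
    rw [h3, PathL_us hab hs, PathL_ls hhab hs', image_union, image_union, image_union,
      image_union]
  obtain ⟨k1, k2⟩ := sur_loop hL ha ha' hb' hb hs hsr hs' hsR h6
  refine ⟨σ, ⟨h1, h2, fun t ht => hA ?_, h4, fun t ht he => k1 ?_, k2⟩, h5⟩
  · rw [← h6]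
    exact mem_image_of_mem σ ht
  · rw [← he]
    exact mem_image_of_mem σ ht

end Pool.Agent.MY018
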