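import Pool.Agent.Lib.MP_018119_an_MY.DefsH
import Pool.Agent.Lib.MP_018119_an_MY.AreaD

/-!
# MY: the annular regions
-/

set_option autoImplicit false

open Topology Filter Set Metric MeasureTheory

namespace Pool.Agent.MY018

/-- PROOF. `2 t < r`, `2 κ t < R` and monotonicity of `h` with `hR1`, `hR2`. -/
theorem u_sub {C : Set ℂ} {G₁ G₂ : ℂ → ℂ} {h : ℝ → ℝ} {x₀ r R : ℝ}
    (hL : LD C G₁ G₂ h x₀ r R) {t κ : ℝ} (ht : 0 < t) (htr : 2 * t < r) (hκ : 0 < κ)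
    (htR : 2 * κ * t < R) : U1 x₀ t ⊆ ubox x₀ r ∧ U2 h x₀ t κ ⊆ lbox (h x₀) R := by
  have h1 := hL.mono (show x₀ + 2 * t < x₀ + r by linarith)
  have h2 := hL.mono (show x₀ - r < x₀ - 2 * t by linarith)
  have h3 := hL.hR1
  have h4 := hL.hR2
  constructor
  · rintro w ⟨a1, a2, a3, a4, -⟩
    exact ⟨abs_le.2 ⟨by linarith, by linarith⟩, a3, by linarith⟩
  · rintro w ⟨a1, a2, a3, a4, -⟩
    exact ⟨abs_le.2 ⟨by linarith, by linarith⟩, by linarith, a4⟩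

private theorem regA_m1 (x₀ t : ℝ) : MeasurableSet (U1 x₀ t) := by
  have h : U1 x₀ t = {w : ℂ | x₀ - 2 * t < w.re} ∩ ({w : ℂ | w.re < x₀ + 2 * t} ∩
      ({w : ℂ | 0 ≤ w.im} ∩ ({w : ℂ | w.im < 2 * t} ∩ ({w : ℂ | w.re < x₀ - t} ∪
      ({w : ℂ | x₀ + t < w.re} ∪ {w : ℂ | t < w.im}))))) := rfl
  rw [h]
  have hre := Complex.measurable_re
  have him := Complex.measurable_im
  exact (measurableSet_lt measurable_const hre).inter ((measurableSet_lt hre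
    measurable_const).inter ((measurableSet_le measurable_const him).inter
    ((measurableSet_lt him measurable_const).inter ((measurableSet_lt hre measurable_const).union
    ((measurableSet_lt measurable_const hre).union (measurableSet_lt measurable_const him))))))

private theorem regA_m2 (h : ℝ → ℝ) (x₀ t κ : ℝ) : MeasurableSet (U2 h x₀ t κ) := by
  have h : U2 h x₀ t κ = {w : ℂ | h (x₀ - 2 * t) < w.re} ∩ ({w : ℂ | w.re < h (x₀ + 2 * t)} ∩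
      ({w : ℂ | -(2 * κ * t) < w.im} ∩ ({w : ℂ | w.im ≤ 0} ∩ ({w : ℂ | w.re < h (x₀ - t)} ∪
      ({w : ℂ | h (x₀ + t) < w.re} ∪ {w : ℂ | w.im < -(κ * t)}))))) := rfl
  rw [h]
  have hre := Complex.measurable_re
  have him := Complex.measurable_im
  exact (measurableSet_lt measurable_const hre).inter ((measurableSet_lt hre
    measurable_const).inter ((measurableSet_lt measurable_const him).inter
    ((measurableSet_le him measurable_const).inter ((measurableSet_lt hre measurable_const).union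
    ((measurableSet_lt measurable_const hre).union (measurableSet_lt him measurable_const))))))

/-- PROOF. `MeasurableSet.image_of_continuousOn_injOn` (Lusin-Souslin) for the Borel sets `U1`, `U2`. -/
theorem aa_meas {C : Set ℂ} {G₁ G₂ : ℂ → ℂ} {h : ℝ → ℝ} {x₀ r R : ℝ}
    (hL : LD C G₁ G₂ h x₀ r R) {t κ : ℝ} (ht : 0 < t) (htr : 2 * t < r) (hκ : 0 < κ)
    (htR : 2 * κ * t < R) : MeasurableSet (AA G₁ G₂ h x₀ t κ) := by
  obtain ⟨h1, h2⟩ := u_sub hL ht htr hκ htR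
  exact ((regA_m1 x₀ t).image_of_continuousOn_injOn (hL.c1.mono h1) (hL.i1.mono h1)).union
    ((regA_m2 h x₀ t κ).image_of_continuousOn_injOn (hL.c2.mono h2) (hL.i2.mono h2))

/-- PROOF. Since `2 t' ≤ t`, `U1 x₀ t` and `U1 x₀ t'` are disjoint (a point of `U1 x₀ t'` has
`|re - x₀| < 2 t' ≤ t` and `im < 2 t' ≤ t`), and `U2 h x₀ t κ`, `U2 h x₀ t' κ` too (`h` is monotone). So the images
under `G₁` (under `G₂`) are disjoint by injectivity. If `G₁ u = G₂ v` with `u ∈ U1 x₀ t`, `v ∈ U2 h x₀ t' κ`, then by `sep` `u.im = v.im = 0`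
and `v.re = h u.re`; `u` in `U1 x₀ t` with `im = 0` has `u.re < x₀ - t` or `u.re > x₀ + t`, while
`h (x₀ - 2 t') < v.re < h (x₀ + 2 t')` gives `x₀ - 2 t' < u.re < x₀ + 2 t'`, a contradiction; similarly for
`u ∈ U1 x₀ t'`, `v ∈ U2 h x₀ t κ`. -/
theorem aa_disj {C : Set ℂ} {G₁ G₂ : ℂ → ℂ} {h : ℝ → ℝ} {x₀ r R : ℝ}
    (hL : LD C G₁ G₂ h x₀ r R) {t t' κ : ℝ} (ht : 0 < t) (htr : 2 * t < r) (hκ : 0 < κ)
    (htR : 2 * κ * t < R) (ht' : 0 < t') (htt : 2 * t' ≤ t) :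
    Disjoint (AA G₁ G₂ h x₀ t κ) (AA G₁ G₂ h x₀ t' κ) := by
  have htr' : 2 * t' < r := by linarith
  have hκt : κ * (2 * t') ≤ κ * t := mul_le_mul_of_nonneg_left htt hκ.le
  have hκt' : 0 < κ * t' := mul_pos hκ ht'
  have htR' : 2 * κ * t' < R := by nlinarith
  obtain ⟨h1, h2⟩ := u_sub hL ht htr hκ htR
  obtain ⟨h1', h2'⟩ := u_sub hL ht' htr' hκ htR'
  have m1 := hL.mono.monotone (show x₀ - t ≤ x₀ - 2 * t' by linarith)
  have m2 := hL.mono.monotone (show x₀ + 2 * t' ≤ x₀ + t by linarith)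
  rw [Set.disjoint_left]
  rintro z (⟨u, hu, rfl⟩ | ⟨v, hv, rfl⟩) (⟨u', hu', he⟩ | ⟨v', hv', he⟩)
  · have e := hL.i1 (h1' hu') (h1 hu) he
    rw [e] at hu'
    obtain ⟨a1, a2, a3, a4, -⟩ := hu'
    obtain ⟨-, -, -, -, a5⟩ := hu
    rcases a5 with a5 | a5 | a5 <;> linarith
  · obtain ⟨e1, e2, e3⟩ := hL.sep u (h1 hu) v' (h2' hv') he.symm
    obtain ⟨a1, a2, -, -, -⟩ := hv'
    rw [e3] at a1 a2
    have b1 := hL.mono.lt_iff_lt.1 a1
    have b2 := hL.mono.lt_iff_lt.1 a2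
    obtain ⟨-, -, -, -, a5⟩ := hu
    rcases a5 with a5 | a5 | a5 <;> linarith
  · obtain ⟨e1, e2, e3⟩ := hL.sep u' (h1' hu') v (h2 hv) he
    obtain ⟨a1, a2, -, -, -⟩ := hu'
    have b1 := hL.mono a1
    have b2 := hL.mono a2
    obtain ⟨-, -, -, -, a5⟩ := hv
    rw [e3, e2] at a5
    have : 0 < κ * t := mul_pos hκ ht
    rcases a5 with a5 | a5 | a5 <;> linarith
  · have e := hL.i2 (h2' hv') (h2 hv) he
    rw [e] at hv'
    obtain ⟨a1, a2, a3, a4, -⟩ := hv'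
    obtain ⟨-, -, -, -, a5⟩ := hv
    rcases a5 with a5 | a5 | a5 <;> linarith

/-- PROOF. `G₁` is continuous at `x₀` within `ubox x₀ r`, `G₂` at `h x₀` within `lbox (h x₀) R`, and
`G₂ (h x₀) = G₁ x₀`; `h` is continuous. -/
theorem aa_small {C : Set ℂ} {G₁ G₂ : ℂ → ℂ} {h : ℝ → ℝ} {x₀ r R : ℝ}
    (hL : LD C G₁ G₂ h x₀ r R) {κ : ℝ} (hκ : 0 < κ) {ε : ℝ} (hε : 0 < ε) :
    ∀ᶠ t in 𝓝[>] (0 : ℝ), AA G₁ G₂ h x₀ t κ ⊆ ball (G₁ x₀) ε := by
  have hr := hL.rpos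
  have hR := hL.Rpos
  have hx : (x₀ : ℂ) ∈ ubox x₀ r := by
    refine ⟨?_, ?_, ?_⟩
    · rw [Complex.ofReal_re, sub_self, abs_zero]
      exact hr.le
    · rw [Complex.ofReal_im]
    · rw [Complex.ofReal_im]
      exact hr.le
  have hhx : ((h x₀ : ℝ) : ℂ) ∈ lbox (h x₀) R := by
    refine ⟨?_, ?_, ?_⟩
    · rw [Complex.ofReal_re, sub_self, abs_zero]
      exact hR.le
    · rw [Complex.ofReal_im]
      linarith
    · rw [Complex.ofReal_im]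
  obtain ⟨δ, hδ, h1⟩ := Metric.continuousWithinAt_iff.1 (hL.c1 _ hx) ε hε
  obtain ⟨δ', hδ', h2⟩ := Metric.continuousWithinAt_iff.1 (hL.c2 _ hhx) ε hε
  have hw : G₁ (x₀ : ℂ) = G₂ ((h x₀ : ℝ) : ℂ) := hL.wel x₀ ⟨by linarith, by linarith⟩
  have c1 : Tendsto (fun t : ℝ => h (x₀ + 2 * t)) (𝓝 0) (𝓝 (h x₀)) := by
    have h3 : Continuous fun t : ℝ => h (x₀ + 2 * t) := hL.hc.comp (by fun_prop)
    have h4 := h3.tendsto 0
    rwa [mul_zero, add_zero] at h4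
  have c2 : Tendsto (fun t : ℝ => h (x₀ - 2 * t)) (𝓝 0) (𝓝 (h x₀)) := by
    have h3 : Continuous fun t : ℝ => h (x₀ - 2 * t) := hL.hc.comp (by fun_prop)
    have h4 := h3.tendsto 0
    rwa [mul_zero, sub_zero] at h4
  have e1 : ∀ᶠ t in 𝓝[>] (0 : ℝ), h (x₀ + 2 * t) < h x₀ + δ' / 2 :=
    (c1.eventually (gt_mem_nhds (by linarith))).filter_mono nhdsWithin_le_nhds
  have e2 : ∀ᶠ t in 𝓝[>] (0 : ℝ), h x₀ - δ' / 2 < h (x₀ - 2 * t) :=
    (c2.eventually (lt_mem_nhds (by linarith))).filter_mono nhdsWithin_le_nhds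
  have e3 : ∀ᶠ t in 𝓝[>] (0 : ℝ), 0 < t := self_mem_nhdsWithin
  have e4 : ∀ᶠ t in 𝓝[>] (0 : ℝ), t < r / 2 :=
    (gt_mem_nhds (by positivity)).filter_mono nhdsWithin_le_nhds
  have e5 : ∀ᶠ t in 𝓝[>] (0 : ℝ), t < R / (2 * κ) :=
    (gt_mem_nhds (by positivity)).filter_mono nhdsWithin_le_nhds
  have e6 : ∀ᶠ t in 𝓝[>] (0 : ℝ), t < δ / 4 :=
    (gt_mem_nhds (by positivity)).filter_mono nhdsWithin_le_nhds
  have e7 : ∀ᶠ t in 𝓝[>] (0 : ℝ), t < δ' / (4 * κ) :=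
    (gt_mem_nhds (by positivity)).filter_mono nhdsWithin_le_nhds
  filter_upwards [e1, e2, e3, e4, e5, e6, e7] with t a1 a2 a3 a4 a5 a6 a7
  rw [lt_div_iff₀ (by positivity)] at a5 a7
  obtain ⟨s1, s2⟩ := u_sub hL a3 (by linarith) hκ (show 2 * κ * t < R by linarith)
  rintro z (⟨u, hu, rfl⟩ | ⟨v, hv, rfl⟩)
  · rw [mem_ball]
    refine h1 (s1 hu) ?_
    obtain ⟨b1, b2, b3, b4, -⟩ := hu
    rw [dist_eq_norm]
    refine lt_of_le_of_lt (Complex.norm_le_abs_re_add_abs_im _) ?_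
    rw [Complex.sub_re, Complex.sub_im, Complex.ofReal_re, Complex.ofReal_im, sub_zero,
      abs_of_nonneg b3]
    have b5 : |u.re - x₀| < 2 * t := abs_lt.2 ⟨by linarith, by linarith⟩
    linarith
  · rw [mem_ball, hw]
    refine h2 (s2 hv) ?_
    obtain ⟨b1, b2, b3, b4, -⟩ := hv
    rw [dist_eq_norm]
    refine lt_of_le_of_lt (Complex.norm_le_abs_re_add_abs_im _) ?_
    rw [Complex.sub_re, Complex.sub_im, Complex.ofReal_re, Complex.ofReal_im, sub_zero,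
      abs_of_nonpos b4]
    have b5 : |v.re - h x₀| < δ' / 2 := abs_lt.2 ⟨by linarith, by linarith⟩
    linarith

/-- PROOF. `lintegral_holo` for `G₁` on `U1 x₀ t ∩ {0 < im}` and `G₂` on `U2 h x₀ t κ ∩ {im < 0}` with
`g = ρ ^ 2`; the two images are disjoint (`sep`), measurable (Lusin-Souslin), and contained in `AA`. -/
theorem aa_int {C : Set ℂ} {G₁ G₂ : ℂ → ℂ} {h : ℝ → ℝ} {x₀ r R : ℝ}
    (hL : LD C G₁ G₂ h x₀ r R) {t κ : ℝ} (ht : 0 < t) (htr : 2 * t < r) (hκ : 0 < κ)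
    (htR : 2 * κ * t < R) (ρ : ℂ → ENNReal) :
    (∫⁻ w in U1 x₀ t ∩ {w | 0 < w.im}, ρ (G₁ w) ^ 2 * ‖deriv G₁ w‖ₑ ^ 2) +
      (∫⁻ w in U2 h x₀ t κ ∩ {w | w.im < 0}, ρ (G₂ w) ^ 2 * ‖deriv G₂ w‖ₑ ^ 2) ≤
      ∫⁻ z in AA G₁ G₂ h x₀ t κ, ρ z ^ 2 := by
  obtain ⟨h1, h2⟩ := u_sub hL ht htr hκ htR
  have o1 : IsOpen {w : ℂ | 0 < w.im} := isOpen_lt continuous_const Complex.continuous_im
  have o2 : IsOpen {w : ℂ | w.im < 0} := isOpen_lt Complex.continuous_im continuous_const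
  have m1 : MeasurableSet (U1 x₀ t ∩ {w | 0 < w.im}) := (regA_m1 x₀ t).inter o1.measurableSet
  have m2 : MeasurableSet (U2 h x₀ t κ ∩ {w | w.im < 0}) :=
    (regA_m2 h x₀ t κ).inter o2.measurableSet
  have j1 : InjOn G₁ (U1 x₀ t ∩ {w | 0 < w.im}) := hL.i1.mono (inter_subset_left.trans h1)
  have j2 : InjOn G₂ (U2 h x₀ t κ ∩ {w | w.im < 0}) := hL.i2.mono (inter_subset_left.trans h2)
  rw [← lintegral_holo m1 (fun z hz => hL.d1.differentiableAt (o1.mem_nhds hz.2)) j1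
    (fun z => ρ z ^ 2),
    ← lintegral_holo m2 (fun z hz => hL.d2.differentiableAt (o2.mem_nhds hz.2)) j2
    (fun z => ρ z ^ 2)]
  have n2 : MeasurableSet (G₂ '' (U2 h x₀ t κ ∩ {w | w.im < 0})) :=
    m2.image_of_continuousOn_injOn (hL.c2.mono (inter_subset_left.trans h2)) j2
  have hd : Disjoint (G₁ '' (U1 x₀ t ∩ {w | 0 < w.im})) (G₂ '' (U2 h x₀ t κ ∩ {w | w.im < 0})) := by
    rw [Set.disjoint_left]
    rintro z ⟨u, hu, rfl⟩ ⟨v, hv, he⟩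
    have e1 := (hL.sep u (h1 hu.1) v (h2 hv.1) he.symm).1
    have e2 : 0 < u.im := hu.2
    linarith
  rw [← lintegral_union n2 hd]
  exact lintegral_mono_set (union_subset_union (image_mono inter_subset_left)
    (image_mono inter_subset_left))

end Pool.Agent.MY018
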