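import Pool.Agent.Lib.MP_018119_an_MY.ModI
import Pool.Agent.Lib.MP_018119_an_MY.PathL
import Pool.Agent.Lib.MP_018119_an_MY.RegA

/-!
# MY: points with regular welding are surrounded by loops with divergent modulus
-/

set_option autoImplicit false

open Topology Filter Set Metric MeasureTheory

namespace Pool.Agent.MY018

private theorem LoopH_meas {G : ℂ → ℂ} {T : Set ℂ} (hT : MeasurableSet T) (hG : ContinuousOn G T)
    {S : Set ℂ} (hS : MeasurableSet S) (hST : S ⊆ T) {ρ : ℂ → ENNReal} (hρ : Measurable ρ) :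
    Measurable (S.indicator fun w => ρ (G w) * ‖deriv G w‖ₑ) := by
  classical
  have h1 : Measurable (T.piecewise G fun _ => 0) :=
    hG.measurable_piecewise continuousOn_const hT
  have h2 : (S.indicator fun w => ρ (G w) * ‖deriv G w‖ₑ) =
      S.indicator fun w => ρ (T.piecewise G (fun _ => 0) w) * ‖deriv G w‖ₑ := by
    funext w
    by_cases hw : w ∈ S
    · rw [indicator_of_mem hw, indicator_of_mem hw, piecewise_eq_of_mem _ _ _ (hST hw)]
    · rw [indicator_of_notMem hw, indicator_of_notMem hw]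
  rw [h2]
  exact ((hρ.comp h1).mul (measurable_deriv G).enorm).indicator hS

private theorem LoopH_sq {S U : Set ℂ} (hS : MeasurableSet S) (hSU : S ⊆ U) (g : ℂ → ENNReal)
    (d : ℂ → ENNReal) :
    ∫⁻ w in U, (S.indicator (fun w => g w * d w) w) ^ 2 = ∫⁻ w in S, g w ^ 2 * d w ^ 2 := by
  have h1 : (fun w => (S.indicator (fun w => g w * d w) w) ^ 2) =
      S.indicator fun w => g w ^ 2 * d w ^ 2 := by
    funext w
    by_cases hw : w ∈ S
    · rw [indicator_of_mem hw, indicator_of_mem hw, mul_pow]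
    · rw [indicator_of_notMem hw, indicator_of_notMem hw, zero_pow (by norm_num)]
  rw [h1, lintegral_indicator hS, Measure.restrict_restrict hS, inter_eq_self_of_subset_left hSU]

private theorem LoopH_U1 (x₀ t : ℝ) : MeasurableSet (U1 x₀ t ∩ {w : ℂ | 0 < w.im}) := by
  have hre := Complex.measurable_re
  have him := Complex.measurable_im
  refine MeasurableSet.inter ?_ (measurableSet_lt measurable_const him)
  refine (measurableSet_lt measurable_const hre).inter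
    ((measurableSet_lt hre measurable_const).inter
    ((measurableSet_le measurable_const him).inter ((measurableSet_lt him measurable_const).inter
    ((measurableSet_lt hre measurable_const).union ((measurableSet_lt measurable_const hre).union
    (measurableSet_lt measurable_const him))))))

private theorem LoopH_U2 (h : ℝ → ℝ) (x₀ t κ : ℝ) :
    MeasurableSet (U2 h x₀ t κ ∩ {w : ℂ | w.im < 0}) := by
  have hre := Complex.measurable_re
  have him := Complex.measurable_im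
  refine MeasurableSet.inter ?_ (measurableSet_lt him measurable_const)
  refine (measurableSet_lt measurable_const hre).inter
    ((measurableSet_lt hre measurable_const).inter
    ((measurableSet_lt measurable_const him).inter ((measurableSet_le him measurable_const).inter
    ((measurableSet_lt hre measurable_const).union ((measurableSet_lt measurable_const hre).union
    (measurableSet_lt him measurable_const))))))

private theorem LoopH_mod {C : Set ℂ} {G₁ G₂ : ℂ → ℂ} {h : ℝ → ℝ} {x₀ r R : ℝ}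
    (hL : LD C G₁ G₂ h x₀ r R) {κ : ℝ} (hκ : 0 < κ) {B : Set ℝ} {m t : ℝ} (ht : 0 < t)
    (htr : 2 * t < r) (htR : 2 * κ * t < R)
    (hmod : ∀ (ρ₁ ρ₂ : ℂ → ENNReal), Measurable ρ₁ → Measurable ρ₂ →
      (∀ a ∈ B ∩ Ioo (x₀ - 2 * t) (x₀ - t), ∀ b ∈ B ∩ Ioo (x₀ + t) (x₀ + 2 * t),
        ∀ s ∈ Ioo t (2 * t), ∀ s' ∈ Ioo (κ * t) (2 * κ * t),
        1 ≤ ((∫⁻ y in Ioo 0 s, ρ₁ ⟨a, y⟩) + (∫⁻ x in Ioo a b, ρ₁ ⟨x, s⟩) +
          (∫⁻ y in Ioo 0 s, ρ₁ ⟨b, y⟩)) + ((∫⁻ y in Ioo 0 s', ρ₂ ⟨h b, -y⟩) +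
          (∫⁻ x in Ioo (h a) (h b), ρ₂ ⟨x, -s'⟩) + (∫⁻ y in Ioo 0 s', ρ₂ ⟨h a, -y⟩))) →
      ENNReal.ofReal m ≤ (∫⁻ w in U1 x₀ t, ρ₁ w ^ 2) + ∫⁻ w in U2 h x₀ t κ, ρ₂ w ^ 2) :
    ModGe C (G₁ x₀) (AA G₁ G₂ h x₀ t κ) m := by
  intro ρ hρ hadm
  have hκt : 0 < κ * t := mul_pos hκ ht
  have hup : IsOpen {w : ℂ | 0 < w.im} := isOpen_lt continuous_const Complex.continuous_im
  have hlo : IsOpen {w : ℂ | w.im < 0} := isOpen_lt Complex.continuous_im continuous_const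
  set S₁ : Set ℂ := U1 x₀ t ∩ {w | 0 < w.im} with hS₁
  set S₂ : Set ℂ := U2 h x₀ t κ ∩ {w | w.im < 0} with hS₂
  set ρ₁ : ℂ → ENNReal := S₁.indicator fun w => ρ (G₁ w) * ‖deriv G₁ w‖ₑ with hρ₁
  set ρ₂ : ℂ → ENNReal := S₂.indicator fun w => ρ (G₂ w) * ‖deriv G₂ w‖ₑ with hρ₂
  have hm₁ : Measurable ρ₁ := LoopH_meas hup.measurableSet hL.d1.continuousOn (LoopH_U1 x₀ t)
    inter_subset_right hρ
  have hm₂ : Measurable ρ₂ := LoopH_meas hlo.measurableSet hL.d2.continuousOn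
    (LoopH_U2 h x₀ t κ) inter_subset_right hρ
  have e₁ : ∀ w ∈ S₁, ρ (G₁ w) * ‖deriv G₁ w‖ₑ = ρ₁ w := fun w hw =>
    (indicator_of_mem hw (fun w => ρ (G₁ w) * ‖deriv G₁ w‖ₑ)).symm
  have e₂ : ∀ w ∈ S₂, ρ (G₂ w) * ‖deriv G₂ w‖ₑ = ρ₂ w := fun w hw =>
    (indicator_of_mem hw (fun w => ρ (G₂ w) * ‖deriv G₂ w‖ₑ)).symm
  refine (hmod ρ₁ ρ₂ hm₁ hm₂ ?_).trans ?_
  · intro a ha b hb s hs s' hs'
    obtain ⟨-, ha1, ha2⟩ := ha
    obtain ⟨-, hb1, hb2⟩ := hb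
    obtain ⟨hs1, hs2⟩ := hs
    obtain ⟨hs1', hs2'⟩ := hs'
    have hha1 := hL.mono ha1
    have hha2 := hL.mono ha2
    have hhb1 := hL.mono hb1
    have hhb2 := hL.mono hb2
    have hhab : h a < h b := hL.mono (by linarith)
    have h2κ : 2 * κ * t = 2 * (κ * t) := by ring
    have hA : G₁ '' us a b s ∪ G₂ '' ls (h a) (h b) s' ⊆ AA G₁ G₂ h x₀ t κ := by
      refine union_subset_union (image_mono ?_) (image_mono ?_)
      · rintro w ⟨w1, w2, w3, w4, w5⟩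
        refine ⟨by linarith, by linarith, w3, by linarith, ?_⟩
        rcases w5 with w5 | w5 | w5
        · exact Or.inl (by linarith)
        · exact Or.inr (Or.inl (by linarith))
        · exact Or.inr (Or.inr (by linarith))
      · rintro w ⟨w1, w2, w3, w4, w5⟩
        refine ⟨by linarith, by linarith, by linarith, w4, ?_⟩
        rcases w5 with w5 | w5 | w5
        · exact Or.inl (by linarith)
        · exact Or.inr (Or.inl (by linarith))
        · exact Or.inr (Or.inr (by linarith))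
    obtain ⟨σ, hσ, hbd⟩ := exists_loop hL (a := a) (b := b) (s := s) (s' := s') (by linarith)
      (by linarith) (by linarith) (by linarith) (by linarith) (by linarith) (by linarith)
      (by linarith) hA
    refine (hadm σ hσ).trans ((hbd ρ hρ).trans (le_of_eq ?_))
    have q1 : ∫⁻ y in Ioo 0 s, ρ (G₁ ⟨a, y⟩) * ‖deriv G₁ ⟨a, y⟩‖ₑ =
        ∫⁻ y in Ioo 0 s, ρ₁ ⟨a, y⟩ := by
      refine setLIntegral_congr_fun measurableSet_Ioo fun y hy => ?_
      have hmem : (⟨a, y⟩ : ℂ) ∈ S₁ :=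
        ⟨⟨ha1, by show a < _; linarith, hy.1.le, by show y < _; linarith [hy.2], Or.inl ha2⟩, hy.1⟩
      exact e₁ _ hmem
    have q2 : ∫⁻ x in Ioo a b, ρ (G₁ ⟨x, s⟩) * ‖deriv G₁ ⟨x, s⟩‖ₑ =
        ∫⁻ x in Ioo a b, ρ₁ ⟨x, s⟩ := by
      refine setLIntegral_congr_fun measurableSet_Ioo fun x hx => ?_
      have hmem : (⟨x, s⟩ : ℂ) ∈ S₁ :=
        ⟨⟨by show _ < x; linarith [hx.1], by show x < _; linarith [hx.2], by show 0 ≤ s; linarith,
          hs2, Or.inr (Or.inr hs1)⟩, by show 0 < s; linarith⟩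
      exact e₁ _ hmem
    have q3 : ∫⁻ y in Ioo 0 s, ρ (G₁ ⟨b, y⟩) * ‖deriv G₁ ⟨b, y⟩‖ₑ =
        ∫⁻ y in Ioo 0 s, ρ₁ ⟨b, y⟩ := by
      refine setLIntegral_congr_fun measurableSet_Ioo fun y hy => ?_
      have hmem : (⟨b, y⟩ : ℂ) ∈ S₁ :=
        ⟨⟨by show _ < b; linarith, hb2, hy.1.le, by show y < _; linarith [hy.2],
          Or.inr (Or.inl hb1)⟩, hy.1⟩
      exact e₁ _ hmem
    have q4 : ∫⁻ y in Ioo 0 s', ρ (G₂ ⟨h b, -y⟩) * ‖deriv G₂ ⟨h b, -y⟩‖ₑ =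
        ∫⁻ y in Ioo 0 s', ρ₂ ⟨h b, -y⟩ := by
      refine setLIntegral_congr_fun measurableSet_Ioo fun y hy => ?_
      have hmem : (⟨h b, -y⟩ : ℂ) ∈ S₂ :=
        ⟨⟨by show _ < h b; linarith, hhb2, by show _ < -y; linarith [hy.2],
          by show -y ≤ 0; linarith [hy.1], Or.inr (Or.inl hhb1)⟩, by show -y < 0; linarith [hy.1]⟩
      exact e₂ _ hmem
    have q5 : ∫⁻ x in Ioo (h a) (h b), ρ (G₂ ⟨x, -s'⟩) * ‖deriv G₂ ⟨x, -s'⟩‖ₑ =
        ∫⁻ x in Ioo (h a) (h b), ρ₂ ⟨x, -s'⟩ := by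
      refine setLIntegral_congr_fun measurableSet_Ioo fun x hx => ?_
      have hmem : (⟨x, -s'⟩ : ℂ) ∈ S₂ :=
        ⟨⟨by show _ < x; linarith [hx.1], by show x < _; linarith [hx.2],
          by show _ < -s'; linarith, by show -s' ≤ 0; linarith,
          Or.inr (Or.inr (by show -s' < _; linarith))⟩, by show -s' < 0; linarith⟩
      exact e₂ _ hmem
    have q6 : ∫⁻ y in Ioo 0 s', ρ (G₂ ⟨h a, -y⟩) * ‖deriv G₂ ⟨h a, -y⟩‖ₑ =
        ∫⁻ y in Ioo 0 s', ρ₂ ⟨h a, -y⟩ := by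
      refine setLIntegral_congr_fun measurableSet_Ioo fun y hy => ?_
      have hmem : (⟨h a, -y⟩ : ℂ) ∈ S₂ :=
        ⟨⟨hha1, by show h a < _; linarith, by show _ < -y; linarith [hy.2],
          by show -y ≤ 0; linarith [hy.1], Or.inl hha2⟩, by show -y < 0; linarith [hy.1]⟩
      exact e₂ _ hmem
    rw [q1, q2, q3, q4, q5, q6]
  · rw [hρ₁, hρ₂, LoopH_sq (LoopH_U1 x₀ t) inter_subset_left,
      LoopH_sq (LoopH_U2 h x₀ t κ) inter_subset_left]
    exact aa_int hL ht htr hκ htR ρ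

/-- PROOF. Let `m > 0` be the number of `mod_ineq`. By `hB` there is `t₀ > 0` such that for
`0 < t ≤ t₀` the four conditions hold, `2 t < r` and `2 κ t < R`. Let `t k = t₀ / 2 ^ k`,
`A k = AA G₁ G₂ h x₀ (t k) κ`, `m k = m`. `LoopPt`: `aa_meas`, `aa_disj` (`2 * t l ≤ t k` for
`k < l`), `aa_small`, and a positive constant sequence is not summable. `ModGe C (G₁ x₀) (A k) m`:
write `t = t k` and let `ρ` be as in `ModGe`.
`ρ₁ = indicator (U1 x₀ t ∩ {0 < im}) (w ↦ ρ (G₁ w) * ‖deriv G₁ w‖ₑ)`,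
`ρ₂ = indicator (U2 h x₀ t κ ∩ {im < 0}) (w ↦ ρ (G₂ w) * ‖deriv G₂ w‖ₑ)` are measurable (`G₁` is
continuous on the open upper half plane; `measurable_deriv`). For admissible `a, b, s, s'` the loop
of `exists_loop` is in `A k`: `us a b s ⊆ U1 x₀ t` and `ls (h a) (h b) s' ⊆ U2 h x₀ t κ`
(monotonicity of `h`), so its line integral is `≥ 1`, and in the six integrals the integrand can be
replaced by `ρ₁`, `ρ₂`. `mod_ineq` gives `ENNReal.ofReal m ≤ ∫⁻ U1 ρ₁ ^ 2 + ∫⁻ U2 ρ₂ ^ 2`, which is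
the left hand side of `aa_int` (`mul_pow`, `lintegral_indicator`). -/
theorem loopPt_of_ld {C : Set ℂ} {G₁ G₂ : ℂ → ℂ} {h : ℝ → ℝ} {x₀ r R : ℝ}
    (hL : LD C G₁ G₂ h x₀ r R) {c κ : ℝ} (hc : 0 < c) (hκ : 0 < κ) {B : Set ℝ}
    (hBm : MeasurableSet B) (hBd : ∀ x ∈ B, HasDerivAt h (deriv h x) x ∧ c ≤ deriv h x)
    (hB : ∀ᶠ t in 𝓝[>] (0 : ℝ), ENNReal.ofReal (t / 2) ≤ volume (B ∩ Ioo (x₀ - 2 * t) (x₀ - t)) ∧
        ENNReal.ofReal (t / 2) ≤ volume (B ∩ Ioo (x₀ + t) (x₀ + 2 * t)) ∧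
        h (x₀ + 2 * t) ≤ h x₀ + 4 * κ * t ∧ h x₀ - 4 * κ * t ≤ h (x₀ - 2 * t)) :
    LoopPt C (G₁ x₀) := by
  obtain ⟨m, hm, hmod⟩ := mod_ineq hκ hc
  have hE : ∀ᶠ t in 𝓝[>] (0 : ℝ), (ENNReal.ofReal (t / 2) ≤
        volume (B ∩ Ioo (x₀ - 2 * t) (x₀ - t)) ∧
        ENNReal.ofReal (t / 2) ≤ volume (B ∩ Ioo (x₀ + t) (x₀ + 2 * t)) ∧
        h (x₀ + 2 * t) ≤ h x₀ + 4 * κ * t ∧ h x₀ - 4 * κ * t ≤ h (x₀ - 2 * t)) ∧
        2 * t < r ∧ 2 * κ * t < R := by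
    refine hB.and (Eventually.and ?_ ?_)
    · have h1 : Tendsto (fun t : ℝ => 2 * t) (𝓝[>] 0) (𝓝 (2 * 0)) :=
        ((continuous_const.mul continuous_id).tendsto 0).mono_left nhdsWithin_le_nhds
      rw [mul_zero] at h1
      exact h1.eventually_lt_const hL.rpos
    · have h1 : Tendsto (fun t : ℝ => 2 * κ * t) (𝓝[>] 0) (𝓝 (2 * κ * 0)) :=
        ((continuous_const.mul continuous_id).tendsto 0).mono_left nhdsWithin_le_nhds
      rw [mul_zero] at h1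
      exact h1.eventually_lt_const hL.Rpos
  obtain ⟨t₀, ht₀, hsub⟩ := mem_nhdsGT_iff_exists_Ioc_subset.1 hE
  have ht₀' : 0 < t₀ := ht₀
  have hpos : ∀ k : ℕ, 0 < t₀ / 2 ^ k := fun k => by positivity
  have hmem : ∀ k : ℕ, t₀ / 2 ^ k ∈ Ioc (0 : ℝ) t₀ := fun k =>
    ⟨hpos k, div_le_self ht₀'.le (one_le_pow₀ (by norm_num))⟩
  have hEk := fun k => hsub (hmem k)
  have hlt : ∀ k l : ℕ, k < l → 2 * (t₀ / 2 ^ l) ≤ t₀ / 2 ^ k := by
    intro k l hkl
    have h1 : (2 : ℝ) ^ (k + 1) ≤ 2 ^ l := pow_le_pow_right₀ (by norm_num) hkl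
    have h2 : 2 * (t₀ / 2 ^ l) ≤ 2 * (t₀ / 2 ^ (k + 1)) := by
      refine mul_le_mul_of_nonneg_left ?_ (by norm_num)
      exact div_le_div_of_nonneg_left ht₀'.le (by positivity) h1
    refine h2.trans (le_of_eq ?_)
    rw [pow_succ]
    field_simp
  have hlim : Tendsto (fun k : ℕ => t₀ / 2 ^ k) atTop (𝓝[>] 0) := by
    refine tendsto_nhdsWithin_iff.2 ⟨?_, Eventually.of_forall fun k => hpos k⟩
    have h1 : Tendsto (fun k : ℕ => t₀ * (1 / 2 : ℝ) ^ k) atTop (𝓝 (t₀ * 0)) :=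
      (tendsto_pow_atTop_nhds_zero_of_lt_one (by norm_num) (by norm_num)).const_mul t₀
    rw [mul_zero] at h1
    refine h1.congr fun k => ?_
    rw [one_div, inv_pow, div_eq_mul_inv]
  refine ⟨fun k => AA G₁ G₂ h x₀ (t₀ / 2 ^ k) κ, fun _ => m, ?_, ?_, ?_, fun _ => hm.le, ?_, ?_⟩
  · exact fun k => aa_meas hL (hpos k) (hEk k).2.1 hκ (hEk k).2.2
  · intro k l hkl
    rcases lt_or_gt_of_ne hkl with h1 | h1
    · exact aa_disj hL (hpos k) (hEk k).2.1 hκ (hEk k).2.2 (hpos l) (hlt k l h1)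
    · exact (aa_disj hL (hpos l) (hEk l).2.1 hκ (hEk l).2.2 (hpos k) (hlt l k h1)).symm
  · intro ε hε
    exact hlim.eventually (aa_small hL hκ hε)
  · rw [summable_const_iff]
    exact hm.ne'
  · intro k
    obtain ⟨⟨e1, e2, e3, e4⟩, e5, e6⟩ := hEk k
    exact LoopH_mod hL hκ (B := B) (hpos k) e5 e6
      (hmod h hL.mono hL.hc x₀ (t₀ / 2 ^ k) (hpos k) B hBm hBd e1 e2 e3 e4)

end Pool.Agent.MY018
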