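import Pool.Agent.Lib.MP_018119_an_MY.Defs

/-!
# MY: a map which is small on arbitrarily small loops has a limit
-/

set_option autoImplicit false

open Topology Filter Set Metric MeasureTheory

namespace Pool.Agent.MY018

private theorem LoopLim_nsq (z : ℂ) : ‖z‖ ^ 2 = z.re ^ 2 + z.im ^ 2 := by
  rw [Complex.sq_norm, Complex.normSq_apply]
  ring

private theorem LoopLim_dir (v w : ℂ) : ∃ u : ℂ, ‖u‖ = 1 ∧ u.re * v.re + u.im * v.im ≤ 0 ∧
    u.re * w.re + u.im * w.im ≤ 0 := by
  obtain ⟨u, hu, hv⟩ : ∃ u : ℂ, ‖u‖ = 1 ∧ u.re * v.re + u.im * v.im = 0 := by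
    by_cases hv : v = 0
    · exact ⟨1, norm_one, by simp [hv]⟩
    · have h1 : ‖v‖ ≠ 0 := norm_ne_zero_iff.2 hv
      refine ⟨(‖v‖⁻¹ : ℝ) • (Complex.I * v), ?_, ?_⟩
      · rw [norm_smul, norm_mul, Complex.norm_I, one_mul, norm_inv, norm_norm,
          inv_mul_cancel₀ h1]
      · rw [Complex.smul_re, Complex.smul_im]
        simp only [Complex.mul_re, Complex.mul_im, Complex.I_re, Complex.I_im, smul_eq_mul]
        ring
  by_cases hw : u.re * w.re + u.im * w.im ≤ 0
  · exact ⟨u, hu, hv.le, hw⟩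
  · refine ⟨-u, by rw [norm_neg, hu], ?_, ?_⟩
    · rw [Complex.neg_re, Complex.neg_im]
      linarith
    · rw [Complex.neg_re, Complex.neg_im]
      linarith

private theorem LoopLim_dist {x c u : ℂ} (hu : ‖u‖ = 1)
    (h : u.re * (c - x).re + u.im * (c - x).im ≤ 0) {t : ℝ} (ht : 0 ≤ t) :
    dist x c ≤ dist (x + t * u) c := by
  rw [dist_eq_norm, dist_eq_norm]
  refine le_of_sq_le_sq ?_ (norm_nonneg _)
  rw [LoopLim_nsq, LoopLim_nsq]
  have h1 : (x + t * u - c).re = (x - c).re + t * u.re := by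
    simp
    ring
  have h2 : (x + t * u - c).im = (x - c).im + t * u.im := by
    simp
    ring
  have h3 : (c - x).re = -(x - c).re := by simp
  have h4 : (c - x).im = -(x - c).im := by simp
  have h5 : u.re ^ 2 + u.im ^ 2 = 1 := by rw [← LoopLim_nsq, hu, one_pow]
  rw [h3, h4] at h
  rw [h1, h2]
  have h6 := mul_nonneg ht (show 0 ≤ u.re * (x - c).re + u.im * (x - c).im by linarith)
  have h7 := sq_nonneg t
  nlinarith

/-- A ray from `x` which avoids two discs.
PROOF. Let `v = c₁ - x`, `w = c₂ - x` (both nonzero if the radii are nonnegative; if a radius is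
negative there is nothing to avoid, and one may replace it: the distance only grows). If
`v / ‖v‖ + w / ‖w‖ ≠ 0` let `u` be the unit vector opposite to this sum, otherwise `u = I v / ‖v‖`
(if `v = 0` or `w = 0` take the convention `0 / 0 = 0`; if both vanish `u = 1`). In all cases the real
inner products of `u` with `v` and `w` are `≤ 0`
(for the sum of two unit vectors `a`, `b`: `⟨a + b, a⟩ = 1 + ⟨a, b⟩ ≥ 0`), and then
`‖x + t u - c₁‖ ^ 2 = ‖v‖ ^ 2 - 2 t ⟨u, v⟩ + t ^ 2 ≥ ‖v‖ ^ 2`, so the distance to the centres does not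
decrease along the ray. -/
theorem ray_avoid (x c₁ c₂ : ℂ) :
    ∃ u : ℂ, ‖u‖ = 1 ∧ ∀ t : ℝ, 0 ≤ t →
      dist x c₁ ≤ dist (x + t * u) c₁ ∧ dist x c₂ ≤ dist (x + t * u) c₂ := by
  obtain ⟨u, hu, h1, h2⟩ := LoopLim_dir (c₁ - x) (c₂ - x)
  exact ⟨u, hu, fun t ht => ⟨LoopLim_dist hu h1 ht, LoopLim_dist hu h2 ht⟩⟩

/-- PROOF. If `x ∈ V` is in none of the two discs, take the ray of `ray_avoid`; it is unbounded, so
it leaves `V` (bounded); the set of `t ≥ 0` with `x + t u ∈ V` is relatively open, contains `0` and is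
bounded; at its first exit point `t₀` (supremum of the `t` with `x + [0, t] u ⊆ V`) the point
`x + t₀ u` is in the frontier of `V`, hence in a disc, but its distance to `c_i` is at least
`dist x c_i > r_i`. -/
theorem sub_two_balls {V : Set ℂ} (hV : IsOpen V) (hb : Bornology.IsBounded V) {c₁ c₂ : ℂ}
    {r₁ r₂ : ℝ} (hf : frontier V ⊆ closedBall c₁ r₁ ∪ closedBall c₂ r₂) :
    V ⊆ closedBall c₁ r₁ ∪ closedBall c₂ r₂ := by
  intro x hx
  by_contra hcon
  obtain ⟨u, hu, h⟩ := ray_avoid x c₁ c₂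
  have hpre : IsPreconnected ((fun t : ℝ => x + t * u) '' Ici 0) := by
    refine isPreconnected_Ici.image _ ?_
    exact (continuous_const.add (Complex.continuous_ofReal.mul continuous_const)).continuousOn
  have hnf : ∀ z ∈ (fun t : ℝ => x + t * u) '' Ici 0, z ∉ frontier V := by
    rintro _ ⟨t, ht, rfl⟩ hz
    obtain ⟨h1, h2⟩ := h t ht
    rcases hf hz with h3 | h3
    · exact hcon (Or.inl (h1.trans h3))
    · exact hcon (Or.inr (h2.trans h3))
  have hsub : (fun t : ℝ => x + t * u) '' Ici 0 ⊆ V := by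
    refine hpre.subset_left_of_subset_union hV
      (isClosed_closure (s := V)).isOpen_compl ?_ ?_ ?_
    · exact (disjoint_compl_right (a := closure V)).mono_left subset_closure
    · intro z hz
      by_cases hzV : z ∈ V
      · exact Or.inl hzV
      · right
        intro hzc
        apply hnf z hz
        rw [hV.frontier_eq]
        exact ⟨hzc, hzV⟩
    · exact ⟨x, ⟨0, mem_Ici.2 le_rfl, by simp⟩, hx⟩
  obtain ⟨R, hR⟩ := (isBounded_iff_forall_norm_le.1 hb)
  have h1 : x + ((|R| + ‖x‖ + 1 : ℝ) : ℂ) * u ∈ V :=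
    hsub ⟨|R| + ‖x‖ + 1, mem_Ici.2 (by positivity), rfl⟩
  have h2 := hR _ h1
  have h3 : ‖((|R| + ‖x‖ + 1 : ℝ) : ℂ) * u‖ = |R| + ‖x‖ + 1 := by
    rw [norm_mul, hu, mul_one, Complex.norm_real, Real.norm_of_nonneg (by positivity)]
  have h4 := norm_sub_le (x + ((|R| + ‖x‖ + 1 : ℝ) : ℂ) * u) x
  rw [add_sub_cancel_left, h3] at h4
  have h5 := le_abs_self R
  linarith

private theorem LoopLim_comp {S : Set ℂ} {p : ℂ} {r : ℝ} (hSc : IsCompact S)
    (hSr : S ⊆ ball p r) (hp : p ∉ S) (hr : 0 < r)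
    (hb : Bornology.IsBounded (connectedComponentIn Sᶜ p)) :
    IsOpen (connectedComponentIn Sᶜ p) ∧ p ∈ connectedComponentIn Sᶜ p ∧
      connectedComponentIn Sᶜ p ⊆ ball p r ∧
      closure (connectedComponentIn Sᶜ p) ⊆ connectedComponentIn Sᶜ p ∪ S := by
  have hSo : IsOpen Sᶜ := hSc.isClosed.isOpen_compl
  have ho : IsOpen (connectedComponentIn Sᶜ p) := hSo.connectedComponentIn
  have hpO : p ∈ connectedComponentIn Sᶜ p := mem_connectedComponentIn hp
  refine ⟨ho, hpO, ?_, ?_⟩
  · intro y hy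
    by_contra hyr
    have hyr' : r ≤ dist y p := not_lt.1 hyr
    have hyp : 0 < dist y p := lt_of_lt_of_le hr hyr'
    have hpre : IsPreconnected ((fun t : ℝ => p + t * (y - p)) '' Ici 1) := by
      refine isPreconnected_Ici.image _ ?_
      exact (continuous_const.add
        (Complex.continuous_ofReal.mul continuous_const)).continuousOn
    have hd : ∀ t : ℝ, 1 ≤ t → dist (p + t * (y - p)) p = t * dist y p := by
      intro t ht
      rw [dist_eq_norm, add_sub_cancel_left, norm_mul, Complex.norm_real,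
        Real.norm_of_nonneg (by linarith), dist_eq_norm]
    have hsub : (fun t : ℝ => p + t * (y - p)) '' Ici 1 ⊆ Sᶜ := by
      rintro _ ⟨t, ht, rfl⟩ hS
      have h1 := hSr hS
      rw [mem_ball, hd t ht] at h1
      have h2 : dist y p ≤ t * dist y p := le_mul_of_one_le_left hyp.le ht
      linarith
    have hy1 : y ∈ (fun t : ℝ => p + t * (y - p)) '' Ici 1 :=
      ⟨1, mem_Ici.2 le_rfl, by simp⟩
    have hsub2 := hpre.subset_connectedComponentIn hy1 hsub
    rw [← connectedComponentIn_eq hy] at hsub2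
    obtain ⟨R, hR⟩ := hb.subset_closedBall p
    have h1 : p + ((|R| / dist y p + 1 + 1 : ℝ) : ℂ) * (y - p) ∈ connectedComponentIn Sᶜ p :=
      hsub2 ⟨|R| / dist y p + 1 + 1, mem_Ici.2 (by
        have : 0 ≤ |R| / dist y p := by positivity
        linarith), rfl⟩
    have h2 := hR h1
    have h0 : 0 ≤ |R| / dist y p := by positivity
    rw [mem_closedBall, hd _ (by linarith), add_mul, add_mul, one_mul,
      div_mul_cancel₀ _ hyp.ne'] at h2
    have h3 := le_abs_self R
    linarith
  · intro x hx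
    by_cases hxS : x ∈ S
    · exact Or.inr hxS
    · left
      have hxo : IsOpen (connectedComponentIn Sᶜ x) := hSo.connectedComponentIn
      have hxm : x ∈ connectedComponentIn Sᶜ x := mem_connectedComponentIn hxS
      obtain ⟨z, hz1, hz2⟩ := mem_closure_iff.1 hx _ hxo hxm
      rw [connectedComponentIn_eq hz2, ← connectedComponentIn_eq hz1]
      exact hxm

private theorem LoopLim_two {F : ℂ → ℂ} {p : ℂ} {δ : ℝ} (hc : ContinuousOn F (ball p δ \ {p}))
    (ho : ∀ U ⊆ ball p δ \ {p}, IsOpen U → IsOpen (F '' U))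
    (hb : Bornology.IsBounded (F '' (ball p δ \ {p}))) {O O' S S' : Set ℂ} {s s' : ℂ}
    {η η' : ℝ} (hO : IsOpen O) (hO' : IsOpen O') (hOδ : closure O ⊆ ball p δ)
    (hpO' : p ∈ O') (hOS : closure O ⊆ O ∪ S) (hOS' : closure O' ⊆ O' ∪ S')
    (hs : ∀ x ∈ S, dist (F x) s ≤ η) (hs' : ∀ x ∈ S', dist (F x) s' ≤ η') :
    F '' (O \ closure O') ⊆ closedBall s η ∪ closedBall s' η' := by
  have hΩo : IsOpen (O \ closure O') := hO.sdiff isClosed_closure
  have hΩc : closure (O \ closure O') ⊆ closure O ∩ O'ᶜ := by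
    refine closure_minimal ?_ (isClosed_closure.inter hO'.isClosed_compl)
    rintro x ⟨h1, h2⟩
    exact ⟨subset_closure h1, fun h => h2 (subset_closure h)⟩
  have hΩδ : closure (O \ closure O') ⊆ ball p δ \ {p} := by
    intro x hx
    refine ⟨hOδ (hΩc hx).1, ?_⟩
    rintro rfl
    exact (hΩc hx).2 hpO'
  have hΩ : O \ closure O' ⊆ ball p δ \ {p} := subset_closure.trans hΩδ
  have hV := ho _ hΩ hΩo
  refine sub_two_balls hV (hb.subset (image_mono hΩ)) ?_
  have hcomp : IsCompact (closure (O \ closure O')) :=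
    isCompact_of_isClosed_isBounded isClosed_closure
      ((isBounded_ball (x := p) (r := δ)).subset (hΩδ.trans sdiff_subset))
  have hFc : IsClosed (F '' closure (O \ closure O')) :=
    (hcomp.image_of_continuousOn (hc.mono hΩδ)).isClosed
  intro v hv
  rw [hV.frontier_eq] at hv
  obtain ⟨z, hz, rfl⟩ := closure_minimal (image_mono subset_closure) hFc hv.1
  have hzΩ : z ∉ O \ closure O' := fun h => hv.2 ⟨z, h, rfl⟩
  obtain ⟨h1, h2⟩ := hΩc hz
  by_cases hzO : z ∈ O
  · right
    have h3 : z ∈ closure O' := by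
      by_contra h
      exact hzΩ ⟨hzO, h⟩
    rcases hOS' h3 with h4 | h4
    · exact absurd h4 h2
    · exact hs' z h4
  · left
    rcases hOS h1 with h4 | h4
    · exact absurd h4 hzO
    · exact hs z h4

/-- A bounded open embedding of a punctured disc which maps arbitrarily small sets surrounding `p`
to sets with small diameter has a limit at `p`.
PROOF. For a set `S` as in `hS` (with radius `r < δ`) let `O` be the component of `p` in `Sᶜ`: it is
open (`Sᶜ` is open, plane), bounded, `frontier O ⊆ S`, and `O ⊆ ball p r` (otherwise `O` meets the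
connected unbounded set `(ball p r)ᶜ ⊆ Sᶜ`, hence contains it). Claim: `F '' (O \ {p})` is contained in
the closed disc with centre `F s` and radius `η`, for `s ∈ S` (with `η` the bound for the diameter of
`F '' S`). This proves the theorem: for every `η > 0` there is a neighbourhood `O` of `p` such that
`F '' (O \ {p})` has diameter `≤ 2 η`, so that `F` is Cauchy along `𝓝[≠] p` (nontrivial filter in
the plane), and the plane is complete.
Proof of the claim. Let `η'` be arbitrary and `S'`, `O'`, `s'` similar data with `S' ⊆ ball p r'`, `r'`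
so small that `closedBall p r' ⊆ O` (open). `Ω = O \ closedBall p r'`... more precisely let
`Ω = O \ closure O'` (`closure O' ⊆ closedBall p r' ⊆ O`): an open bounded set, its closure is a compact subset of
`ball p δ \ {p}` (`p ∈ O'`, open), `frontier Ω ⊆ S ∪ S'`. `V = F '' Ω` is open, bounded, and
`frontier V ⊆ F '' (frontier Ω)` (`F '' closure Ω` is compact, contains `V`, and `V = F '' Ω` is
open) `⊆ closedBall (F s) η ∪ closedBall (F s') η'`. By `sub_two_balls`,
`F '' Ω ⊆ closedBall (F s) η ∪ closedBall (F s') η'`. Now apply this with `η' = 1 / (n + 1)` and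
`r' = r'_n → 0`, with `s'_n`: the set
`Z = {x ∈ O \ {p} | F x ∉ closedBall (F s) η}` is open (`F` is continuous) and for `x ∈ Z` we have
`x ∈ Ω_n` for large `n` (`closure O'_n ⊆ closedBall p r'_n`), hence `dist (F x) (F s'_n) ≤ 1 / (n + 1)`:
`F s'_n → F x`. So `F` is constant on `Z`, and `Z` has at most one point (injectivity). An open
subset of the plane with at most one point is empty. -/
theorem loop_lim {F : ℂ → ℂ} {p : ℂ} {δ : ℝ} (hδ : 0 < δ) (hc : ContinuousOn F (ball p δ \ {p}))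
    (hi : InjOn F (ball p δ \ {p})) (ho : ∀ U ⊆ ball p δ \ {p}, IsOpen U → IsOpen (F '' U))
    (hb : Bornology.IsBounded (F '' (ball p δ \ {p})))
    (hS : ∀ r > 0, ∀ η > 0, ∃ S : Set ℂ, IsCompact S ∧ S.Nonempty ∧ S ⊆ ball p r ∧ p ∉ S ∧
      Bornology.IsBounded (connectedComponentIn Sᶜ p) ∧
      ∀ x ∈ S, ∀ y ∈ S, dist (F x) (F y) ≤ η) :
    ∃ L, Tendsto F (𝓝[≠] p) (𝓝 L) := by
  rw [← cauchy_map_iff_exists_tendsto, Metric.cauchy_iff]
  refine ⟨inferInstance, fun ε hε => ?_⟩
  obtain ⟨S, hSc, ⟨s, hsS⟩, hSr, hpS, hbS, hdS⟩ := hS δ hδ (ε / 3) (by positivity)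
  obtain ⟨hO, hpO, hOr, hOc⟩ := LoopLim_comp hSc hSr hpS hδ hbS
  generalize connectedComponentIn Sᶜ p = O at hO hpO hOr hOc hbS
  have hOδ : closure O ⊆ ball p δ := by
    intro x hx
    rcases hOc hx with h | h
    · exact hOr h
    · exact hSr h
  have hclaim : ∀ x ∈ O \ {p}, dist (F x) (F s) ≤ ε / 3 := by
    intro x hx
    by_contra hcon
    have hZo : IsOpen ((O \ {p}) ∩ F ⁻¹' (closedBall (F s) (ε / 3))ᶜ) :=
      (hc.mono (sdiff_subset_sdiff_left hOr)).isOpen_inter_preimage
        (hO.sdiff isClosed_singleton) isClosed_closedBall.isOpen_compl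
    have hxZ : x ∈ (O \ {p}) ∩ F ⁻¹' (closedBall (F s) (ε / 3))ᶜ := ⟨hx, hcon⟩
    have hZn : ∀ᶠ y in 𝓝[≠] x, y ∈ (O \ {p}) ∩ F ⁻¹' (closedBall (F s) (ε / 3))ᶜ :=
      mem_nhdsWithin_of_mem_nhds (hZo.mem_nhds hxZ)
    have hne : ∀ᶠ y in 𝓝[≠] x, y ≠ x := self_mem_nhdsWithin
    have hev := hZn.and hne
    obtain ⟨y, hyZ, hyx⟩ := hev.exists
    apply hyx
    apply hi ⟨hOr hyZ.1.1, hyZ.1.2⟩ ⟨hOr hx.1, hx.2⟩
    rw [← dist_le_zero]
    refine le_of_forall_pos_le_add fun κ hκ => ?_
    obtain ⟨ρ, hρ, hρO⟩ := Metric.isOpen_iff.1 hO p hpO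
    have hxp : 0 < dist x p := dist_pos.2 hx.2
    have hyp : 0 < dist y p := dist_pos.2 hyZ.1.2
    set r' : ℝ := min (min ρ δ) (min (dist x p) (dist y p)) / 2 with hr'
    have hr0 : 0 < min (min ρ δ) (min (dist x p) (dist y p)) :=
      lt_min (lt_min hρ hδ) (lt_min hxp hyp)
    have hr'0 : 0 < r' := by positivity
    have hrx : r' < dist x p := by
      have := (min_le_right (min ρ δ) (min (dist x p) (dist y p))).trans (min_le_left _ _)
      rw [hr']
      linarith
    have hry : r' < dist y p := by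
      have := (min_le_right (min ρ δ) (min (dist x p) (dist y p))).trans (min_le_right _ _)
      rw [hr']
      linarith
    obtain ⟨S', hSc', ⟨s', hsS'⟩, hSr', hpS', hbS', hdS'⟩ := hS r' hr'0 (κ / 2) (by positivity)
    obtain ⟨hO', hpO', hOr', hOc'⟩ := LoopLim_comp hSc' hSr' hpS' hr'0 hbS'
    generalize connectedComponentIn S'ᶜ p = O' at hO' hpO' hOr' hOc' hbS'
    have hO'c : closure O' ⊆ ball p r' := by
      intro z hz
      rcases hOc' hz with h | h
      · exact hOr' h
      · exact hSr' h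
    have htwo := LoopLim_two hc ho hb hO hO' hOδ hpO' hOc hOc'
      (fun z hz => hdS z hz s hsS) (fun z hz => hdS' z hz s' hsS')
    have hpt : ∀ z ∈ (O \ {p}) ∩ F ⁻¹' (closedBall (F s) (ε / 3))ᶜ, r' < dist z p →
        dist (F z) (F s') ≤ κ / 2 := by
      rintro z ⟨hz1, hz2⟩ hzr
      have h1 : z ∈ O \ closure O' := by
        refine ⟨hz1.1, fun h => ?_⟩
        have h2 := hO'c h
        rw [mem_ball] at h2
        linarith
      rcases htwo ⟨z, h1, rfl⟩ with h2 | h2
      · exact absurd h2 hz2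
      · exact h2
    have h1 := hpt x hxZ hrx
    have h2 := hpt y hyZ hry
    have h3 := dist_triangle_right (F y) (F x) (F s')
    linarith
  refine ⟨F '' (O \ {p}), image_mem_map ?_, ?_⟩
  · exact inter_mem (mem_nhdsWithin_of_mem_nhds (hO.mem_nhds hpO)) self_mem_nhdsWithin
  · rintro _ ⟨x, hx, rfl⟩ _ ⟨y, hy, rfl⟩
    have h1 := hclaim x hx
    have h2 := hclaim y hy
    have h3 := dist_triangle_right (F x) (F y) (F s)
    linarith

end Pool.Agent.MY018
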