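import Pool.Agent.Lib.MP_018119_an_MY.LoopLim
import Pool.Agent.Lib.MP_018119_an_MY.PathD
import Pool.Agent.Lib.MP_018119_an_MY.AreaD

/-!
# MY: the length-area argument
-/

set_option autoImplicit false

open Topology Filter Set Metric MeasureTheory

namespace Pool.Agent.MY018

/-- Loops with divergent total modulus exclude holes.
PROOF. Let `F`, `δ` be as in `RPt`, `V = ball p δ \ {p}`, `W = V \ C` (open). We apply `loop_lim`: let
`r, η > 0` and suppose that no set `S` is as required. There is `k₀` such that `A k ⊆ ball p (min r δ)`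
for `k ≥ k₀`. For `k ≥ k₀` and each `σ` with `CLoop C p (A k) σ` the compact set `S = σ '' Icc 0 1` (nonempty,
in `ball p (min r δ)`, does not contain `p`, bounded component: `CLoop`) is not as required, so there
are `x, y ∈ S` with `dist (F x) (F y) > η`, and by `path_dist` (`σ` has its values in `V`)
`ENNReal.ofReal η ≤ ∫⁻ t in Icc 0 1, W.indicator (‖deriv F ·‖ₑ) (σ t) * ‖deriv σ t‖ₑ`. So
`ρ = (ENNReal.ofReal η)⁻¹ * W.indicator (‖deriv F ·‖ₑ)` (measurable: `measurable_deriv`, `W` is open) satisfies the condition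
of `ModGe`, and `ENNReal.ofReal (m k) ≤ ∫⁻ z in A k, ρ z ^ 2` for `k ≥ k₀`. The sets `A k` are disjoint
and measurable, so (`lintegral_iUnion` or `tsum` of restricted measures)
`∑ k ≥ k₀, ENNReal.ofReal (m k) ≤ ∫⁻ z, ρ z ^ 2 = (ENNReal.ofReal η)⁻¹ ^ 2 * ∫⁻ z in W, ‖deriv F z‖ₑ ^ 2`
`= (ENNReal.ofReal η)⁻¹ ^ 2 * volume (F '' W) < ∞` (`lintegral_holo` with `g = 1`, and `F '' W` is
bounded). Hence `m` is summable (nonnegative terms; finitely many terms do not matter), a
contradiction. -/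
theorem rpt_of_loopPt {C : Set ℂ} (hC : IsClosed C) {p : ℂ} (h : LoopPt C p) : RPt C p := by
  classical
  obtain ⟨A, m, hAm, hAd, hAs, hm0, hms, hmod⟩ := h
  intro F δ hδ hFc hFi hFo hFd hFb
  apply loop_lim hδ hFc hFi hFo hFb
  intro r hr η hη
  by_contra hcon
  apply hms
  have hV : IsOpen (ball p δ \ {p}) := isOpen_ball.sdiff isClosed_singleton
  have hW : IsOpen ((ball p δ \ {p}) \ C) := hV.sdiff hC
  obtain ⟨k0, hk0⟩ := eventually_atTop.1 (hAs (min r δ) (lt_min hr hδ))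
  have hη0 : ENNReal.ofReal η ≠ 0 := by
    rw [Ne, ENNReal.ofReal_eq_zero, not_le]
    exact hη
  have hηt : ENNReal.ofReal η ≠ ⊤ := ENNReal.ofReal_ne_top
  have hinv : (ENNReal.ofReal η)⁻¹ ≠ ⊤ := ENNReal.inv_ne_top.2 hη0
  set ind : ℂ → ENNReal := ((ball p δ \ {p}) \ C).indicator (fun z => ‖deriv F z‖ₑ) with hind
  have hindm : Measurable ind := (measurable_deriv F).enorm.indicator hW.measurableSet
  have hρ : Measurable fun z => (ENNReal.ofReal η)⁻¹ * ind z := hindm.const_mul _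
  have hkey : ∀ k, k0 ≤ k →
      ENNReal.ofReal (m k) ≤ ∫⁻ z in A k, ((ENNReal.ofReal η)⁻¹ * ind z) ^ 2 := by
    intro k hk
    apply hmod k _ hρ
    intro σ hσ
    have hball : ∀ t ∈ Icc (0 : ℝ) 1, σ t ∈ ball p (min r δ) := fun t ht =>
      hk0 k hk (hσ.mem t ht)
    have hex : ∃ x ∈ σ '' Icc 0 1, ∃ y ∈ σ '' Icc 0 1, η < dist (F x) (F y) := by
      by_contra hc
      push Not at hc
      refine hcon ⟨σ '' Icc 0 1, isCompact_Icc.image hσ.cont,
        ⟨σ 0, 0, left_mem_Icc.2 zero_le_one, rfl⟩, ?_, ?_, hσ.sur, hc⟩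
      · rintro _ ⟨t, ht, rfl⟩
        exact ball_subset_ball (min_le_left _ _) (hball t ht)
      · rintro ⟨t, ht, he⟩
        exact hσ.ne t ht he
    obtain ⟨x, hx, y, hy, hxy⟩ := hex
    have h1 := path_dist hV hC hFc hFd hσ.cont (fun t ht =>
      ⟨ball_subset_ball (min_le_right _ _) (hball t ht), hσ.ne t ht⟩) hσ.diff hx hy
    have h2 := (ENNReal.ofReal_le_ofReal hxy.le).trans h1
    have h3 : ∫⁻ t in Icc (0 : ℝ) 1, (ENNReal.ofReal η)⁻¹ * ind (σ t) * ‖deriv σ t‖ₑ =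
        (ENNReal.ofReal η)⁻¹ * ∫⁻ t in Icc (0 : ℝ) 1, ind (σ t) * ‖deriv σ t‖ₑ := by
      rw [← lintegral_const_mul' _ _ hinv]
      refine lintegral_congr fun t => ?_
      rw [mul_assoc]
    rw [h3]
    calc (1 : ENNReal) = (ENNReal.ofReal η)⁻¹ * ENNReal.ofReal η :=
          (ENNReal.inv_mul_cancel hη0 hηt).symm
      _ ≤ (ENNReal.ofReal η)⁻¹ * ∫⁻ t in Icc (0 : ℝ) 1, ind (σ t) * ‖deriv σ t‖ₑ :=
          mul_le_mul_right h2 _
  have htot : ∫⁻ z, ((ENNReal.ofReal η)⁻¹ * ind z) ^ 2 < ⊤ := by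
    have h1 : ∀ z, ((ENNReal.ofReal η)⁻¹ * ind z) ^ 2 = (ENNReal.ofReal η)⁻¹ ^ 2 *
        ((ball p δ \ {p}) \ C).indicator (fun z => 1 * ‖deriv F z‖ₑ ^ 2) z := by
      intro z
      rw [mul_pow]
      congr 1
      by_cases hz : z ∈ (ball p δ \ {p}) \ C
      · rw [hind, indicator_of_mem hz, indicator_of_mem hz, one_mul]
      · rw [hind, indicator_of_notMem hz, indicator_of_notMem hz]
        simp
    have hp : (ENNReal.ofReal η)⁻¹ ^ 2 ≠ ⊤ := ENNReal.pow_ne_top hinv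
    rw [lintegral_congr h1, lintegral_const_mul' _ _ hp, lintegral_indicator hW.measurableSet]
    have h2 := lintegral_holo hW.measurableSet
      (fun z hz => (hFd z hz).differentiableAt (hW.mem_nhds hz)) (hFi.mono sdiff_subset)
      (fun _ => 1)
    rw [← h2]
    refine ENNReal.mul_lt_top hp.lt_top ?_
    rw [setLIntegral_one]
    exact (hFb.subset (image_mono sdiff_subset)).measure_lt_top
  have hsum : ∑' k, ENNReal.ofReal (m (k + k0)) ≠ ⊤ := by
    refine ne_top_of_le_ne_top htot.ne ?_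
    calc ∑' k, ENNReal.ofReal (m (k + k0))
        ≤ ∑' k, ∫⁻ z in A (k + k0), ((ENNReal.ofReal η)⁻¹ * ind z) ^ 2 :=
          ENNReal.tsum_le_tsum fun k => hkey (k + k0) (by omega)
      _ = ∫⁻ z in ⋃ k, A (k + k0), ((ENNReal.ofReal η)⁻¹ * ind z) ^ 2 := by
          rw [lintegral_iUnion (fun k => hAm (k + k0))]
          intro i j hij
          exact hAd (fun h => hij (by omega))
      _ ≤ ∫⁻ z, ((ENNReal.ofReal η)⁻¹ * ind z) ^ 2 := setLIntegral_le_lintegral _ _
  have hs := ENNReal.summable_toReal hsum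
  have hs2 : Summable fun k => m (k + k0) := by
    refine hs.congr fun k => ?_
    rw [ENNReal.toReal_ofReal (hm0 _)]
  exact (summable_nat_add_iff k0).1 hs2

end Pool.Agent.MY018
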