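import Pool.Agent.Lib.MP_018119_an_MY.StripB

/-!
# MY: the local welding data
-/

set_option autoImplicit false

open Topology Filter Set Metric MeasureTheory

namespace Pool.Agent.MY018

/-- PROOF. `R = 1`; by continuity of `h` at `x₀` there is `0 < r ≤ 1` with `h (x₀ + r) ≤ h x₀ + 1` and
`h x₀ - 1 ≤ h (x₀ - r)`. The fields: `c1`, `c2`, `d1`, `d2` are compositions (`exp_mem_...`); `i1`, `i2`: the injectivity
of `f₁`, `f₂` and `exp_inj` (`2 r < 2 π`); `wel` is `GD.wel`; `C1`, `C2`, `sep`, `opn` are in StripA, StripB. -/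
theorem ld_of_gd {C : Set ℂ} {f₁ f₂ : ℂ → ℂ} {h : ℝ → ℝ} (hG : GD C f₁ f₂ h) (x₀ : ℝ) :
    ∃ r R, LD C (hp f₁) (hp f₂) h x₀ r R := by
  have hpi : (3 : ℝ) < Real.pi := Real.pi_gt_three
  obtain ⟨δ, hδ, hδh⟩ := Metric.continuous_iff.mp hG.hc x₀ 1 one_pos
  set r : ℝ := min 1 (δ / 2) with hr
  have hr0 : 0 < r := lt_min one_pos (by linarith)
  have hr1 : r ≤ 1 := min_le_left _ _
  have hr2 : r < δ := lt_of_le_of_lt (min_le_right _ _) (by linarith)
  have h1 : h (x₀ + r) ≤ h x₀ + 1 := by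
    have h2 := hδh (x₀ + r) (by
      rw [Real.dist_eq, add_sub_cancel_left, abs_of_pos hr0]; exact hr2)
    rw [Real.dist_eq] at h2
    have h3 := (abs_lt.mp h2).2
    linarith
  have h2 : h x₀ - 1 ≤ h (x₀ - r) := by
    have h2 := hδh (x₀ - r) (by
      rw [Real.dist_eq, sub_sub_cancel_left, abs_neg, abs_of_pos hr0]; exact hr2)
    rw [Real.dist_eq] at h2
    have h3 := (abs_lt.mp h2).1
    linarith
  have hexc : Continuous (fun w : ℂ => Complex.exp (w * Complex.I)) := by fun_prop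
  have hexd : Differentiable ℂ (fun w : ℂ => Complex.exp (w * Complex.I)) := by fun_prop
  refine ⟨r, 1, ?_⟩
  exact {
    rpos := hr0
    Rpos := one_pos
    c1 := hG.c1.comp hexc.continuousOn (fun w hw => exp_mem_closedBall hw.2.1)
    i1 := by
      intro u hu v hv huv
      refine exp_inj (hG.i1 (exp_mem_closedBall hu.2.1) (exp_mem_closedBall hv.2.1) huv) ?_
      have h3 := abs_le.mp hu.1
      have h4 := abs_le.mp hv.1
      rw [abs_lt]
      constructor <;> linarith [h3.1, h3.2, h4.1, h4.2]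
    d1 := hG.d1.comp hexd.differentiableOn (fun w hw => exp_mem_ball hw)
    c2 := hG.c2.comp hexc.continuousOn (fun w hw => exp_mem_compl hw.2.2)
    i2 := by
      intro u hu v hv huv
      refine exp_inj (hG.i2 (exp_mem_compl hu.2.2) (exp_mem_compl hv.2.2) huv) ?_
      have h3 := abs_le.mp hu.1
      have h4 := abs_le.mp hv.1
      rw [abs_lt]
      constructor <;> linarith [h3.1, h3.2, h4.1, h4.2]
    d2 := hG.d2.comp hexd.differentiableOn (fun w hw => exp_mem_compl' hw)
    mono := hG.mono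
    hc := hG.hc
    hR1 := h1
    hR2 := h2
    wel := fun x _ => hG.wel x
    C1 := fun w _ hw => gd_C1 hG hw
    C2 := fun w _ hw => gd_C2 hG hw
    sep := fun u hu v hv huv => gd_sep hG (by linarith) h1 h2 hu hv huv
    opn := fun a b s s' _ hab _ hs _ hs' _ => gd_opn hG hab hs hs' }

end Pool.Agent.MY018
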