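import Pool.Agent.Lib.MP_018119_an_MY.MainR
import Pool.Agent.Lib.MP_018119_an_MY.StripLD
import Pool.Agent.Lib.MP_018119_an_MY.DensP
import Pool.Agent.Lib.MP_018119_an_MY.LoopH

/-!
# MY: curves whose harmonic measures are nowhere mutually singular
-/

set_option autoImplicit false

open Topology Filter Set Metric MeasureTheory

namespace Pool.Agent.MY018

open Pool.Agent.MX018

/-- The good points are dense in a curve with nowhere singular harmonic measures. -/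
theorem good_dense {C : Set ℂ} {f₁ f₂ : ℂ → ℂ} {h : ℝ → ℝ} (hG : GD C f₁ f₂ h) 
    (hns : ∀ U : Set ℂ, IsOpen U → (U ∩ C).Nonempty →
      volume {x : ℝ | f₁ (Complex.exp (x * Complex.I)) ∈ U ∩ C ∧ DifferentiableAt ℝ h x ∧
        deriv h x ≠ 0} ≠ 0) {U : Set ℂ} (hU : IsOpen U) (hUC : (U ∩ C).Nonempty) :
    ∃ p ∈ U ∩ C, LoopPt C p := by
  obtain ⟨x₀, hx₀, c, κ, hc, hκ, B, hB1, hB2, hB3⟩ := dens_pt hG.mono
    (Z := {x : ℝ | f₁ (Complex.exp (x * Complex.I)) ∈ U ∩ C}) (hns U hU hUC)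
  obtain ⟨r, R, hL⟩ := ld_of_gd hG x₀
  exact ⟨hp f₁ x₀, hx₀, loopPt_of_ld hL hc hκ hB1 hB2 hB3⟩

/-- Main theorem, part H. -/
theorem main_H {C : Set ℂ}
    (hC : (∃ γ : ℝ → ℂ, ContinuousOn γ (Icc 0 1) ∧ InjOn γ (Icc 0 1) ∧ C = γ '' Icc 0 1) ∨
        (∃ γ : Circle → ℂ, Continuous γ ∧ Function.Injective γ ∧ C = range γ))
    (f : ℂ ≃ₜ ℂ) (hf : DifferentiableOn ℂ f Cᶜ) (hna : ¬ ∃ a b : ℂ, ∀ z, f z = a * z + b)
    {ε : ℝ} (hε : 0 < ε) {f₁ f₂ : ℂ → ℂ} {h : ℝ → ℝ} (hG : GD C f₁ f₂ h)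
    (hns : ∀ U : Set ℂ, IsOpen U → (U ∩ C).Nonempty →
      volume {x : ℝ | f₁ (Complex.exp (x * Complex.I)) ∈ U ∩ C ∧ DifferentiableAt ℝ h x ∧
        deriv h x ≠ 0} ≠ 0) :
    ∃ K : Set ℂ, K ⊆ C ∧ IsCompact K ∧ Perfect K ∧ IsTotallyDisconnected K ∧ K.Nonempty ∧
      ∃ g : ℂ ≃ₜ ℂ, DifferentiableOn ℂ g Kᶜ ∧ (¬ ∃ a b : ℂ, ∀ z, g z = a * z + b) ∧
        ∀ z, ‖g z - f z‖ ≤ ε := by
  have hCc : IsClosed C := by
    obtain ⟨γ, hγ, rfl⟩ := crv_of hC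
    exact (isCompact_Icc.image_of_continuousOn hγ.cont).isClosed
  refine main_R hC f hf hna hε fun U hU hUC => ?_
  obtain ⟨p, hp, h1⟩ := good_dense hG hns hU hUC
  exact ⟨p, hp, rpt_of_loopPt hCc h1⟩

end Pool.Agent.MY018
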