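import Pool.Agent.Lib.MP_018119_an_MY.Loc
import Pool.Agent.Lib.MP_018119_an_MY.InfPt
import Pool.Agent.Lib.MP_018119_an_MY.MainH

/-!
# MY: local main theorems
-/

set_option autoImplicit false

open Topology Filter Set Metric MeasureTheory

namespace Pool.Agent.MY018

open Pool.Agent.MX018

private theorem MainLoc_closed {C : Set ℂ}
    (hC : (∃ γ : ℝ → ℂ, ContinuousOn γ (Icc 0 1) ∧ InjOn γ (Icc 0 1) ∧ C = γ '' Icc 0 1) ∨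
        (∃ γ : Circle → ℂ, Continuous γ ∧ Function.Injective γ ∧ C = range γ)) : IsClosed C := by
  obtain ⟨γ, hγ, rfl⟩ := crv_of hC
  exact (isCompact_Icc.image_of_continuousOn hγ.cont).isClosed

/-- Local version for points surrounded by loops of infinite modulus. -/
theorem main_inf {C : Set ℂ}
    (hC : (∃ γ : ℝ → ℂ, ContinuousOn γ (Icc 0 1) ∧ InjOn γ (Icc 0 1) ∧ C = γ '' Icc 0 1) ∨
        (∃ γ : Circle → ℂ, Continuous γ ∧ Function.Injective γ ∧ C = range γ))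
    (f : ℂ ≃ₜ ℂ) (hf : DifferentiableOn ℂ f Cᶜ) {U : Set ℂ} (hU : IsOpen U)
    (hUf : ¬ DifferentiableOn ℂ f U)
    (hD : ∀ V : Set ℂ, IsOpen V → V ⊆ U → (V ∩ C).Nonempty → ∃ p ∈ V ∩ C, InfPt C p) :
    ∃ K : Set ℂ, K ⊆ C ∩ U ∧ IsCompact K ∧ Perfect K ∧ IsTotallyDisconnected K ∧ K.Nonempty ∧
      ∃ g : ℂ ≃ₜ ℂ, DifferentiableOn ℂ g Kᶜ ∧ ¬ ∃ a b : ℂ, ∀ z, g z = a * z + b := by
  refine main_loc hC f hf hU hUf fun V hV hVU hVC => ?_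
  obtain ⟨p, hp, h1⟩ := hD V hV hVU hVC
  exact ⟨p, hp, rpt_of_infPt (MainLoc_closed hC) h1⟩

/-- Local version for nonsingular harmonic measures. -/
theorem main_H_loc {C : Set ℂ}
    (hC : (∃ γ : ℝ → ℂ, ContinuousOn γ (Icc 0 1) ∧ InjOn γ (Icc 0 1) ∧ C = γ '' Icc 0 1) ∨
        (∃ γ : Circle → ℂ, Continuous γ ∧ Function.Injective γ ∧ C = range γ))
    (f : ℂ ≃ₜ ℂ) (hf : DifferentiableOn ℂ f Cᶜ) {U : Set ℂ} (hU : IsOpen U)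
    (hUf : ¬ DifferentiableOn ℂ f U) {f₁ f₂ : ℂ → ℂ} {h : ℝ → ℝ} (hG : GD C f₁ f₂ h)
    (hns : ∀ V : Set ℂ, IsOpen V → V ⊆ U → (V ∩ C).Nonempty →
      volume {x : ℝ | f₁ (Complex.exp (x * Complex.I)) ∈ V ∩ C ∧ DifferentiableAt ℝ h x ∧
        deriv h x ≠ 0} ≠ 0) :
    ∃ K : Set ℂ, K ⊆ C ∩ U ∧ IsCompact K ∧ Perfect K ∧ IsTotallyDisconnected K ∧ K.Nonempty ∧
      ∃ g : ℂ ≃ₜ ℂ, DifferentiableOn ℂ g Kᶜ ∧ ¬ ∃ a b : ℂ, ∀ z, g z = a * z + b := by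
  refine main_inf hC f hf hU hUf fun V hV hVU hVC => ?_
  obtain ⟨x₀, hx₀, c, κ, hc, hκ, B, hB1, hB2, hB3⟩ := dens_pt hG.mono
    (Z := {x : ℝ | f₁ (Complex.exp (x * Complex.I)) ∈ V ∩ C}) (hns V hV hVU hVC)
  obtain ⟨r, R, hL⟩ := ld_of_gd hG x₀
  exact ⟨hp f₁ x₀, hx₀, infPt_of_loopPt (loopPt_of_ld hL hc hκ hB1 hB2 hB3)⟩

end Pool.Agent.MY018
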