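import Pool.Agent.Lib.MP_018119_an_MY.Fill
import Pool.Agent.Lib.MP_018119_an_MX.StepL

/-!
# MY: opening one gate between two good points
-/

set_option autoImplicit false

open Topology Filter Set Metric MeasureTheory

namespace Pool.Agent.MY018

open Pool.Agent.MX018

private theorem StepR_cont {F : ℂ → ℂ} {E K : Set ℂ} (hS : St F E K) {p : ℂ} (hp : p ∉ E) :
    ContinuousAt F p :=
  hS.cont.continuousAt (hS.fin.isClosed.isOpen_compl.mem_nhds hp)

private theorem StepR_ev {T : Set ℂ} (hT : T.Finite) (z : ℂ) : ∀ᶠ x in 𝓝[≠] z, x ∉ T := by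
  have h1 : (T \ {z}).Finite := hT.subset sdiff_subset
  have h2 : ∀ᶠ x in 𝓝 z, x ∈ (T \ {z})ᶜ :=
    h1.isClosed.isOpen_compl.mem_nhds (fun h => h.2 rfl)
  have h3 : ∀ᶠ x in 𝓝[≠] z, x ∈ (T \ {z})ᶜ := nhdsWithin_le_nhds h2
  filter_upwards [h3, self_mem_nhdsWithin] with x hx hxz hxT
  exact hx ⟨hxT, hxz⟩

private theorem StepR_lim {C : Set ℂ} {F F' : ℂ → ℂ} {E E' K K' : Set ℂ} {p : ℂ}
    (hR : RPt C p) (hS : St F E K) (hS' : St F' E' K') (hp : p ∉ E) (hKC : K' ⊆ C) (B : ℝ)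
    (hbd : ∀ z ∉ E', ‖F' z - F z‖ ≤ B) : ∃ L, Tendsto F' (𝓝[≠] p) (𝓝 L) := by
  have h1 : (E' \ {p}).Finite := hS'.fin.subset sdiff_subset
  have h2 : (E' \ {p})ᶜ ∈ 𝓝 p := h1.isClosed.isOpen_compl.mem_nhds (fun h => h.2 rfl)
  obtain ⟨δ₁, hδ₁, hb₁⟩ := Metric.mem_nhds_iff.1 h2
  obtain ⟨δ₂, hδ₂, hb₂⟩ := Metric.continuousAt_iff.1 (StepR_cont hS hp) 1 one_pos
  have hE' : ∀ z ∈ ball p (min δ₁ δ₂) \ {p}, z ∉ E' := by
    rintro z ⟨hz, hzp⟩ hzE
    exact hb₁ (ball_subset_ball (min_le_left _ _) hz) ⟨hzE, hzp⟩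
  refine hR F' (min δ₁ δ₂) (lt_min hδ₁ hδ₂) (hS'.cont.mono fun z hz => hE' z hz)
    (hS'.injOn.mono fun z hz => hE' z hz) (fun U hU => hS'.opn U fun z hz => hE' z (hU hz))
    (hS'.hol.mono fun z hz hzK => hz.2 (hKC hzK)) ?_
  refine (isBounded_closedBall (x := F p) (r := B + 1)).subset ?_
  rintro _ ⟨z, hz, rfl⟩
  rw [mem_closedBall]
  have h3 := hbd z (hE' z hz)
  have h4 : dist (F z) (F p) < 1 := by
    refine hb₂ ?_
    exact lt_of_lt_of_le (mem_ball.1 hz.1) (min_le_right _ _)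
  calc dist (F' z) (F p) ≤ dist (F' z) (F z) + dist (F z) (F p) := dist_triangle _ _ _
    _ ≤ B + 1 := by
      rw [dist_eq_norm]
      linarith

private theorem StepR_bd {F F₂ : ℂ → ℂ} {E K K₂ T : Set ℂ} (hS : St F E K) (hS₂ : St F₂ E K₂)
    (hT : T.Finite) (B : ℝ) (h : ∀ z ∉ T, ‖F₂ z - F z‖ ≤ B) : ∀ z ∉ E, ‖F₂ z - F z‖ ≤ B := by
  intro z hz
  have h1 : Tendsto (fun x => ‖F₂ x - F x‖) (𝓝[≠] z) (𝓝 ‖F₂ z - F z‖) :=
    (((StepR_cont hS₂ hz).sub (StepR_cont hS hz)).norm).tendsto.mono_left nhdsWithin_le_nhds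
  refine le_of_tendsto h1 ?_
  filter_upwards [StepR_ev hT z] with x hx
  exact h x hx

/-- PROOF. Let `F, E, K, s, t` be as in `Step`, `p = γ s`, `q = γ t`, `G = γ '' Ioo s t`. `step_st` gives `F'` with
`St F' (E ∪ {p, q}) (K \ G)` and `‖F' z - F z‖ ≤ 10 ρ` if `F '' (G ∪ {p, q}) ⊆ closedBall c ρ`; here
`G ∪ {p, q} = γ '' Icc s t`. The points `p, q` are not in `E` (`GG.dis`) and `p ≠ q`. `F'` has a limit
at `p`: choose `δ > 0` such that `ball p δ` contains no point of `E` (finite) and not `q`, and `F` is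
bounded on `ball p δ` (`F` is continuous at `p`, as `Eᶜ` is open). `F'` is continuous, injective (`St.injOn` in
`Lib/MP_018119_an_MX/GateSt.lean`, or `sep`), open on
`ball p δ \ {p}`, bounded there (`‖F' z - F z‖ ≤ 10 ρ` with some `ρ`: `F '' (γ '' Icc s t)` is compact,
hence bounded), and holomorphic off `C = γ '' Icc 0 1` (`K ⊆ C`). So `RPt` applies and gives the
limit `L₁`, and similarly the limit `L₂` at `q`. Apply `st_fill` twice (first to `q`, with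
`E ∪ {p, q} = insert q (insert p E)`, then to `p`: near `p` the updated function is `F'`). The result
`F''` satisfies `St F'' E (K \ G)`, and `E ∪ γ '' (∅ ∩ {s, t}) = E`. The estimate: for
`z ∉ E ∪ {p, q}` it is the one for `F'`; at `z = p` and `z = q` it follows by continuity: `F''` and `F`
are continuous at `p`, `q`, and points `z ∉ E ∪ {p, q}` are dense near `p`, `q`
(`E ∪ {p, q}` is finite; `le_of_tendsto`). -/
theorem step_R {γ : ℝ → ℂ} {Q : Set ℝ} (hQ : ∀ x ∈ Q, RPt (γ '' Icc 0 1) (γ x)) :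
    Step γ Q ∅ := by
  intro F E K s t hS hs ht _ hst _ hKC hG
  obtain ⟨F', hF', hbd⟩ := step_st hS hG
  have h2 : γ '' Icc s t = γ '' Ioo s t ∪ {γ s, γ t} := by
    rw [← Set.Ioo_union_both hst.le, Set.image_union, Set.image_pair]
  rw [← h2] at hbd
  have hpE : γ s ∉ E := fun h => Set.disjoint_left.1 hG.dis (Or.inr (Or.inl rfl)) h
  have hqE : γ t ∉ E := fun h => Set.disjoint_left.1 hG.dis (Or.inr (Or.inr rfl)) h
  have hb : ∃ B : ℝ, ∀ z ∉ E ∪ {γ s, γ t}, ‖F' z - F z‖ ≤ B := by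
    have h3 : IsCompact (F '' (γ '' Icc s t)) := by
      rw [h2]
      exact hG.cpt.image_of_continuousOn
        (hS.cont.mono fun z hz h => Set.disjoint_left.1 hG.dis hz h)
    obtain ⟨ρ, hρ⟩ := h3.isBounded.subset_closedBall 0
    exact ⟨10 * ρ, hbd 0 ρ hρ⟩
  obtain ⟨B, hB⟩ := hb
  have hsub : K \ γ '' Ioo s t ⊆ γ '' Icc 0 1 := sdiff_subset.trans hKC
  obtain ⟨L₁, hL₁⟩ := StepR_lim (hQ s hs) hS hF' hpE hsub B hB
  obtain ⟨L₂, hL₂⟩ := StepR_lim (hQ t ht) hS hF' hqE hsub B hB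
  have hE2 : E ∪ {γ s, γ t} = insert (γ t) (insert (γ s) E) := by
    ext z
    simp only [Set.mem_union, Set.mem_insert_iff, Set.mem_singleton_iff]
    tauto
  have hF1 : St F' (insert (γ t) (insert (γ s) E)) (K \ γ '' Ioo s t) := by
    rw [← hE2]
    exact hF'
  have hq1 : γ t ∉ insert (γ s) E := by
    rintro (h | h)
    · exact hG.ne h.symm
    · exact hqE h
  have hF2 := st_fill hF1 hq1 hL₂
  have hL1' : Tendsto (Function.update F' (γ t) L₂) (𝓝[≠] (γ s)) (𝓝 L₁) := by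
    refine hL₁.congr' ?_
    have h3 : ∀ᶠ x in 𝓝[≠] (γ s), x ∉ ({γ t} : Set ℂ) := StepR_ev (Set.finite_singleton _) _
    filter_upwards [h3] with x hx
    rw [Function.update_of_ne hx]
  have hF3 := st_fill hF2 hpE hL1'
  have h0 : γ '' (∅ ∩ {s, t}) = ∅ := by
    rw [Set.empty_inter, Set.image_empty]
  rw [h0, Set.union_empty]
  refine ⟨_, hF3, fun c ρ hcρ => ?_⟩
  refine StepR_bd hS hF3 (T := E ∪ {γ s, γ t}) hF'.fin _ fun z hz => ?_
  have hz1 : z ≠ γ s := fun h => hz (Or.inr (Or.inl h))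
  have hz2 : z ≠ γ t := fun h => hz (Or.inr (Or.inr h))
  rw [Function.update_of_ne hz1, Function.update_of_ne hz2]
  exact hbd c ρ hcρ z hz

end Pool.Agent.MY018
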