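import Pool.Agent.Lib.MP_018119_an_MY.LoopR
import Pool.Agent.Lib.MP_018119_an_MY.StepR
import Pool.Agent.Lib.MP_018119_an_MY.TowR
import Pool.Agent.Lib.MP_018119_an_MX.ExTow
import Pool.Agent.Lib.MP_018119_an_MX.CantA
import Pool.Agent.Lib.MP_018119_an_MX.CantB
import Pool.Agent.Lib.MP_018119_an_MX.HomSt
import Pool.Agent.Lib.MP_018119_an_MX.CrvOf
import Pool.Agent.Lib.MP_018119_an_MX.ArcInt

/-!
# MY: curves with a dense set of good points
-/

set_option autoImplicit false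

open Topology Filter Set Metric MeasureTheory

namespace Pool.Agent.MY018

open Pool.Agent.MX018

/-- The parameters of good points are dense. -/
theorem dense_par {γ : ℝ → ℂ} (hγ : Crv γ) {P : ℂ → Prop}
    (hD : ∀ U : Set ℂ, IsOpen U → (U ∩ γ '' Icc 0 1).Nonempty → ∃ p ∈ U ∩ γ '' Icc 0 1, P p)
    {a b : ℝ} (ha : 0 ≤ a) (hab : a < b) (hb : b ≤ 1) :
    ∃ x ∈ {x : ℝ | P (γ x)}, a < x ∧ x < b := by
  have hcomp : IsCompact (γ '' (Icc 0 1 \ Ioo a b)) := by
    have h1 : Icc (0 : ℝ) 1 \ Ioo a b = Icc 0 1 ∩ (Ioo a b)ᶜ := rfl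
    have h2 : IsCompact (Icc (0 : ℝ) 1 \ Ioo a b) := by
      rw [h1]; exact isCompact_Icc.inter_right isOpen_Ioo.isClosed_compl
    exact h2.image_of_continuousOn (hγ.cont.mono sdiff_subset)
  have hmid : (a + b) / 2 ∈ Ioo a b := ⟨by linarith, by linarith⟩
  have hsub : Ioo a b ⊆ Ioo (0 : ℝ) 1 := Ioo_subset_Ioo ha hb
  obtain ⟨p, ⟨hpU, x, hx, rfl⟩, hp⟩ := hD (γ '' (Icc 0 1 \ Ioo a b))ᶜ hcomp.isClosed.isOpen_compl
    ⟨γ ((a + b) / 2), by
      rintro ⟨y, ⟨hy1, hy2⟩, hy3⟩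
      have := crv_inj hγ (hsub hmid) hy1 hy3.symm
      rw [← this] at hy2
      exact hy2 hmid, (a + b) / 2, Ioo_subset_Icc_self (hsub hmid), rfl⟩
  have hx2 : x ∈ Ioo a b := by
    by_contra h
    exact hpU ⟨x, ⟨hx, h⟩, rfl⟩
  exact ⟨x, hp, hx2.1, hx2.2⟩

/-- Main theorem for curves with a dense set of good points. -/
theorem main_R {C : Set ℂ}
    (hC : (∃ γ : ℝ → ℂ, ContinuousOn γ (Icc 0 1) ∧ InjOn γ (Icc 0 1) ∧ C = γ '' Icc 0 1) ∨
        (∃ γ : Circle → ℂ, Continuous γ ∧ Function.Injective γ ∧ C = range γ))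
    (f : ℂ ≃ₜ ℂ) (hf : DifferentiableOn ℂ f Cᶜ) (hna : ¬ ∃ a b : ℂ, ∀ z, f z = a * z + b)
    {ε : ℝ} (hε : 0 < ε)
    (hD : ∀ U : Set ℂ, IsOpen U → (U ∩ C).Nonempty → ∃ p ∈ U ∩ C, RPt C p) :
    ∃ K : Set ℂ, K ⊆ C ∧ IsCompact K ∧ Perfect K ∧ IsTotallyDisconnected K ∧ K.Nonempty ∧
      ∃ g : ℂ ≃ₜ ℂ, DifferentiableOn ℂ g Kᶜ ∧ (¬ ∃ a b : ℂ, ∀ z, g z = a * z + b) ∧
        ∀ z, ‖g z - f z‖ ≤ ε := by
  classical
  obtain ⟨γ, hγ, rfl⟩ := crv_of hC
  have hCc : IsCompact (γ '' Icc 0 1) := isCompact_Icc.image_of_continuousOn hγ.cont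
  obtain ⟨a, b, ha, hab⟩ := homeo_norm f hCc hf
  have h₀ := st_of_homeo f hCc hf ha hab
  -- the initial map is not the identity
  have hne : ∃ z₀ : ℂ, (f z₀ - b) / a ≠ z₀ := by
    by_contra hcon
    push Not at hcon
    apply hna
    refine ⟨a, b, fun z => ?_⟩
    have := hcon z
    rw [div_eq_iff ha] at this
    linear_combination this
  obtain ⟨z₀, hz₀⟩ := hne
  set d : ℝ := ‖(f z₀ - b) / a - z₀‖ with hd
  have hdpos : 0 < d := norm_pos_iff.2 (sub_ne_zero.2 hz₀)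
  have han : 0 < ‖a‖ := norm_pos_iff.2 ha
  set ε' : ℝ := min (ε / ‖a‖) (d / 2) with hε'
  have hε'pos : 0 < ε' := lt_min (by positivity) (by positivity)
  obtain ⟨F, s, t, e, hF0, hT⟩ := exists_tower hγ (Q := {x | RPt (γ '' Icc 0 1) (γ x)}) (B := ∅)
    (fun a b ha hab hb => dense_par hγ hD ha hab hb) (step_R (fun x hx => hx)) h₀ hε'pos
  obtain ⟨G, hG1, hG2, hG3⟩ := tower_limit_R hγ hT
  obtain ⟨hK1, hK2, hK3⟩ := cantor_perf hγ hT.g
  have hK4 := cantor_td hγ hT.g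
  have hmul : ‖a‖ * ε' ≤ ε := by
    calc ‖a‖ * ε' ≤ ‖a‖ * (ε / ‖a‖) := by gcongr; exact min_le_left _ _
      _ = ε := by field_simp
  have haff : ∀ z, (Homeomorph.mulLeft₀ a ha).trans (Homeomorph.addRight b) z = a * z + b :=
    fun z => rfl
  refine ⟨γ '' (Icc 0 1 \ gtsI s t), image_mono sdiff_subset, hK1, hK2, hK4, hK3,
    G.trans ((Homeomorph.mulLeft₀ a ha).trans (Homeomorph.addRight b)), ?_, ?_, ?_⟩
  · have : ⇑(G.trans ((Homeomorph.mulLeft₀ a ha).trans (Homeomorph.addRight b))) =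
        fun z => a * G z + b := rfl
    rw [this]
    exact (hG1.const_mul a).add_const b
  · rintro ⟨a', b', hab'⟩
    have hG0 : ∀ z, a * G z + b = a' * z + b' := hab'
    have h17 : Tendsto (fun z => (a' - a) * z + (b' - b)) (cocompact ℂ) (𝓝 0) := by
      have h18 : Tendsto (fun z => a * (G z - z)) (cocompact ℂ) (𝓝 0) := by
        simpa using hG2.const_mul a
      refine h18.congr fun z => ?_
      have := hG0 z
      linear_combination this
    have h19 : a' = a := by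
      by_contra hne
      have h20 : Tendsto (fun z : ℂ => ‖(a' - a) * z + (b' - b)‖) (cocompact ℂ) atTop := by
        have h21 : 0 < ‖a' - a‖ := norm_pos_iff.2 (sub_ne_zero.2 hne)
        have h22 : Tendsto (fun z : ℂ => ‖a' - a‖ * ‖z‖ - ‖b' - b‖) (cocompact ℂ) atTop :=
          tendsto_atTop_add_const_right _ _
            ((tendsto_norm_cocompact_atTop).const_mul_atTop h21)
        refine tendsto_atTop_mono (fun z => ?_) h22
        have h23 := norm_sub_le ((a' - a) * z + (b' - b)) (b' - b)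
        rw [add_sub_cancel_right, norm_mul] at h23
        linarith
      exact not_tendsto_nhds_of_tendsto_atTop h20 _ h17.norm
    have h24 : b' = b := by
      rw [h19] at h17
      simp only [sub_self, zero_mul, zero_add] at h17
      have := tendsto_nhds_unique h17 tendsto_const_nhds
      exact sub_eq_zero.1 this.symm
    have h25 : G z₀ = z₀ := by
      have := hG0 z₀
      rw [h19, h24] at this
      have h26 : a * G z₀ = a * z₀ := by linear_combination this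
      exact mul_left_cancel₀ ha h26
    have h27 := hG3 z₀
    rw [h25, hF0, norm_sub_rev] at h27
    have h28 : ε' ≤ d / 2 := min_le_right _ _
    have h29 : ‖(f z₀ - b) / a - z₀‖ ≤ ε' := h27
    rw [← hd] at h29
    linarith
  · intro z
    have h16 := hG3 z
    rw [hF0] at h16
    have h17 : (G.trans ((Homeomorph.mulLeft₀ a ha).trans (Homeomorph.addRight b))) z - f z =
        a * (G z - (f z - b) / a) := by
      show a * G z + b - f z = _
      field_simp
      ring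
    rw [h17, norm_mul]
    exact (mul_le_mul_of_nonneg_left h16 (norm_nonneg _)).trans hmul

end Pool.Agent.MY018
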