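import Pool.Agent.Lib.MP_018119_an_MY.DefsH

/-!
# MY: the modulus inequality
-/

set_option autoImplicit false

open Topology Filter Set Metric MeasureTheory

namespace Pool.Agent.MY018

private theorem modI_cs {α : Type*} [MeasurableSpace α] (μ : Measure α) {f : α → ENNReal}
    (hf : AEMeasurable f μ) : (∫⁻ a, f a ∂μ) ^ 2 ≤ μ univ * ∫⁻ a, f a ^ 2 ∂μ := by
  have h := ENNReal.lintegral_mul_le_Lp_mul_Lq μ Real.HolderConjugate.two_two hf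
    (aemeasurable_const (b := (1 : ENNReal)))
  have h2 : ∫⁻ a, f a ∂μ ≤ (∫⁻ a, f a ^ (2 : ℕ) ∂μ) ^ (1 / 2 : ℝ) * (μ univ) ^ (1 / 2 : ℝ) := by
    simpa using h
  have key : ∀ x : ENNReal, (x ^ (1 / 2 : ℝ)) ^ 2 = x := by
    intro x
    rw [← ENNReal.rpow_natCast, ← ENNReal.rpow_mul]
    norm_num
  calc (∫⁻ a, f a ∂μ) ^ 2
      ≤ ((∫⁻ a, f a ^ (2 : ℕ) ∂μ) ^ (1 / 2 : ℝ) * (μ univ) ^ (1 / 2 : ℝ)) ^ 2 := by gcongr
    _ = μ univ * ∫⁻ a, f a ^ 2 ∂μ := by rw [mul_pow, key, key, mul_comm]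

/-- Cauchy-Schwarz on a rectangle, with Fubini.
PROOF. Tonelli (`Complex.volume_preserving_equiv_real_prod`, `MeasureTheory.lintegral_prod`) and
`ENNReal.lintegral_mul_le_Lp_mul_Lq` with `p = q = 2` (or the Cauchy-Schwarz inequality for
`lintegral`), in the form `(∫⁻ ρ) ^ 2 ≤ vol * ∫⁻ ρ ^ 2`. -/
theorem rect_cs {ρ : ℂ → ENNReal} (hρ : Measurable ρ) {P Q : Set ℝ} (hP : MeasurableSet P)
    (hQ : MeasurableSet Q) :
    (∫⁻ x in P, ∫⁻ y in Q, ρ ⟨x, y⟩) ^ 2 ≤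
      volume P * volume Q * ∫⁻ w in {w : ℂ | w.re ∈ P ∧ w.im ∈ Q}, ρ w ^ 2 := by
  have hmk : Measurable (fun p : ℝ × ℝ => (⟨p.1, p.2⟩ : ℂ)) := by
    have : (fun p : ℝ × ℝ => (⟨p.1, p.2⟩ : ℂ)) = Complex.measurableEquivRealProd.symm := by
      funext p
      apply Complex.measurableEquivRealProd.injective
      rw [MeasurableEquiv.apply_symm_apply, Complex.measurableEquivRealProd_apply]
    rw [this]
    exact Complex.measurableEquivRealProd.symm.measurable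
  have hm : Measurable (fun p : ℝ × ℝ => ρ ⟨p.1, p.2⟩) := hρ.comp hmk
  have h1 : ∫⁻ x in P, ∫⁻ y in Q, ρ ⟨x, y⟩ =
      ∫⁻ z, ρ ⟨z.1, z.2⟩ ∂((volume.restrict P).prod (volume.restrict Q)) :=
    (lintegral_prod _ hm.aemeasurable).symm
  have h2 : ∫⁻ w in {w : ℂ | w.re ∈ P ∧ w.im ∈ Q}, ρ w ^ 2 =
      ∫⁻ z, ρ ⟨z.1, z.2⟩ ^ 2 ∂((volume.restrict P).prod (volume.restrict Q)) := by
    rw [Measure.prod_restrict]
    have h3 := Complex.volume_preserving_equiv_real_prod.setLIntegral_comp_preimage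
      (hP.prod hQ) (f := fun z : ℝ × ℝ => ρ ⟨z.1, z.2⟩ ^ 2) (hm.pow_const 2)
    exact h3
  rw [h1, h2]
  refine (modI_cs _ hm.aemeasurable).trans ?_
  rw [← univ_prod_univ, Measure.prod_prod, Measure.restrict_apply_univ,
    Measure.restrict_apply_univ]

/-- PROOF. `lintegral_image_eq_lintegral_abs_deriv_mul`: `∫⁻ x in h '' A, g = ∫⁻ x in A, |h'| g(h x)`, and
`|h'| ≥ c` on `A`. -/
theorem lintegral_comp_le {h : ℝ → ℝ} (hm : StrictMono h) {c : ℝ} (hc : 0 < c) {A : Set ℝ}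
    (hA : MeasurableSet A) (hAd : ∀ x ∈ A, HasDerivAt h (deriv h x) x ∧ c ≤ deriv h x)
    (g : ℝ → ENNReal) :
    ENNReal.ofReal c * ∫⁻ x in A, g (h x) ≤ ∫⁻ x in h '' A, g x := by
  rw [lintegral_image_eq_lintegral_abs_deriv_mul hA
    (fun x hx => (hAd x hx).1.hasDerivWithinAt) hm.injective.injOn g]
  refine (lintegral_const_mul_le _ _).trans ?_
  apply setLIntegral_mono' hA
  intro x hx
  gcongr
  exact (hAd x hx).2.trans (le_abs_self _)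

private theorem modI_low {S : Set ℝ} (hS : MeasurableSet S) {V : ℝ → ENNReal} {r : ℝ}
    (_hr : 0 ≤ r) (hvol : ENNReal.ofReal r ≤ volume S) (hV : ∀ x ∈ S, ENNReal.ofReal (1 / 4) ≤ V x) :
    ENNReal.ofReal (r / 4) ≤ ∫⁻ x in S, V x := by
  calc ENNReal.ofReal (r / 4) = ENNReal.ofReal (1 / 4) * ENNReal.ofReal r := by
        rw [← ENNReal.ofReal_mul (by norm_num)]; congr 1; ring
    _ ≤ ENNReal.ofReal (1 / 4) * volume S := by gcongr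
    _ = ∫⁻ x in S, ENNReal.ofReal (1 / 4) := (setLIntegral_const _ _).symm
    _ ≤ ∫⁻ x in S, V x := setLIntegral_mono' hS hV

/-- from `ofReal p ≤ X`, `X ^ 2 ≤ ofReal q * J` get `ofReal (p ^ 2 / q) ≤ J`. -/
private theorem modI_fin {p q m : ℝ} (hp : 0 ≤ p) (hq : 0 < q) (hm : m * q ≤ p ^ 2)
    {X J : ENNReal} (hX : ENNReal.ofReal p ≤ X) (hJ : X ^ 2 ≤ ENNReal.ofReal q * J) :
    ENNReal.ofReal m ≤ J := by
  have h1 : ENNReal.ofReal q * ENNReal.ofReal m ≤ ENNReal.ofReal q * J := by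
    calc ENNReal.ofReal q * ENNReal.ofReal m = ENNReal.ofReal (q * m) :=
          (ENNReal.ofReal_mul hq.le).symm
      _ ≤ ENNReal.ofReal (p ^ 2) := ENNReal.ofReal_le_ofReal (by linarith)
      _ = ENNReal.ofReal p ^ 2 := ENNReal.ofReal_pow hp 2
      _ ≤ X ^ 2 := by gcongr
      _ ≤ _ := hJ
  exact (ENNReal.mul_le_mul_iff_right (by simpa using hq) ENNReal.ofReal_ne_top).1 h1

private theorem modI_cs' {ρ : ℂ → ENNReal} (hρ : Measurable ρ) {P Q : Set ℝ}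
    (hP : MeasurableSet P) (hQ : MeasurableSet Q) :
    (∫⁻ x in P, ∫⁻ y in Q, ρ ⟨x, -y⟩) ^ 2 ≤
      volume P * volume Q * ∫⁻ w in {w : ℂ | w.re ∈ P ∧ -w.im ∈ Q}, ρ w ^ 2 := by
  have hmp := Measure.measurePreserving_neg (volume : Measure ℝ)
  have hneg : ∀ x : ℝ, ∫⁻ y in Q, ρ ⟨x, -y⟩ = ∫⁻ y in (Neg.neg : ℝ → ℝ) ⁻¹' Q, ρ ⟨x, y⟩ := by
    intro x
    have h := hmp.setLIntegral_comp_preimage_emb
      (MeasurableEquiv.neg ℝ).measurableEmbedding (fun y => ρ ⟨x, -y⟩) Q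
    simp only [neg_neg] at h
    exact h.symm
  have hvol : volume ((Neg.neg : ℝ → ℝ) ⁻¹' Q) = volume Q :=
    hmp.measure_preimage hQ.nullMeasurableSet
  simp only [hneg]
  have h := rect_cs hρ hP (hmp.measurable hQ)
  rw [hvol] at h
  exact h

private theorem modI_mk : Measurable (fun p : ℝ × ℝ => (⟨p.1, p.2⟩ : ℂ)) := by
  have : (fun p : ℝ × ℝ => (⟨p.1, p.2⟩ : ℂ)) = Complex.measurableEquivRealProd.symm := by
    funext p
    apply Complex.measurableEquivRealProd.injective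
    rw [MeasurableEquiv.apply_symm_apply, Complex.measurableEquivRealProd_apply]
  rw [this]
  exact Complex.measurableEquivRealProd.symm.measurable

private theorem modI_split {p : ℝ} {X Y : ENNReal} (hp : 0 ≤ p)
    (h : ENNReal.ofReal (2 * p) ≤ X + Y) : ENNReal.ofReal p ≤ X ∨ ENNReal.ofReal p ≤ Y := by
  by_contra hcon
  push Not at hcon
  have h1 : X + Y < ENNReal.ofReal p + ENNReal.ofReal p := ENNReal.add_lt_add hcon.1 hcon.2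
  rw [← ENNReal.ofReal_add hp hp] at h1
  have h2 : p + p = 2 * p := by ring
  rw [h2] at h1
  exact absurd h (not_le.2 h1)

private theorem modI_side {κ c t m : ℝ} (hκ : 0 < κ) (hc : 0 < c) (ht : 0 < t)
    (hm1 : m * 512 ≤ 1) (hm2 : m * (2048 * κ ^ 2) ≤ c ^ 2) {h : ℝ → ℝ} (hmono : StrictMono h)
    (hcont : Continuous h) {A : Set ℝ} (hA : MeasurableSet A)
    (hAd : ∀ x ∈ A, HasDerivAt h (deriv h x) x ∧ c ≤ deriv h x)
    (hvol : ENNReal.ofReal (t / 2) ≤ volume A) {lo hi : ℝ} (hsub : A ⊆ Ioo lo hi)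
    (hlen : hi - lo ≤ t) (hlen2 : h hi - h lo ≤ 4 * κ * t) {S1 S2 : Set ℂ}
    (hS1 : {w : ℂ | w.re ∈ A ∧ w.im ∈ Ioo 0 (2 * t)} ⊆ S1)
    (hS2 : {w : ℂ | w.re ∈ h '' A ∧ -w.im ∈ Ioo 0 (2 * κ * t)} ⊆ S2)
    {ρ₁ ρ₂ : ℂ → ENNReal} (hρ₁ : Measurable ρ₁) (hρ₂ : Measurable ρ₂)
    (hV : ∀ a ∈ A, ENNReal.ofReal (1 / 4) ≤
      (∫⁻ y in Ioo 0 (2 * t), ρ₁ ⟨a, y⟩) + ∫⁻ y in Ioo 0 (2 * κ * t), ρ₂ ⟨h a, -y⟩) :
    ENNReal.ofReal m ≤ (∫⁻ w in S1, ρ₁ w ^ 2) + ∫⁻ w in S2, ρ₂ w ^ 2 := by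
  have h0 := modI_low hA (by positivity) hvol hV
  have hUm : Measurable (fun a : ℝ => ∫⁻ y in Ioo 0 (2 * t), ρ₁ ⟨a, y⟩) :=
    Measurable.lintegral_prod_right' (f := fun p : ℝ × ℝ => ρ₁ ⟨p.1, p.2⟩) (hρ₁.comp modI_mk)
  rw [lintegral_add_left hUm] at h0
  have e0 : t / 2 / 4 = 2 * (t / 16) := by ring
  rw [e0] at h0
  rcases modI_split (by positivity) h0 with h1 | h1
  · refine le_trans ?_ le_self_add
    have h2 := rect_cs hρ₁ hA (measurableSet_Ioo (a := (0 : ℝ)) (b := 2 * t))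
    have h3 : volume A ≤ ENNReal.ofReal t := by
      calc volume A ≤ volume (Ioo lo hi) := measure_mono hsub
        _ = ENNReal.ofReal (hi - lo) := Real.volume_Ioo
        _ ≤ _ := ENNReal.ofReal_le_ofReal hlen
    have h4 : (∫⁻ w in {w : ℂ | w.re ∈ A ∧ w.im ∈ Ioo 0 (2 * t)}, ρ₁ w ^ 2) ≤
        ∫⁻ w in S1, ρ₁ w ^ 2 := lintegral_mono_set hS1
    refine modI_fin (p := t / 16) (q := t * (2 * t)) (by positivity) (by positivity) ?_ h1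
      (h2.trans ?_)
    · nlinarith [sq_nonneg t, mul_le_mul_of_nonneg_right hm1 (sq_nonneg t)]
    · rw [ENNReal.ofReal_mul ht.le, Real.volume_Ioo, sub_zero]
      gcongr
  · refine le_trans ?_ le_add_self
    have h2 := lintegral_comp_le hmono hc hA hAd (fun x => ∫⁻ y in Ioo 0 (2 * κ * t), ρ₂ ⟨x, -y⟩)
    have h3 : ENNReal.ofReal (c * (t / 16)) ≤
        ∫⁻ x in h '' A, ∫⁻ y in Ioo 0 (2 * κ * t), ρ₂ ⟨x, -y⟩ := by
      rw [ENNReal.ofReal_mul hc.le]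
      refine le_trans ?_ h2
      gcongr
    have hhA : MeasurableSet (h '' A) :=
      hA.image_of_continuousOn_injOn hcont.continuousOn hmono.injective.injOn
    have h4 := modI_cs' hρ₂ hhA (measurableSet_Ioo (a := (0 : ℝ)) (b := 2 * κ * t))
    have h5 : volume (h '' A) ≤ ENNReal.ofReal (4 * κ * t) := by
      have : h '' A ⊆ Ioo (h lo) (h hi) := by
        rintro _ ⟨x, hx, rfl⟩
        exact ⟨hmono (hsub hx).1, hmono (hsub hx).2⟩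
      calc volume (h '' A) ≤ volume (Ioo (h lo) (h hi)) := measure_mono this
        _ = ENNReal.ofReal (h hi - h lo) := Real.volume_Ioo
        _ ≤ _ := ENNReal.ofReal_le_ofReal hlen2
    have h6 : (∫⁻ w in {w : ℂ | w.re ∈ h '' A ∧ -w.im ∈ Ioo 0 (2 * κ * t)}, ρ₂ w ^ 2) ≤
        ∫⁻ w in S2, ρ₂ w ^ 2 := lintegral_mono_set hS2
    refine modI_fin (p := c * (t / 16)) (q := (4 * κ * t) * (2 * κ * t)) (by positivity)
      (by positivity) ?_ h3 (h4.trans ?_)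
    · nlinarith [mul_le_mul_of_nonneg_right hm2 (sq_nonneg t)]
    · rw [ENNReal.ofReal_mul (by positivity), Real.volume_Ioo, sub_zero]
      gcongr

/-- The modulus inequality.
PROOF. Let `J₁ = ∫⁻ w in U1 x₀ t, ρ₁ w ^ 2`, `J₂ = ∫⁻ w in U2 h x₀ t κ, ρ₂ w ^ 2`,
`AL = B ∩ Ioo (x₀ - 2 t) (x₀ - t)`, `AR = B ∩ Ioo (x₀ + t) (x₀ + 2 t)`. For `a ∈ AL` let
`V a = (∫⁻ y in Ioo 0 (2 t), ρ₁ ⟨a, y⟩) + ∫⁻ y in Ioo 0 (2 κ t), ρ₂ ⟨h a, -y⟩`, similarly for `b ∈ AR`, and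
`H₁ s = ∫⁻ x in Ioo (x₀ - 2 t) (x₀ + 2 t), ρ₁ ⟨x, s⟩`, `H₂ s' = ∫⁻ x in Ioo (h (x₀ - 2 t)) (h (x₀ + 2 t)), ρ₂ ⟨x, -s'⟩`.
By `hadm`, `1 ≤ V a + V b + H₁ s + H₂ s'` for all admissible `a, b, s, s'`; hence, with the infima over the four
independent variables, `1 ≤ inf V (AL) + inf V (AR) + inf H₁ + inf H₂`, and one of the four infima is
at least `1 / 4`. An infimum over a set of measure `≥ μ₀` times `μ₀` is at most the integral over the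
set. The integrals: `∫⁻ a in AL, ∫⁻ y in Ioo 0 (2 t), ρ₁ ⟨a, y⟩` has square `≤ t * 2 t * J₁` (`rect_cs`,
the rectangle `Ioo (x₀ - 2 t) (x₀ - t) × Ioo 0 (2 t)` is contained in `U1 x₀ t`);
`∫⁻ a in AL, ∫⁻ y in Ioo 0 (2 κ t), ρ₂ ⟨h a, -y⟩ ≤ c⁻¹ ∫⁻ x in h '' AL, ∫⁻ y ..., ρ₂ ⟨x, -y⟩` (`lintegral_comp_le`), whose
square is `≤ c⁻² * 4 κ t * 2 κ t * J₂` (`rect_cs` for `ρ₂ ⟨x, -y⟩`; the rectangle
`Ioo (h (x₀ - 2 t)) (h (x₀ - t)) × Ioo (-2 κ t) 0` is contained in `U2`, its width is `≤ 4 κ t`);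
similarly for `AR`; `∫⁻ s in Ioo t (2 t), H₁ s` has square `≤ t * 4 t * J₁`, and
`∫⁻ s' in Ioo (κ t) (2 κ t), H₂ s'` has square `≤ κ t * 8 κ t * J₂`. The measures are `≥ t / 2`, `t / 2`, `t`, `κ t`. In each
of the four cases one gets `1 ≤ M (J₁ + J₂)` with a constant `M` which depends on `κ` and `c` only
(for instance `M = 1000 * (1 + κ ^ 2 / c ^ 2)`, not optimized; any will do), `m = 1 / M`. -/
theorem mod_ineq {κ c : ℝ} (hκ : 0 < κ) (hc : 0 < c) :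
    ∃ m > 0, ∀ (h : ℝ → ℝ), StrictMono h → Continuous h → ∀ (x₀ t : ℝ), 0 < t →
      ∀ (B : Set ℝ), MeasurableSet B →
      (∀ x ∈ B, HasDerivAt h (deriv h x) x ∧ c ≤ deriv h x) →
      ENNReal.ofReal (t / 2) ≤ volume (B ∩ Ioo (x₀ - 2 * t) (x₀ - t)) →
      ENNReal.ofReal (t / 2) ≤ volume (B ∩ Ioo (x₀ + t) (x₀ + 2 * t)) →
      h (x₀ + 2 * t) ≤ h x₀ + 4 * κ * t → h x₀ - 4 * κ * t ≤ h (x₀ - 2 * t) →
      ∀ (ρ₁ ρ₂ : ℂ → ENNReal), Measurable ρ₁ → Measurable ρ₂ →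
      (∀ a ∈ B ∩ Ioo (x₀ - 2 * t) (x₀ - t), ∀ b ∈ B ∩ Ioo (x₀ + t) (x₀ + 2 * t),
        ∀ s ∈ Ioo t (2 * t), ∀ s' ∈ Ioo (κ * t) (2 * κ * t),
        1 ≤ ((∫⁻ y in Ioo 0 s, ρ₁ ⟨a, y⟩) + (∫⁻ x in Ioo a b, ρ₁ ⟨x, s⟩) +
          (∫⁻ y in Ioo 0 s, ρ₁ ⟨b, y⟩)) + ((∫⁻ y in Ioo 0 s', ρ₂ ⟨h b, -y⟩) +
          (∫⁻ x in Ioo (h a) (h b), ρ₂ ⟨x, -s'⟩) + (∫⁻ y in Ioo 0 s', ρ₂ ⟨h a, -y⟩))) →
      ENNReal.ofReal m ≤ (∫⁻ w in U1 x₀ t, ρ₁ w ^ 2) + ∫⁻ w in U2 h x₀ t κ, ρ₂ w ^ 2 := by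
  refine ⟨min (1 / 512) (c ^ 2 / (2048 * κ ^ 2)), by positivity, ?_⟩
  set m : ℝ := min (1 / 512) (c ^ 2 / (2048 * κ ^ 2)) with hmdef
  have hm1 : m * 512 ≤ 1 := by
    have : m ≤ 1 / 512 := min_le_left _ _
    linarith
  have hm2 : m * (2048 * κ ^ 2) ≤ c ^ 2 := by
    have : m ≤ c ^ 2 / (2048 * κ ^ 2) := min_le_right _ _
    rwa [le_div_iff₀ (by positivity)] at this
  intro h hmono hcont x₀ t ht B hB hBd hv1 hv2 hr1 hr2 ρ₁ ρ₂ hρ₁ hρ₂ hadm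
  have hκt : 0 < κ * t := by positivity
  set Uf : ℝ → ENNReal := fun a =>
    (∫⁻ y in Ioo 0 (2 * t), ρ₁ ⟨a, y⟩) + ∫⁻ y in Ioo 0 (2 * κ * t), ρ₂ ⟨h a, -y⟩ with hUf
  set H1 : ℝ → ENNReal := fun s => ∫⁻ x in Ioo (x₀ - 2 * t) (x₀ + 2 * t), ρ₁ ⟨x, s⟩ with hH1
  set H2 : ℝ → ENNReal := fun s =>
    ∫⁻ x in Ioo (h (x₀ - 2 * t)) (h (x₀ + 2 * t)), ρ₂ ⟨x, -s⟩ with hH2
  have hadm' : ∀ a ∈ B ∩ Ioo (x₀ - 2 * t) (x₀ - t), ∀ b ∈ B ∩ Ioo (x₀ + t) (x₀ + 2 * t),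
      ∀ s ∈ Ioo t (2 * t), ∀ s' ∈ Ioo (κ * t) (2 * κ * t), 1 ≤ Uf a + Uf b + (H1 s + H2 s') := by
    intro a ha b hb s hs s' hs'
    refine (hadm a ha b hb s hs s' hs').trans ?_
    have e1 : ∀ u : ℝ, (∫⁻ y in Ioo 0 s, ρ₁ ⟨u, y⟩) ≤ ∫⁻ y in Ioo 0 (2 * t), ρ₁ ⟨u, y⟩ :=
      fun u => lintegral_mono_set (Ioo_subset_Ioo_right hs.2.le)
    have e2 : ∀ u : ℝ, (∫⁻ y in Ioo 0 s', ρ₂ ⟨u, -y⟩) ≤ ∫⁻ y in Ioo 0 (2 * κ * t), ρ₂ ⟨u, -y⟩ :=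
      fun u => lintegral_mono_set (Ioo_subset_Ioo_right hs'.2.le)
    have e3 : (∫⁻ x in Ioo a b, ρ₁ ⟨x, s⟩) ≤ H1 s :=
      lintegral_mono_set (Ioo_subset_Ioo ha.2.1.le hb.2.2.le)
    have e4 : (∫⁻ x in Ioo (h a) (h b), ρ₂ ⟨x, -s'⟩) ≤ H2 s' :=
      lintegral_mono_set (Ioo_subset_Ioo (hmono ha.2.1).le (hmono hb.2.2).le)
    calc _ ≤ ((∫⁻ y in Ioo 0 (2 * t), ρ₁ ⟨a, y⟩) + H1 s + ∫⁻ y in Ioo 0 (2 * t), ρ₁ ⟨b, y⟩) +
          ((∫⁻ y in Ioo 0 (2 * κ * t), ρ₂ ⟨h b, -y⟩) + H2 s' +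
            ∫⁻ y in Ioo 0 (2 * κ * t), ρ₂ ⟨h a, -y⟩) := by
          exact add_le_add (add_le_add (add_le_add (e1 a) e3) (e1 b))
            (add_le_add (add_le_add (e2 (h b)) e4) (e2 (h a)))
      _ = Uf a + Uf b + (H1 s + H2 s') := by simp only [hUf]; ring
  have hfour : (∀ a ∈ B ∩ Ioo (x₀ - 2 * t) (x₀ - t), ENNReal.ofReal (1 / 4) ≤ Uf a) ∨
      (∀ b ∈ B ∩ Ioo (x₀ + t) (x₀ + 2 * t), ENNReal.ofReal (1 / 4) ≤ Uf b) ∨
      (∀ s ∈ Ioo t (2 * t), ENNReal.ofReal (1 / 4) ≤ H1 s) ∨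
      (∀ s ∈ Ioo (κ * t) (2 * κ * t), ENNReal.ofReal (1 / 4) ≤ H2 s) := by
    by_contra hcon
    push Not at hcon
    obtain ⟨⟨a, ha, ha'⟩, ⟨b, hb, hb'⟩, ⟨s, hs, hs'⟩, ⟨r, hr, hr'⟩⟩ := hcon
    have h1 := hadm' a ha b hb s hs r hr
    have h2 : Uf a + Uf b + (H1 s + H2 r) <
        (ENNReal.ofReal (1 / 4) + ENNReal.ofReal (1 / 4)) +
          (ENNReal.ofReal (1 / 4) + ENNReal.ofReal (1 / 4)) :=
      ENNReal.add_lt_add (ENNReal.add_lt_add ha' hb') (ENNReal.add_lt_add hs' hr')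
    have h3 : (ENNReal.ofReal (1 / 4) + ENNReal.ofReal (1 / 4)) +
          (ENNReal.ofReal (1 / 4) + ENNReal.ofReal (1 / 4)) = 1 := by
      rw [← ENNReal.ofReal_add (by norm_num) (by norm_num),
        ← ENNReal.ofReal_add (by norm_num) (by norm_num)]
      norm_num
    rw [h3] at h2
    exact absurd h1 (not_le.2 h2)
  have hI1 : MeasurableSet (B ∩ Ioo (x₀ - 2 * t) (x₀ - t)) := hB.inter measurableSet_Ioo
  have hI2 : MeasurableSet (B ∩ Ioo (x₀ + t) (x₀ + 2 * t)) := hB.inter measurableSet_Ioo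
  have g1 : h (x₀ - t) < h x₀ := hmono (by linarith)
  have g2 : h x₀ < h (x₀ + t) := hmono (by linarith)
  rcases hfour with hL | hR | hH | hH
  · refine modI_side hκ hc ht hm1 hm2 hmono hcont hI1 (fun x hx => hBd x hx.1) hv1
      (lo := x₀ - 2 * t) (hi := x₀ - t) inter_subset_right (by linarith) (by linarith)
      ?_ ?_ hρ₁ hρ₂ hL
    · rintro w ⟨⟨_, hw1, hw2⟩, hw3, hw4⟩
      exact ⟨hw1, by linarith, hw3.le, hw4, Or.inl hw2⟩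
    · rintro w ⟨⟨x, ⟨_, hx1, hx2⟩, hxw⟩, hw3, hw4⟩
      refine ⟨?_, ?_, by linarith, by linarith, Or.inl ?_⟩
      · rw [← hxw]; exact hmono hx1
      · rw [← hxw]; exact hmono (by linarith)
      · rw [← hxw]; exact hmono hx2
  · refine modI_side hκ hc ht hm1 hm2 hmono hcont hI2 (fun x hx => hBd x hx.1) hv2
      (lo := x₀ + t) (hi := x₀ + 2 * t) inter_subset_right (by linarith) (by linarith)
      ?_ ?_ hρ₁ hρ₂ hR
    · rintro w ⟨⟨_, hw1, hw2⟩, hw3, hw4⟩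
      exact ⟨by linarith, by linarith, hw3.le, hw4, Or.inr (Or.inl hw1)⟩
    · rintro w ⟨⟨x, ⟨_, hx1, hx2⟩, hxw⟩, hw3, hw4⟩
      refine ⟨?_, ?_, by linarith, by linarith, Or.inr (Or.inl ?_)⟩
      · rw [← hxw]; exact hmono (by linarith)
      · rw [← hxw]; exact hmono hx2
      · rw [← hxw]; exact hmono hx1
  · refine le_trans ?_ le_self_add
    have h0 := modI_low (S := Ioo t (2 * t)) measurableSet_Ioo ht.le
      (by rw [Real.volume_Ioo]; apply ENNReal.ofReal_le_ofReal; linarith) hH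
    have hsw : ∫⁻ s in Ioo t (2 * t), H1 s =
        ∫⁻ x in Ioo (x₀ - 2 * t) (x₀ + 2 * t), ∫⁻ s in Ioo t (2 * t), ρ₁ ⟨x, s⟩ := by
      have := lintegral_lintegral_swap (μ := volume.restrict (Ioo t (2 * t)))
        (ν := volume.restrict (Ioo (x₀ - 2 * t) (x₀ + 2 * t)))
        (f := fun s x => ρ₁ ⟨x, s⟩) ((hρ₁.comp (modI_mk.comp measurable_swap)).aemeasurable)
      exact this
    rw [hsw] at h0
    have h2 := rect_cs hρ₁ (measurableSet_Ioo (a := x₀ - 2 * t) (b := x₀ + 2 * t))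
      (measurableSet_Ioo (a := t) (b := 2 * t))
    refine modI_fin (p := t / 4) (q := (4 * t) * t) (by positivity) (by positivity) ?_ h0
      (h2.trans ?_)
    · nlinarith [sq_nonneg t, mul_le_mul_of_nonneg_right hm1 (sq_nonneg t)]
    · rw [ENNReal.ofReal_mul (by positivity), Real.volume_Ioo, Real.volume_Ioo]
      gcongr
      · linarith
      · linarith
      · rintro w ⟨⟨hw1, hw2⟩, hw3, hw4⟩
        exact ⟨hw1, hw2, by linarith, hw4, Or.inr (Or.inr hw3)⟩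
  · refine le_trans ?_ le_add_self
    have h0 := modI_low (S := Ioo (κ * t) (2 * κ * t)) measurableSet_Ioo hκt.le
      (by rw [Real.volume_Ioo]; apply ENNReal.ofReal_le_ofReal; linarith) hH
    have hsw : ∫⁻ s in Ioo (κ * t) (2 * κ * t), H2 s =
        ∫⁻ x in Ioo (h (x₀ - 2 * t)) (h (x₀ + 2 * t)), ∫⁻ s in Ioo (κ * t) (2 * κ * t),
          ρ₂ ⟨x, -s⟩ := by
      have := lintegral_lintegral_swap (μ := volume.restrict (Ioo (κ * t) (2 * κ * t)))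
        (ν := volume.restrict (Ioo (h (x₀ - 2 * t)) (h (x₀ + 2 * t))))
        (f := fun s x => ρ₂ ⟨x, -s⟩)
        ((hρ₂.comp (modI_mk.comp (measurable_snd.prodMk measurable_fst.neg))).aemeasurable)
      exact this
    rw [hsw] at h0
    have h2 := modI_cs' hρ₂ (measurableSet_Ioo (a := h (x₀ - 2 * t)) (b := h (x₀ + 2 * t)))
      (measurableSet_Ioo (a := κ * t) (b := 2 * κ * t))
    refine modI_fin (p := κ * t / 4) (q := (8 * κ * t) * (κ * t)) (by positivity)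
      (by positivity) ?_ h0 (h2.trans ?_)
    · nlinarith [sq_nonneg (κ * t), mul_le_mul_of_nonneg_right hm1 (sq_nonneg (κ * t))]
    · rw [ENNReal.ofReal_mul (by positivity), Real.volume_Ioo, Real.volume_Ioo]
      gcongr
      · linarith
      · linarith
      · rintro w ⟨⟨hw1, hw2⟩, hw3, hw4⟩
        exact ⟨hw1, hw2, by linarith, by linarith, Or.inr (Or.inr (by linarith))⟩

end Pool.Agent.MY018
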