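import Pool.Agent.Lib.MP_018119_an_MY.DefsH

/-!
# MY: pieces of paths
-/

set_option autoImplicit false

open Topology Filter Set Metric MeasureTheory

namespace Pool.Agent.MY018

private theorem Pcs_affine (c m : ℝ) (hm : m ≠ 0) {s : Set ℝ} (hs : MeasurableSet s)
    (g : ℝ → ENNReal) : ∫⁻ x in (fun t => c + m * t) '' s, g x =
      ∫⁻ t in s, ENNReal.ofReal |m| * g (c + m * t) := by
  refine lintegral_image_eq_lintegral_abs_deriv_mul hs (f' := fun _ => m) (fun t _ => ?_) ?_ g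
  · have h : HasDerivAt (fun t => c + m * t) (m * 1) t :=
      ((hasDerivAt_id t).const_mul m).const_add c
    rw [mul_one] at h
    exact h.hasDerivWithinAt
  · intro t _ t' _ h
    have h1 : m * t = m * t' := add_left_cancel h
    exact mul_left_cancel₀ hm h1

/-- PROOF. The path `t ↦ τ (L - t)`. (`deriv (fun t => τ (L - t)) t = - deriv τ (L - t)`, and the
substitution `t ↦ L - t` preserves the measure and the interval.) -/
theorem Pc.symm {C : Set ℂ} {x y : ℂ} {S : Set ℂ} {Φ : (ℂ → ENNReal) → ENNReal}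
    (h : Pc C x y S Φ) : Pc C y x S Φ := by
  obtain ⟨τ, L, hL, hc, h0, h1, hS, hcount, hΦ⟩ := h
  have himg : (fun t : ℝ => L + (-1) * t) '' Icc 0 L = Icc 0 L := by
    ext t
    constructor
    · rintro ⟨s, ⟨hs0, hs1⟩, rfl⟩
      constructor
      · beta_reduce
        linarith
      · beta_reduce
        linarith
    · rintro ⟨hs0, hs1⟩
      exact ⟨L - t, ⟨by linarith, by linarith⟩, by ring⟩
  have hmaps : MapsTo (fun t : ℝ => L - t) (Icc 0 L) (Icc 0 L) := fun t ht =>
    ⟨by linarith [ht.2], by linarith [ht.1]⟩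
  refine ⟨fun t => τ (L - t), L, hL, ?_, ?_, ?_, ?_, ?_, fun ρ hρ => ?_⟩
  · exact hc.comp (by fun_prop) hmaps
  · change τ (L - 0) = y
    rw [sub_zero, h1]
  · change τ (L - L) = x
    rw [sub_self, h0]
  · rw [← hS]
    ext z
    constructor
    · rintro ⟨t, ht, rfl⟩
      exact ⟨L - t, hmaps ht, rfl⟩
    · rintro ⟨t, ht, rfl⟩
      refine ⟨L - t, hmaps ht, ?_⟩
      change τ (L - (L - t)) = τ t
      rw [sub_sub_cancel]
  · refine (hcount.preimage (f := fun t : ℝ => L - t) (sub_right_injective)).mono ?_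
    rintro t ⟨ht, hbad⟩
    refine ⟨hmaps ht, hbad.imp (fun hd hd' => hd ?_) id⟩
    exact DifferentiableAt.comp (g := τ) (f := fun t : ℝ => L - t) t hd'
      ((differentiableAt_const L).sub differentiableAt_id)
  · refine le_trans (le_of_eq ?_) (hΦ ρ hρ)
    have h2 := Pcs_affine L (-1) (by norm_num) (measurableSet_Icc (a := (0 : ℝ)) (b := L))
      (fun t => ρ (τ t) * ‖deriv τ t‖ₑ)
    rw [himg] at h2
    rw [h2]
    refine setLIntegral_congr_fun measurableSet_Icc fun t _ => ?_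
    beta_reduce
    have h3 : L + (-1) * t = L - t := by ring
    rw [h3, deriv_comp_const_sub, enorm_neg, abs_neg, abs_one, ENNReal.ofReal_one, one_mul]

/-- PROOF. The path `t ↦ if t ≤ L then τ t else τ' (t - L)` on `[0, L + L']`. Near a point `t < L`
it agrees with `τ`, near `t > L` with `τ' (· - L)`; the point `t = L` is one more exceptional
parameter. The integral over `Icc 0 (L + L')` is the sum of the integrals over `Icc 0 L` and
`Icc L (L + L')`, up to the single point `L` (null set). -/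
theorem Pc.trans {C : Set ℂ} {x y z : ℂ} {S S' : Set ℂ} {Φ Φ' : (ℂ → ENNReal) → ENNReal}
    (h : Pc C x y S Φ) (h' : Pc C y z S' Φ') : Pc C x z (S ∪ S') (fun ρ => Φ ρ + Φ' ρ) := by
  obtain ⟨τ, L, hL, hc, h0, h1, hS, hcount, hΦ⟩ := h
  obtain ⟨τ', L', hL', hc', h0', h1', hS', hcount', hΦ'⟩ := h'
  let σ : ℝ → ℂ := fun t => if t ≤ L then τ t else τ' (t - L)
  have hσ1 : ∀ t, t ≤ L → σ t = τ t := fun t ht => if_pos ht
  have hσ2 : ∀ t, L ≤ t → σ t = τ' (t - L) := by
    intro t ht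
    rcases eq_or_lt_of_le ht with rfl | ht
    · rw [hσ1 L le_rfl, sub_self, h0', h1]
    · exact if_neg (not_le.2 ht)
  have hσn1 : ∀ t, t < L → σ =ᶠ[𝓝 t] τ := fun t ht => by
    filter_upwards [Iio_mem_nhds ht] with s hs
    exact hσ1 s (le_of_lt hs)
  have hσn2 : ∀ t, L < t → σ =ᶠ[𝓝 t] fun t => τ' (t - L) := fun t ht => by
    filter_upwards [Ioi_mem_nhds ht] with s hs
    exact hσ2 s (le_of_lt hs)
  have hunion : Icc 0 (L + L') = Icc 0 L ∪ Icc L (L + L') :=
    (Icc_union_Icc_eq_Icc hL.le (by linarith)).symm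
  have hmaps : MapsTo (fun t : ℝ => t - L) (Icc L (L + L')) (Icc 0 L') := fun t ht =>
    ⟨by linarith [ht.1], by linarith [ht.2]⟩
  refine ⟨σ, L + L', by linarith, ?_, ?_, ?_, ?_, ?_, fun ρ hρ => ?_⟩
  · rw [hunion]
    refine ContinuousOn.union_of_isClosed ?_ ?_ isClosed_Icc isClosed_Icc
    · exact hc.congr fun t ht => hσ1 t ht.2
    · refine (hc'.comp (f := fun t : ℝ => t - L) (by fun_prop) hmaps).congr fun t ht => ?_
      exact hσ2 t ht.1
  · rw [hσ1 0 hL.le, h0]
  · rw [hσ2 (L + L') (by linarith), add_sub_cancel_left, h1']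
  · rw [hunion, image_union]
    congr 1
    · rw [← hS]
      exact image_congr fun t ht => hσ1 t ht.2
    · rw [← hS']
      ext w
      constructor
      · rintro ⟨t, ht, rfl⟩
        exact ⟨t - L, hmaps ht, (hσ2 t ht.1).symm⟩
      · rintro ⟨t, ht, rfl⟩
        refine ⟨L + t, ⟨by linarith [ht.1], by linarith [ht.2]⟩, ?_⟩
        rw [hσ2 (L + t) (by linarith [ht.1]), add_sub_cancel_left]
  · refine ((hcount.union (hcount'.preimage (f := fun t : ℝ => t - L)
      (sub_left_injective))).union (countable_singleton L)).mono ?_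
    rintro t ⟨ht, hbad⟩
    rcases lt_trichotomy t L with hlt | heq | hgt
    · refine Or.inl (Or.inl ⟨⟨ht.1, hlt.le⟩, ?_⟩)
      rcases hbad with hd | hC
      · exact Or.inl fun hd' => hd ((hσn1 t hlt).differentiableAt_iff.2 hd')
      · rw [hσ1 t hlt.le] at hC
        exact Or.inr hC
    · exact Or.inr heq
    · refine Or.inl (Or.inr ⟨hmaps ⟨hgt.le, ht.2⟩, ?_⟩)
      rcases hbad with hd | hC
      · refine Or.inl fun hd' => hd ((hσn2 t hgt).differentiableAt_iff.2 ?_)
        exact DifferentiableAt.comp (g := τ') (f := fun t : ℝ => t - L) t hd'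
          (differentiableAt_id.sub (differentiableAt_const L))
      · rw [hσ2 t hgt.le] at hC
        exact Or.inr hC
  · have e1 : ∫⁻ t in Icc (0 : ℝ) L, ρ (σ t) * ‖deriv σ t‖ₑ ≤ Φ ρ := by
      refine le_trans (le_of_eq ?_) (hΦ ρ hρ)
      rw [← restrict_Ioo_eq_restrict_Icc]
      refine setLIntegral_congr_fun measurableSet_Ioo fun t ht => ?_
      rw [(hσn1 t ht.2).deriv_eq, hσ1 t ht.2.le]
    have e2 : ∫⁻ t in Icc L (L + L'), ρ (σ t) * ‖deriv σ t‖ₑ ≤ Φ' ρ := by
      refine le_trans (le_of_eq ?_) (hΦ' ρ hρ)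
      have himg : (fun t : ℝ => (-L) + 1 * t) '' Ioo L (L + L') = Ioo 0 L' := by
        ext t
        constructor
        · rintro ⟨s, ⟨hs0, hs1⟩, rfl⟩
          constructor
          · beta_reduce
            linarith
          · beta_reduce
            linarith
        · rintro ⟨hs0, hs1⟩
          exact ⟨L + t, ⟨by linarith, by linarith⟩, by ring⟩
      have h2 := Pcs_affine (-L) 1 one_ne_zero (measurableSet_Ioo (a := L) (b := L + L'))
        (fun t => ρ (τ' t) * ‖deriv τ' t‖ₑ)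
      rw [himg] at h2
      rw [← restrict_Ioo_eq_restrict_Icc, ← restrict_Ioo_eq_restrict_Icc, h2]
      refine setLIntegral_congr_fun measurableSet_Ioo fun t ht => ?_
      have h3 : -L + 1 * t = t - L := by ring
      rw [(hσn2 t ht.1).deriv_eq, hσ2 t ht.1.le, h3, deriv_comp_sub_const, abs_one,
        ENNReal.ofReal_one, one_mul]
    rw [hunion]
    exact (lintegral_union_le _ _ _).trans (add_le_add e1 e2)

/-- PROOF. `σ t = τ (L * t')`, where `t'` is the projection of `t` to `[0, 1]` (`Set.projIcc` or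
`max 0 (min t 1)`); `σ` is continuous; for `t ∈ Ioo 0 1` it agrees near `t` with `τ (L * ·)`, and
`deriv σ t = L * deriv τ (L t)`; the substitution `t ↦ L * t` in the integral (for instance
`MeasureTheory.lintegral_image_eq_lintegral_abs_deriv_mul`, or the scaling of Lebesgue
measure). -/
theorem Pc.loop {C : Set ℂ} {x : ℂ} {S : Set ℂ} {Φ : (ℂ → ENNReal) → ENNReal}
    (h : Pc C x x S Φ) : ∃ σ : ℝ → ℂ, Continuous σ ∧ σ 0 = σ 1 ∧ σ '' Icc 0 1 = S ∧
      {t : ℝ | t ∈ Icc (0 : ℝ) 1 ∧ (¬ DifferentiableAt ℝ σ t ∨ σ t ∈ C)}.Countable ∧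
      ∀ ρ : ℂ → ENNReal, Measurable ρ →
        ∫⁻ t in Icc (0 : ℝ) 1, ρ (σ t) * ‖deriv σ t‖ₑ ≤ Φ ρ := by
  obtain ⟨τ, L, hL, hc, h0, h1, hS, hcount, hΦ⟩ := h
  let σ : ℝ → ℂ := fun t => τ (L * max 0 (min t 1))
  have hσ1 : ∀ t ∈ Icc (0 : ℝ) 1, σ t = τ (L * t) := by
    intro t ht
    change τ (L * max 0 (min t 1)) = τ (L * t)
    rw [min_eq_left ht.2, max_eq_right ht.1]
  have hσn : ∀ t ∈ Ioo (0 : ℝ) 1, σ =ᶠ[𝓝 t] fun t => τ (L * t) := fun t ht => by
    filter_upwards [Ioo_mem_nhds ht.1 ht.2] with s hs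
    exact hσ1 s ⟨hs.1.le, hs.2.le⟩
  have hmul : ∀ t ∈ Icc (0 : ℝ) 1, L * t ∈ Icc 0 L := fun t ht =>
    ⟨mul_nonneg hL.le ht.1, by nlinarith [ht.2]⟩
  refine ⟨σ, ?_, ?_, ?_, ?_, fun ρ hρ => ?_⟩
  · refine hc.comp_continuous (by fun_prop) fun t => hmul _ ⟨le_max_left _ _, ?_⟩
    exact max_le zero_le_one (min_le_right _ _)
  · rw [hσ1 0 ⟨le_rfl, zero_le_one⟩, hσ1 1 ⟨zero_le_one, le_rfl⟩, mul_zero, mul_one, h0, h1]
  · rw [← hS]
    ext w
    constructor
    · rintro ⟨t, ht, rfl⟩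
      exact ⟨L * t, hmul t ht, (hσ1 t ht).symm⟩
    · rintro ⟨t, ht, rfl⟩
      have h2 : t / L ∈ Icc (0 : ℝ) 1 := ⟨div_nonneg ht.1 hL.le, (div_le_one hL).2 ht.2⟩
      refine ⟨t / L, h2, ?_⟩
      rw [hσ1 _ h2, mul_div_cancel₀ _ hL.ne']
  · refine ((hcount.preimage (f := fun t : ℝ => L * t) (mul_right_injective₀ hL.ne')).union
      ((countable_singleton (0 : ℝ)).union (countable_singleton (1 : ℝ)))).mono ?_
    rintro t ⟨ht, hbad⟩
    rcases eq_or_lt_of_le ht.1 with heq | hpos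
    · exact Or.inr (Or.inl heq.symm)
    rcases eq_or_lt_of_le ht.2 with heq | hlt
    · exact Or.inr (Or.inr heq)
    · refine Or.inl ⟨hmul t ht, ?_⟩
      rcases hbad with hd | hC
      · refine Or.inl fun hd' => hd ((hσn t ⟨hpos, hlt⟩).differentiableAt_iff.2 ?_)
        exact DifferentiableAt.comp (g := τ) (f := fun t : ℝ => L * t) t hd'
          ((differentiableAt_const L).mul differentiableAt_id)
      · rw [hσ1 t ht] at hC
        exact Or.inr hC
  · refine le_trans (le_of_eq ?_) (hΦ ρ hρ)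
    have himg : (fun t : ℝ => 0 + L * t) '' Ioo 0 1 = Ioo 0 L := by
      ext t
      constructor
      · rintro ⟨s, ⟨hs0, hs1⟩, rfl⟩
        constructor
        · beta_reduce
          nlinarith
        · beta_reduce
          nlinarith
      · rintro ⟨hs0, hs1⟩
        refine ⟨t / L, ⟨div_pos hs0 hL, (div_lt_one hL).2 hs1⟩, ?_⟩
        beta_reduce
        rw [mul_div_cancel₀ _ hL.ne', zero_add]
    have h2 := Pcs_affine 0 L hL.ne' (measurableSet_Ioo (a := (0 : ℝ)) (b := 1))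
      (fun t => ρ (τ t) * ‖deriv τ t‖ₑ)
    rw [himg] at h2
    rw [← restrict_Ioo_eq_restrict_Icc, ← restrict_Ioo_eq_restrict_Icc, h2]
    refine setLIntegral_congr_fun measurableSet_Ioo fun t ht => ?_
    rw [(hσn t ht).deriv_eq, hσ1 t ⟨ht.1.le, ht.2.le⟩, zero_add, deriv_comp_mul_left, enorm_smul,
      Real.enorm_eq_ofReal hL.le, abs_of_pos hL]
    ring

/-- PROOF. `τ t = G (u + t e)`, `L`. For `t ∈ Ioo 0 L` it is differentiable with derivative
`deriv G (u + t e) * e`, of norm `‖deriv G (u + t e)‖`; the exceptional parameters are at most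
the two ends. -/
theorem pc_seg {C : Set ℂ} {G : ℂ → ℂ} {u e : ℂ} (he : ‖e‖ = 1) {L : ℝ} (hL : 0 < L)
    (hc : ContinuousOn G ((fun t : ℝ => u + t * e) '' Icc 0 L))
    (hd : ∀ t ∈ Ioo 0 L, DifferentiableAt ℂ G (u + t * e))
    (hC : ∀ t ∈ Ioo 0 L, G (u + t * e) ∉ C) :
    Pc C (G u) (G (u + L * e)) (G '' ((fun t : ℝ => u + t * e) '' Icc 0 L))
      (fun ρ => ∫⁻ t in Ioo 0 L, ρ (G (u + t * e)) * ‖deriv G (u + t * e)‖ₑ) := by
  have hder : ∀ t ∈ Ioo 0 L, HasDerivAt (fun t : ℝ => G (u + t * e))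
      (deriv G (u + t * e) * e) t := by
    intro t ht
    have h1 : HasDerivAt (fun t : ℝ => u + (t : ℂ) * e) (1 * e) t :=
      ((Complex.ofRealCLM.hasDerivAt (x := t)).mul_const e).const_add u
    rw [one_mul] at h1
    exact HasDerivAt.comp (h₂ := G) (h := fun t : ℝ => u + (t : ℂ) * e) t
      (hd t ht).hasDerivAt h1
  refine ⟨fun t => G (u + t * e), L, hL, ?_, ?_, rfl, ?_, ?_, fun ρ hρ => ?_⟩
  · exact hc.comp (f := fun t : ℝ => u + t * e) (by fun_prop) (mapsTo_image _ _)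
  · change G (u + (0 : ℝ) * e) = G u
    rw [Complex.ofReal_zero, zero_mul, add_zero]
  · rw [image_image]
  · refine ((countable_singleton (0 : ℝ)).union (countable_singleton L)).mono ?_
    rintro t ⟨ht, hbad⟩
    rcases eq_or_lt_of_le ht.1 with heq | hpos
    · exact Or.inl heq.symm
    rcases eq_or_lt_of_le ht.2 with heq | hlt
    · exact Or.inr heq
    · exfalso
      rcases hbad with hbad | hbad
      · exact hbad (hder t ⟨hpos, hlt⟩).differentiableAt
      · exact hC t ⟨hpos, hlt⟩ hbad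
  · rw [← restrict_Ioo_eq_restrict_Icc]
    refine le_of_eq (setLIntegral_congr_fun measurableSet_Ioo fun t ht => ?_)
    beta_reduce
    have h2 : ‖e‖ₑ = 1 := by
      rw [← ofReal_norm, he, ENNReal.ofReal_one]
    rw [(hder t ht).deriv, enorm_mul, h2, mul_one]

end Pool.Agent.MY018
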