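import Pool.Agent.Lib.MP_018119_an_MY.DefsH

/-!
# MY: the Riemann maps in the half plane coordinates (1)
-/

set_option autoImplicit false

open Topology Filter Set Metric MeasureTheory

namespace Pool.Agent.MY018

private theorem stripA_norm (w : ℂ) : ‖Complex.exp (w * Complex.I)‖ = Real.exp (-w.im) := by
  rw [Complex.norm_exp]
  congr 1
  simp

/-- PROOF. `‖exp (w I)‖ = exp (-w.im)`. -/
theorem exp_mem_closedBall {w : ℂ} (hw : 0 ≤ w.im) :
    Complex.exp (w * Complex.I) ∈ closedBall (0 : ℂ) 1 := by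
  rw [mem_closedBall_zero_iff, stripA_norm]
  exact Real.exp_le_one_iff.2 (by linarith)

theorem exp_mem_ball {w : ℂ} (hw : 0 < w.im) : Complex.exp (w * Complex.I) ∈ ball (0 : ℂ) 1 := by
  rw [mem_ball_zero_iff, stripA_norm]
  exact Real.exp_lt_one_iff.2 (by linarith)

theorem exp_mem_compl {w : ℂ} (hw : w.im ≤ 0) :
    Complex.exp (w * Complex.I) ∈ (ball (0 : ℂ) 1)ᶜ := by
  rw [mem_compl_iff, mem_ball_zero_iff, stripA_norm, not_lt]
  exact Real.one_le_exp (by linarith)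

theorem exp_mem_compl' {w : ℂ} (hw : w.im < 0) :
    Complex.exp (w * Complex.I) ∈ (closedBall (0 : ℂ) 1)ᶜ := by
  rw [mem_compl_iff, mem_closedBall_zero_iff, stripA_norm, not_le]
  exact Real.one_lt_exp_iff.2 (by linarith)

/-- PROOF. `Complex.exp_eq_exp_iff_exists_int`: `w I = w' I + 2 π n I`, so `w = w' + 2 π n`, and
`|Re (w - w')| < 2 π` gives `n = 0`. -/
theorem exp_inj {w w' : ℂ} (h : Complex.exp (w * Complex.I) = Complex.exp (w' * Complex.I))
    (hre : |w.re - w'.re| < 2 * Real.pi) : w = w' := by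
  obtain ⟨n, hn⟩ := Complex.exp_eq_exp_iff_exists_int.1 h
  have h1 : w = w' + ((n * (2 * Real.pi) : ℝ) : ℂ) := by
    have h2 : w * Complex.I = (w' + ((n * (2 * Real.pi) : ℝ) : ℂ)) * Complex.I := by
      rw [hn]
      push_cast
      ring
    exact mul_right_cancel₀ Complex.I_ne_zero h2
  have h3 : w.re - w'.re = n * (2 * Real.pi) := by
    rw [h1, Complex.add_re, Complex.ofReal_re]
    ring
  rw [h3, abs_mul, abs_of_pos Real.two_pi_pos] at hre
  have h4 : |(n : ℝ)| < 1 := by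
    have := Real.two_pi_pos
    nlinarith
  have h5 : n = 0 := by
    have h6 : |n| < 1 := by exact_mod_cast h4
    exact Int.abs_lt_one_iff.1 h6
  rw [h1, h5]
  simp

/-- PROOF. `h` is unbounded in both directions by `per`, and continuous. -/
theorem gd_surj {C : Set ℂ} {f₁ f₂ : ℂ → ℂ} {h : ℝ → ℝ} (hG : GD C f₁ f₂ h) :
    Function.Surjective h := by
  have hpi := Real.two_pi_pos
  have h1 : ∀ n : ℕ, h (n * (2 * Real.pi)) = h 0 + n * (2 * Real.pi) := by
    intro n
    induction n with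
    | zero => simp
    | succ n ih =>
      have h2 := hG.per (n * (2 * Real.pi))
      rw [ih] at h2
      push_cast
      rw [show ((n : ℝ) + 1) * (2 * Real.pi) = n * (2 * Real.pi) + 2 * Real.pi by ring, h2]
      ring
  have h2 : ∀ n : ℕ, h (-(n * (2 * Real.pi))) = h 0 - n * (2 * Real.pi) := by
    intro n
    induction n with
    | zero => simp
    | succ n ih =>
      have h2 := hG.per (-(((n + 1 : ℕ) : ℝ) * (2 * Real.pi)))
      rw [show -(((n + 1 : ℕ) : ℝ) * (2 * Real.pi)) + 2 * Real.pi = -(n * (2 * Real.pi)) by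
        push_cast; ring, ih] at h2
      push_cast at h2 ⊢
      linarith
  intro y
  obtain ⟨n, hn⟩ := exists_nat_ge (|y - h 0| / (2 * Real.pi))
  rw [div_le_iff₀ hpi] at hn
  have h3 := abs_le.1 hn
  refine mem_range_of_exists_le_of_exists_ge hG.hc ⟨-(n * (2 * Real.pi)), ?_⟩
    ⟨n * (2 * Real.pi), ?_⟩
  · rw [h2]
    linarith
  · rw [h1]
    linarith

/-- PROOF. Write `u' = exp (u I)`, `v' = exp (v I)`, so `f₁ u' = f₂ v'`, `‖u'‖ ≤ 1 ≤ ‖v'‖`. If `u.im > 0` and `v.im < 0`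
this contradicts `dis`. If `u.im = 0` then `u = u.re` is real and `f₁ u' = f₂ (exp (h u.re I))` (`wel`), so
`v' = exp (h u.re I)` (`i2`) and `v = h u.re` by `exp_inj`, as
`|v.re - h u.re| ≤ |v.re - h x₀| + |h x₀ - h u.re| ≤ 2 R < 2 π`. If `v.im = 0` and `u.im > 0`: `v.re = h x` for
some real `x` (`gd_surj`), `f₂ v' = f₁ (exp (x I))`, so `u' = exp (x I)` (`i1`), which contradicts
`‖u'‖ < 1`. -/
theorem gd_sep {C : Set ℂ} {f₁ f₂ : ℂ → ℂ} {h : ℝ → ℝ} (hG : GD C f₁ f₂ h) {x₀ r R : ℝ}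
    (hR : R < Real.pi) (hR1 : h (x₀ + r) ≤ h x₀ + R) (hR2 : h x₀ - R ≤ h (x₀ - r))
    {u v : ℂ} (hu : u ∈ ubox x₀ r) (hv : v ∈ lbox (h x₀) R) (huv : hp f₁ u = hp f₂ v) :
    u.im = 0 ∧ v.im = 0 ∧ v.re = h u.re := by
  obtain ⟨hu1, hu2, hu3⟩ := hu
  obtain ⟨hv1, hv2, hv3⟩ := hv
  have hu1' := abs_le.1 hu1
  have hv1' := abs_le.1 hv1
  have hm1 : h u.re ≤ h (x₀ + r) := hG.mono.monotone (by linarith)
  have hm2 : h (x₀ - r) ≤ h u.re := hG.mono.monotone (by linarith)
  have hre0 : ∀ z : ℂ, z.im = 0 → z = ((z.re : ℝ) : ℂ) := fun z hz =>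
    Complex.ext (by rw [Complex.ofReal_re]) (by rw [hz, Complex.ofReal_im])
  unfold hp at huv
  rcases hu2.lt_or_eq with hpos | hzero
  · exfalso
    rcases hv3.lt_or_eq with hneg | hzero'
    · exact disjoint_left.1 hG.dis (mem_image_of_mem _ (exp_mem_ball hpos))
        (huv ▸ mem_image_of_mem _ (exp_mem_compl' hneg))
    · obtain ⟨x, hx⟩ := gd_surj hG v.re
      have h1 : v = ((h x : ℝ) : ℂ) := by rw [hx]; exact hre0 v hzero'
      rw [h1, ← hG.wel x] at huv
      have h2 := hG.i1 (exp_mem_closedBall hpos.le) (exp_mem_closedBall (by simp)) huv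
      have h3 := congrArg norm h2
      rw [stripA_norm, stripA_norm, Complex.ofReal_im, neg_zero, Real.exp_zero] at h3
      have h4 : Real.exp (-u.im) < 1 := Real.exp_lt_one_iff.2 (by linarith)
      linarith
  · have h1 : u = ((u.re : ℝ) : ℂ) := hre0 u hzero.symm
    have h2 : f₁ (Complex.exp (u * Complex.I)) =
        f₂ (Complex.exp (((h u.re : ℝ) : ℂ) * Complex.I)) := by
      have := hG.wel u.re
      rwa [← h1] at this
    rw [h2] at huv
    have h3 := hG.i2 (exp_mem_compl (by simp)) (exp_mem_compl hv3) huv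
    have h4 : ((h u.re : ℝ) : ℂ) = v := exp_inj h3 (by
      rw [Complex.ofReal_re, abs_lt]
      constructor <;> linarith)
    refine ⟨hzero.symm, ?_, ?_⟩
    · rw [← h4, Complex.ofReal_im]
    · rw [← h4, Complex.ofReal_re]

/-- PROOF. `C ⊆ f₁ '' sphere 0 1`, and `f₁` is injective on the closed ball. -/
theorem gd_C1 {C : Set ℂ} {f₁ f₂ : ℂ → ℂ} {h : ℝ → ℝ} (hG : GD C f₁ f₂ h) {w : ℂ}
    (hw : 0 < w.im) : hp f₁ w ∉ C := by
  intro hC
  obtain ⟨s, hs, hs'⟩ := hG.sub hC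
  have h1 := hG.i1 (sphere_subset_closedBall hs) (exp_mem_closedBall hw.le) hs'
  rw [mem_sphere_zero_iff_norm, h1, stripA_norm] at hs
  have h4 : Real.exp (-w.im) < 1 := Real.exp_lt_one_iff.2 (by linarith)
  linarith

/-- PROOF. A point of `C` is `f₁ (exp (x I)) = f₂ (exp (h x I))` for a real `x` (every point of the
unit circle is `exp (x I)`), and `f₂` is injective on `(ball 0 1)ᶜ`. -/
theorem gd_C2 {C : Set ℂ} {f₁ f₂ : ℂ → ℂ} {h : ℝ → ℝ} (hG : GD C f₁ f₂ h) {w : ℂ}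
    (hw : w.im < 0) : hp f₂ w ∉ C := by
  intro hC
  obtain ⟨s, hs, hs'⟩ := hG.sub hC
  rw [mem_sphere_zero_iff_norm] at hs
  have h1 : s = Complex.exp ((s.arg : ℂ) * Complex.I) := by
    have := Complex.norm_mul_exp_arg_mul_I s
    rw [hs, Complex.ofReal_one, one_mul] at this
    exact this.symm
  rw [h1, hG.wel] at hs'
  have h2 := hG.i2 (exp_mem_compl (by simp)) (exp_mem_compl hw.le) hs'
  have h3 := congrArg norm h2
  rw [stripA_norm, stripA_norm, Complex.ofReal_im, neg_zero, Real.exp_zero] at h3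
  have h4 : 1 < Real.exp (-w.im) := Real.one_lt_exp_iff.2 (by linarith)
  linarith

end Pool.Agent.MY018
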