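import Pool.Agent.Lib.MP_018119_an_MY.StripA

/-!
# MY: the Riemann maps in the half plane coordinates (2): neighbourhoods of a point of the curve
-/

set_option autoImplicit false

open Topology Filter Set Metric MeasureTheory

namespace Pool.Agent.MY018

private theorem StripB_norm (w : ℂ) : ‖Complex.exp (w * Complex.I)‖ = Real.exp (-w.im) := by
  rw [Complex.norm_exp]
  congr 1
  simp

private theorem StripB_isOpen {U : Set ℂ} (hU : IsOpen U) :
    IsOpen ((fun w : ℂ => Complex.exp (w * Complex.I)) '' U) := by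
  have h1 : (fun w : ℂ => Complex.exp (w * Complex.I)) '' U =
      Complex.exp '' ((fun w : ℂ => w * Complex.I) '' U) := by
    rw [image_image]
  rw [h1]
  exact Complex.isOpenMap_exp _ ((Homeomorph.mulRight₀ Complex.I Complex.I_ne_zero).isOpenMap _ hU)

private theorem StripB_proper {f : ℂ → ℂ} {D : Set ℂ} (hf : ContinuousOn f D) (hD : IsClosed D)
    (hpr : Tendsto f (cocompact ℂ) (cocompact ℂ)) : IsClosed (f '' D) := by
  refine isClosed_of_closure_subset fun y hy => ?_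
  have h1 : (closedBall y 1)ᶜ ∈ cocompact ℂ := (isCompact_closedBall y 1).compl_mem_cocompact
  obtain ⟨K, hK, hK2⟩ := mem_cocompact.1 (hpr h1)
  have h2 : IsClosed (f '' (D ∩ K)) :=
    ((hK.inter_left hD).image_of_continuousOn (hf.mono inter_subset_left)).isClosed
  have h3 : f '' D ∩ ball y 1 ⊆ f '' (D ∩ K) := by
    rintro _ ⟨⟨z, hz, rfl⟩, hzy⟩
    refine ⟨z, ⟨hz, ?_⟩, rfl⟩
    by_contra hzK
    exact hK2 hzK (ball_subset_closedBall hzy)
  have h4 : y ∈ closure (f '' D ∩ ball y 1) :=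
    isOpen_ball.closure_inter ⟨hy, mem_ball_self one_pos⟩
  have h5 := closure_mono h3 h4
  rw [h2.closure_eq] at h5
  exact image_mono inter_subset_left h5

private theorem StripB_per {C : Set ℂ} {f₁ f₂ : ℂ → ℂ} {h : ℝ → ℝ} (hG : GD C f₁ f₂ h) (x : ℝ)
    (n : ℤ) : h (x + n * (2 * Real.pi)) = h x + n * (2 * Real.pi) := by
  induction n using Int.induction_on with
  | zero => simp
  | succ n ih =>
    have h1 := hG.per (x + n * (2 * Real.pi))
    push_cast at ih ⊢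
    rw [show x + ((n : ℝ) + 1) * (2 * Real.pi) = x + n * (2 * Real.pi) + 2 * Real.pi by ring, h1, ih]
    ring
  | pred n ih =>
    have h1 := hG.per (x + (-(n : ℝ) - 1) * (2 * Real.pi))
    push_cast at ih ⊢
    rw [show x + (-(n : ℝ) - 1) * (2 * Real.pi) + 2 * Real.pi = x + -(n : ℝ) * (2 * Real.pi) by ring,
      ih] at h1
    linarith

private theorem StripB_eq {x : ℝ} {w : ℂ} (hw : Complex.exp (x * Complex.I) =
    Complex.exp (w * Complex.I)) : w.im = 0 ∧ ∃ n : ℤ, w.re = x + n * (2 * Real.pi) := by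
  obtain ⟨n, hn⟩ := Complex.exp_eq_exp_iff_exists_int.1 hw.symm
  have h1 : w = x + n * (2 * Real.pi) := by
    apply mul_right_cancel₀ Complex.I_ne_zero
    rw [hn]
    ring
  constructor
  · rw [h1]
    simp
  · refine ⟨n, ?_⟩
    rw [h1]
    simp

private theorem StripB_wel {C : Set ℂ} {f₁ f₂ : ℂ → ℂ} {h : ℝ → ℝ} (hG : GD C f₁ f₂ h)
    {u v : ℂ} (hu : u ∈ closedBall (0 : ℂ) 1) (hv : v ∈ (ball (0 : ℂ) 1)ᶜ) (huv : f₁ u = f₂ v) :
    ∃ x : ℝ, u = Complex.exp (x * Complex.I) ∧ v = Complex.exp (h x * Complex.I) := by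
  have hS1 : ∀ x : ℝ, Complex.exp (x * Complex.I) ∈ closedBall (0 : ℂ) 1 := by
    intro x
    rw [mem_closedBall_zero_iff, Complex.norm_exp_ofReal_mul_I]
  have hS2 : ∀ x : ℝ, Complex.exp (x * Complex.I) ∈ (ball (0 : ℂ) 1)ᶜ := by
    intro x
    rw [mem_compl_iff, mem_ball_zero_iff, Complex.norm_exp_ofReal_mul_I]
    exact lt_irrefl _
  by_cases h1 : ‖u‖ = 1
  · obtain ⟨x, hx⟩ := (Complex.norm_eq_one_iff u).1 h1
    refine ⟨x, hx.symm, ?_⟩
    refine hG.i2 hv (hS2 _) ?_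
    rw [← huv, ← hG.wel, hx]
  · by_cases h2 : ‖v‖ = 1
    · obtain ⟨y, hy⟩ := (Complex.norm_eq_one_iff v).1 h2
      obtain ⟨x, rfl⟩ := gd_surj hG y
      refine ⟨x, ?_, hy.symm⟩
      refine hG.i1 hu (hS1 _) ?_
      rw [huv, hG.wel, hy]
    · exfalso
      have h3 : u ∈ ball (0 : ℂ) 1 := by
        rw [mem_ball_zero_iff]
        exact lt_of_le_of_ne (mem_closedBall_zero_iff.1 hu) h1
      have h4 : v ∈ (closedBall (0 : ℂ) 1)ᶜ := by
        rw [mem_compl_iff, mem_closedBall_zero_iff, not_le]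
        rw [mem_compl_iff, mem_ball_zero_iff, not_lt] at hv
        exact lt_of_le_of_ne hv (Ne.symm h2)
      exact disjoint_left.1 hG.dis (mem_image_of_mem f₁ h3) (huv ▸ mem_image_of_mem f₂ h4)

/-- PROOF. Let `e w = exp (w I)`, `P = e '' ub a b s ⊆ closedBall 0 1`, `Q = e '' lb (h a) (h b) s' ⊆ (ball 0 1)ᶜ`. The
complement of the set is `T = f₁ '' (closedBall 0 1 \ P) ∪ f₂ '' ((ball 0 1)ᶜ \ Q)`, which is closed:
(i) `P = closedBall 0 1 ∩ e '' {w | a < re < b, -1 < im < s}` (`‖e w‖ = exp (-im w)`), and the second set is open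
(`e` is an open map, being holomorphic and nowhere locally constant, or a local homeomorphism), so
`closedBall 0 1 \ P` is compact and its image under `f₁` is compact. (ii) Similarly `(ball 0 1)ᶜ \ Q` is
closed, and the image of a closed set `D ⊆ (ball 0 1)ᶜ` under `f₂` is closed by `c2` and `pr`: if
`f₂ z_n → y`, `z_n ∈ D`, then `z_n` is bounded (otherwise a subsequence tends to infinity and
`f₂ z_n` along it too), a subsequence converges to a point `z` of `D`, and `y = f₂ z`.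
(iii) `T` is the complement: `T ∪ (f₁ '' P ∪ f₂ '' Q)` is everything by `cov`. Disjoint: let
`f₁ u = f₂ v` with `u ∈ closedBall 0 1 \ P`, `v ∈ Q` (the case `u ∈ P`, `v ∉ Q` is similar, and
`f₁ '' (closedBall 0 1 \ P)` is disjoint from `f₁ '' P` by injectivity, similarly for `f₂`). Not both
`‖u‖ < 1`, `‖v‖ > 1` (`dis`). If `‖u‖ = 1`, `u = e x` with `x` real, `f₂ v = f₁ (e x) = f₂ (e (h x))`, `v = e (h x)`;
`v = e w` with `w ∈ lb (h a) (h b) s'`, `‖v‖ = 1` gives `w.im = 0`, and `w.re = h x + 2 π n = h (x + 2 π n)` (`per`,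
induction on the integer `n`), with `h a < w.re < h b`, so `a < x + 2 π n < b` and `u = e (x + 2 π n) ∈ P`, a
contradiction. If `‖v‖ = 1`, `v = e y` with `h a < y < h b`, `y = h x` with `a < x < b` (`gd_surj`, monotonicity), `f₁ u = f₁ (e x)`,
`u = e x ∈ P`, a contradiction. In the other case (`u = e w ∈ P`, `v ∈ (ball 0 1)ᶜ \ Q`) argue in the same
way. -/
theorem gd_opn {C : Set ℂ} {f₁ f₂ : ℂ → ℂ} {h : ℝ → ℝ} (hG : GD C f₁ f₂ h) {a b s s' : ℝ}
    (hab : a < b) (hs : 0 < s) (hs' : 0 < s') :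
    IsOpen (hp f₁ '' ub a b s ∪ hp f₂ '' lb (h a) (h b) s') := by
  set e : ℂ → ℂ := fun w => Complex.exp (w * Complex.I) with he
  have hP1 : e '' ub a b s ⊆ closedBall 0 1 := by
    rintro _ ⟨w, hw, rfl⟩
    exact exp_mem_closedBall hw.2.2.1
  have hQ1 : e '' lb (h a) (h b) s' ⊆ (ball 0 1)ᶜ := by
    rintro _ ⟨w, hw, rfl⟩
    exact exp_mem_compl hw.2.2.2
  have hP2 : closedBall 0 1 \ (e '' ub a b s) =
      closedBall 0 1 \ (e '' {w | a < w.re ∧ w.re < b ∧ -1 < w.im ∧ w.im < s}) := by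
    ext z
    constructor
    · rintro ⟨h1, h2⟩
      refine ⟨h1, ?_⟩
      rintro ⟨w, hw, rfl⟩
      rw [mem_closedBall_zero_iff, StripB_norm, Real.exp_le_one_iff] at h1
      exact h2 ⟨w, ⟨hw.1, hw.2.1, by linarith, hw.2.2.2⟩, rfl⟩
    · rintro ⟨h1, h2⟩
      refine ⟨h1, ?_⟩
      rintro ⟨w, hw, rfl⟩
      exact h2 ⟨w, ⟨hw.1, hw.2.1, by linarith [hw.2.2.1], hw.2.2.2⟩, rfl⟩
  have hQ2 : (ball 0 1)ᶜ \ (e '' lb (h a) (h b) s') =
      (ball 0 1)ᶜ \ (e '' {w | h a < w.re ∧ w.re < h b ∧ -s' < w.im ∧ w.im < 1}) := by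
    ext z
    constructor
    · rintro ⟨h1, h2⟩
      refine ⟨h1, ?_⟩
      rintro ⟨w, hw, rfl⟩
      rw [mem_compl_iff, mem_ball_zero_iff, StripB_norm, Real.exp_lt_one_iff] at h1
      exact h2 ⟨w, ⟨hw.1, hw.2.1, hw.2.2.1, by linarith⟩, rfl⟩
    · rintro ⟨h1, h2⟩
      refine ⟨h1, ?_⟩
      rintro ⟨w, hw, rfl⟩
      exact h2 ⟨w, ⟨hw.1, hw.2.1, hw.2.2.1, by linarith [hw.2.2.2]⟩, rfl⟩
  have hO1 : IsOpen {w : ℂ | a < w.re ∧ w.re < b ∧ -1 < w.im ∧ w.im < s} := by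
    refine (isOpen_lt continuous_const Complex.continuous_re).inter
      ((isOpen_lt Complex.continuous_re continuous_const).inter
      ((isOpen_lt continuous_const Complex.continuous_im).inter
      (isOpen_lt Complex.continuous_im continuous_const)))
  have hO2 : IsOpen {w : ℂ | h a < w.re ∧ w.re < h b ∧ -s' < w.im ∧ w.im < 1} := by
    refine (isOpen_lt continuous_const Complex.continuous_re).inter
      ((isOpen_lt Complex.continuous_re continuous_const).inter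
      ((isOpen_lt continuous_const Complex.continuous_im).inter
      (isOpen_lt Complex.continuous_im continuous_const)))
  have hC1 : IsClosed (f₁ '' (closedBall 0 1 \ (e '' ub a b s))) := by
    have h1 : IsCompact (closedBall (0 : ℂ) 1 \ (e '' ub a b s)) := by
      rw [hP2]
      exact (isCompact_closedBall 0 1).diff (StripB_isOpen hO1)
    exact (h1.image_of_continuousOn (hG.c1.mono sdiff_subset)).isClosed
  have hC2 : IsClosed (f₂ '' ((ball 0 1)ᶜ \ (e '' lb (h a) (h b) s'))) := by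
    refine StripB_proper (hG.c2.mono sdiff_subset) ?_ hG.pr
    rw [hQ2]
    exact isOpen_ball.isClosed_compl.sdiff (StripB_isOpen hO2)
  have hV1 : hp f₁ '' ub a b s = f₁ '' (e '' ub a b s) := by
    rw [image_image]
    rfl
  have hV2 : hp f₂ '' lb (h a) (h b) s' = f₂ '' (e '' lb (h a) (h b) s') := by
    rw [image_image]
    rfl
  have hPe : ∀ x : ℝ, (∃ n : ℤ, a < x + n * (2 * Real.pi) ∧ x + n * (2 * Real.pi) < b) →
      Complex.exp (x * Complex.I) ∈ e '' ub a b s := by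
    rintro x ⟨n, h1, h2⟩
    refine ⟨((x + n * (2 * Real.pi) : ℝ) : ℂ), ⟨by simpa using h1, by simpa using h2, by simp,
      by simpa using hs⟩, ?_⟩
    rw [he]
    dsimp only
    rw [Complex.exp_eq_exp_iff_exists_int]
    refine ⟨n, ?_⟩
    push_cast
    ring
  have hQe : ∀ x : ℝ, (∃ n : ℤ, h a < x + n * (2 * Real.pi) ∧ x + n * (2 * Real.pi) < h b) →
      Complex.exp (x * Complex.I) ∈ e '' lb (h a) (h b) s' := by
    rintro x ⟨n, h1, h2⟩
    refine ⟨((x + n * (2 * Real.pi) : ℝ) : ℂ), ⟨by simpa using h1, by simpa using h2,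
      by simpa using hs', by simp⟩, ?_⟩
    rw [he]
    dsimp only
    rw [Complex.exp_eq_exp_iff_exists_int]
    refine ⟨n, ?_⟩
    push_cast
    ring
  have hkey : ∀ u ∈ closedBall (0 : ℂ) 1, ∀ v ∈ (ball (0 : ℂ) 1)ᶜ, f₁ u = f₂ v →
      (u ∈ e '' ub a b s ↔ v ∈ e '' lb (h a) (h b) s') := by
    intro u hu v hv huv
    obtain ⟨x, rfl, rfl⟩ := StripB_wel hG hu hv huv
    constructor
    · rintro ⟨w, hw, hwx⟩
      obtain ⟨h1, n, hn⟩ := StripB_eq hwx.symm
      refine hQe _ ⟨n, ?_, ?_⟩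
      · rw [← StripB_per hG, ← hn]
        exact hG.mono hw.1
      · rw [← StripB_per hG, ← hn]
        exact hG.mono hw.2.1
    · rintro ⟨w, hw, hwx⟩
      obtain ⟨h1, n, hn⟩ := StripB_eq hwx.symm
      refine hPe _ ⟨n, ?_, ?_⟩
      · rw [← hG.mono.lt_iff_lt, StripB_per hG, ← hn]
        exact hw.1
      · rw [← hG.mono.lt_iff_lt, StripB_per hG, ← hn]
        exact hw.2.1
  rw [← isClosed_compl_iff]
  have hT : (hp f₁ '' ub a b s ∪ hp f₂ '' lb (h a) (h b) s')ᶜ =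
      f₁ '' (closedBall 0 1 \ (e '' ub a b s)) ∪
        f₂ '' ((ball 0 1)ᶜ \ (e '' lb (h a) (h b) s')) := by
    rw [hV1, hV2]
    ext y
    constructor
    · intro hy
      have h1 : y ∈ f₁ '' closedBall 0 1 ∪ f₂ '' (ball 0 1)ᶜ := by
        rw [hG.cov]
        exact mem_univ y
      rcases h1 with ⟨u, hu, rfl⟩ | ⟨v, hv, rfl⟩
      · exact Or.inl ⟨u, ⟨hu, fun h2 => hy (Or.inl ⟨u, h2, rfl⟩)⟩, rfl⟩
      · exact Or.inr ⟨v, ⟨hv, fun h2 => hy (Or.inr ⟨v, h2, rfl⟩)⟩, rfl⟩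
    · rintro (⟨u, hu, rfl⟩ | ⟨v, hv, rfl⟩)
      · rintro (⟨p, hp, hpu⟩ | ⟨q, hq, hqu⟩)
        · have h2 := hG.i1 (hP1 hp) hu.1 hpu
          exact hu.2 (h2 ▸ hp)
        · exact hu.2 ((hkey u hu.1 q (hQ1 hq) hqu.symm).2 hq)
      · rintro (⟨p, hp, hpu⟩ | ⟨q, hq, hqu⟩)
        · exact hv.2 ((hkey p (hP1 hp) v hv.1 hpu).1 hp)
        · have h2 := hG.i2 (hQ1 hq) hv.1 hqu
          exact hv.2 (h2 ▸ hq)
  rw [hT]
  exact hC1.union hC2

end Pool.Agent.MY018
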